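import Pool.Agent.Work.MP_38b5f0_co.Main

set_option autoImplicit false
set_option linter.unusedSectionVars false

namespace Pool.Agent.Work.MP_38b5f0_co

namespace MD

universe u w

/-- from reachability to an out-branching -/
lemma exists_outBranching {V : Type u} {A : Type w} (D : MD V A) (F : Set A) (s : V)
    (h : ∀ x, D.Reach F s x) : ∃ B ⊆ F, D.IsOutBranching s B := by
  classical
  let P : ℕ → V → Prop := fun n x => ∃ f : ℕ → V, f 0 = s ∧ f n = x ∧
    ∀ i < n, D.Step F (f i) (f (i + 1))
  have hP : ∀ x, ∃ n, P n x := fun x => reach_steps (h x)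
  let d : V → ℕ := fun x => Nat.find (hP x)
  have hd : ∀ x, P (d x) x := fun x => Nat.find_spec (hP x)
  have hdmin : ∀ x n, P n x → d x ≤ n := fun x n hn => Nat.find_min' _ hn
  have hpar : ∀ x : {x : V // x ≠ s}, ∃ e, e ∈ F ∧ D.tgt e = x.1 ∧ d (D.src e) < d x.1 := by
    rintro ⟨x, hxs⟩
    obtain ⟨f, h0, hn, hf⟩ := hd x
    have hpos : d x ≠ 0 := by
      intro h
      rw [h, h0] at hn
      exact hxs hn.symm
    obtain ⟨m, hm⟩ := Nat.exists_eq_succ_of_ne_zero hpos
    rw [hm] at hn hf
    obtain ⟨e, heF, he1, he2⟩ := hf m (Nat.lt_succ_self m)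
    refine ⟨e, heF, by rw [he2]; exact hn, ?_⟩
    have h1 : d (D.src e) ≤ m := hdmin _ _ ⟨f, h0, he1.symm, fun i hi => hf i (by omega)⟩
    simp only
    omega
  choose p hpF hpt hpd using hpar
  refine ⟨{e | ∃ x, e = p x}, ?_, ?_, ?_, ?_⟩
  · rintro e ⟨x, rfl⟩
    exact hpF x
  · rintro e ⟨x, rfl⟩
    rw [hpt x]
    exact x.2
  · intro v hv
    refine ⟨p ⟨v, hv⟩, ⟨⟨_, rfl⟩, hpt _⟩, ?_⟩
    rintro e ⟨⟨x, rfl⟩, hx⟩
    have : x = ⟨v, hv⟩ := Subtype.ext ((hpt x).symm.trans hx)
    rw [this]
  · have key : ∀ n x, d x = n → D.Reach {e | ∃ x, e = p x} s x := by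
      intro n
      induction n using Nat.strong_induction_on with
      | _ n ih =>
        intro x hdx
        by_cases hxs : x = s
        · rw [hxs]; exact Reach.refl s
        · have h1 := hpd ⟨x, hxs⟩
          have h2 := ih (d (D.src (p ⟨x, hxs⟩))) (by simp only at h1; omega) _ rfl
          have h3 : D.Reach {e | ∃ x, e = p x} (D.src (p ⟨x, hxs⟩)) (D.tgt (p ⟨x, hxs⟩)) :=
            Reach.single ⟨_, rfl⟩
          rw [hpt ⟨x, hxs⟩] at h3
          exact h2.trans h3
    exact fun v => key _ v rfl

lemma exists_inBranching {V : Type u} {A : Type w} (D : MD V A) (F : Set A) (t : V)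
    (h : ∀ x, D.Reach F x t) : ∃ B ⊆ F, D.IsInBranching t B := by
  obtain ⟨B, hB, h1, h2, h3⟩ := D.rev.exists_outBranching F t (fun x => reach_rev.2 (h x))
  exact ⟨B, hB, h1, h2, fun v => reach_rev.1 (h3 v)⟩

/-- the multigraph with a new root: `k` arcs to `s` and `k` arcs from `t` -/
def addRoot {V : Type u} {A : Type w} (D : MD V A) (s t : V) (k : ℕ) :
    MD (Option V) (A ⊕ (Fin k ⊕ Fin k)) where
  src := Sum.elim (fun a => some (D.src a)) (Sum.elim (fun _ => none) (fun _ => some t))
  tgt := Sum.elim (fun a => some (D.tgt a)) (Sum.elim (fun _ => some s) (fun _ => none))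

lemma KS_addRoot {V : Type u} {A : Type w} [Fintype V] [DecidableEq V] [Fintype A]
    [DecidableEq A] (D : MD V A) (s t : V) (k : ℕ) (h : D.KS Finset.univ k) :
    (D.addRoot s t k).KS Finset.univ k := by
  classical
  intro X hX hXu
  by_cases h1 : ∃ x : V, some x ∈ X
  · by_cases h2 : ∃ y : V, some y ∉ X
    · set Y : Finset V := Finset.univ.filter fun x => some x ∈ X with hY
      have hYne : Y.Nonempty := by
        obtain ⟨x, hx⟩ := h1
        exact ⟨x, by simp [hY, hx]⟩
      have hYu : Y ≠ Finset.univ := by
        obtain ⟨y, hy⟩ := h2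
        intro h
        apply hy
        have : y ∈ Y := by rw [h]; exact Finset.mem_univ y
        simpa [hY] using this
      refine le_trans (h Y hYne hYu) ?_
      unfold outd
      refine Finset.card_le_card_of_injOn Sum.inl ?_ (Set.injOn_of_injective Sum.inl_injective)
      intro a ha
      rw [Finset.mem_coe, Finset.mem_filter] at ha ⊢
      exact ⟨Finset.mem_univ _, by simpa [addRoot, hY] using ha.2.1,
        by simpa [addRoot, hY] using ha.2.2⟩
    · push Not at h2
      have hnone : none ∉ X := by
        intro hn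
        apply hXu
        rw [Finset.eq_univ_iff_forall]
        intro z
        cases z with
        | none => exact hn
        | some z => exact h2 z
      have hc : k = (Finset.univ : Finset (Fin k)).card := by simp
      refine le_trans (le_of_eq hc) ?_
      unfold outd
      refine Finset.card_le_card_of_injOn (fun i => Sum.inr (Sum.inr i)) ?_ ?_
      · intro i _
        rw [Finset.mem_coe, Finset.mem_filter]
        exact ⟨Finset.mem_univ _, h2 t, hnone⟩
      · intro i _ j _ hij
        simpa using hij
  · push Not at h1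
    have hnone : none ∈ X := by
      obtain ⟨z, hz⟩ := hX
      cases z with
      | none => exact hz
      | some z => exact absurd hz (h1 z)
    have hc : k = (Finset.univ : Finset (Fin k)).card := by simp
    refine le_trans (le_of_eq hc) ?_
    unfold outd
    refine Finset.card_le_card_of_injOn (fun i => Sum.inr (Sum.inl i)) ?_ ?_
    · intro i _
      rw [Finset.mem_coe, Finset.mem_filter]
      exact ⟨Finset.mem_univ _, hnone, h1 s⟩
    · intro i _ j _ hij
      simpa using hij

lemma reach_addRoot_out {V : Type u} {A : Type w} (D : MD V A) (s t : V) (k : ℕ)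
    (F : Set (A ⊕ (Fin k ⊕ Fin k))) {y : Option V} (h : (D.addRoot s t k).Reach F none y) :
    ∀ x, y = some x → D.Reach (Sum.inl ⁻¹' F) s x := by
  induction h with
  | refl => intro x hx; simp at hx
  | tail _ h2 ih =>
    intro x hx
    obtain ⟨a, ha, h3, h4⟩ := h2
    match a, ha, h3, h4 with
    | Sum.inl a, ha, h3, h4 =>
      simp only [addRoot, Sum.elim_inl] at h3 h4
      have h5 := ih _ h3.symm
      have h6 : D.tgt a = x := by rw [hx] at h4; simpa using h4
      rw [← h6]
      exact h5.trans (Reach.single ha)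
    | Sum.inr (Sum.inl i), ha, h3, h4 =>
      simp only [addRoot, Sum.elim_inl, Sum.elim_inr] at h3 h4
      rw [hx] at h4
      simp only [Option.some.injEq] at h4
      rw [← h4]
      exact Reach.refl s
    | Sum.inr (Sum.inr i), ha, h3, h4 =>
      simp only [addRoot, Sum.elim_inr] at h3 h4
      rw [hx] at h4
      simp at h4

lemma reach_addRoot_in {V : Type u} {A : Type w} (D : MD V A) (s t : V) (k : ℕ)
    (F : Set (A ⊕ (Fin k ⊕ Fin k))) {y : Option V} (h : (D.addRoot s t k).Reach F y none) :
    ∀ x, y = some x → D.Reach (Sum.inl ⁻¹' F) x t := by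
  induction h using Relation.ReflTransGen.head_induction_on with
  | refl => intro x hx; simp at hx
  | head h2 _ ih =>
    intro x hx
    obtain ⟨a, ha, h3, h4⟩ := h2
    match a, ha, h3, h4 with
    | Sum.inl a, ha, h3, h4 =>
      simp only [addRoot, Sum.elim_inl] at h3 h4
      have h5 := ih _ h4.symm
      have h6 : D.src a = x := by rw [hx] at h3; simpa using h3
      have h7 : D.Reach (Sum.inl ⁻¹' F) (D.src a) (D.tgt a) := Reach.single ha
      rw [← h6]
      exact h7.trans h5
    | Sum.inr (Sum.inl i), ha, h3, h4 =>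
      simp only [addRoot, Sum.elim_inl, Sum.elim_inr] at h3 h4
      rw [hx] at h3
      simp at h3
    | Sum.inr (Sum.inr i), ha, h3, h4 =>
      simp only [addRoot, Sum.elim_inr] at h3 h4
      rw [hx] at h3
      simp only [Option.some.injEq] at h3
      rw [← h3]
      exact Reach.refl t

/-- a rooted theorem for `k` implies the two-root theorem for `k` -/
theorem two_roots {V : Type u} {A : Type w} [Finite V] [Finite A] (D : MD V A) (a k : ℕ)
    (hroot : ∀ (V : Type u) (A : Type w) [Fintype V] [DecidableEq V] [Fintype A]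
      [DecidableEq A] (D : MD V A) (r : V), D.KS Finset.univ k →
      (∀ S : Finset V, r ∉ S → D.Indep S → S.card ≤ a) → D.Good r)
    (hD : D.ArcStrong k) (hα : ∀ S : Finset V, D.Indep S → S.card ≤ a) (s t : V) :
    ∃ B C : Set A, D.IsOutBranching s B ∧ D.IsInBranching t C ∧ Disjoint B C := by
  classical
  have := Fintype.ofFinite V
  have := Fintype.ofFinite A
  have hKS : D.KS Finset.univ k := by
    intro X hX hXu
    have h1 := hD (X : Set V) (by simpa using hX) (by
      intro h
      apply hXu
      rw [Finset.eq_univ_iff_forall]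
      intro x
      have : x ∈ (X : Set V) := by rw [h]; exact Set.mem_univ x
      simpa using this)
    have h2 : {e : A | D.src e ∈ (X : Set V) ∧ D.tgt e ∉ (X : Set V)}.ncard =
        D.outd Finset.univ X := by
      rw [outd, ← Set.ncard_coe_finset]
      congr 1
      ext e
      simp
    rw [← h2]
    exact h1
  obtain ⟨F, G, hFG, hF, hG⟩ := hroot (Option V) (A ⊕ (Fin k ⊕ Fin k)) (D.addRoot s t k) none
    (D.KS_addRoot s t k hKS) (by
      intro S hS hind
      have h1 : S.card = (Finset.univ.filter fun x : V => some x ∈ S).card := by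
        refine Eq.trans ?_ (Finset.card_map Function.Embedding.some)
        congr 1
        ext z
        rw [Finset.mem_map]
        constructor
        · intro hz
          cases z with
          | none => exact absurd hz hS
          | some z => exact ⟨z, by simp [hz], rfl⟩
        · rintro ⟨x, hx, rfl⟩
          simpa using hx
      rw [h1]
      apply hα
      intro e he1 he2
      have h2 := hind (Sum.inl e) (by simpa [addRoot] using he1) (by simpa [addRoot] using he2)
      simpa [addRoot] using h2)
  obtain ⟨B, hB, hB'⟩ := D.exists_outBranching (Sum.inl ⁻¹' F) s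
    (fun x => D.reach_addRoot_out s t k F (hF (some x)) x rfl)
  obtain ⟨C, hC, hC'⟩ := D.exists_inBranching (Sum.inl ⁻¹' G) t
    (fun x => D.reach_addRoot_in s t k G (hG (some x)) x rfl)
  refine ⟨B, C, hB', hC', ?_⟩
  rw [Set.disjoint_left]
  intro e he he'
  exact Set.disjoint_left.1 hFG (hB he) (hC he')

theorem main_two {V : Type u} {A : Type w} [Finite V] [Finite A] (D : MD V A) (a k : ℕ)
    (hk : 2 * a + 1 ≤ k)
    (hD : D.ArcStrong k) (hα : ∀ S : Finset V, D.Indep S → S.card ≤ a) (s t : V) :
    ∃ B C : Set A, D.IsOutBranching s B ∧ D.IsInBranching t C ∧ Disjoint B C :=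
  two_roots D a k (fun V A _ _ _ _ D r h1 h2 =>
    main_aux a k hk (Fintype.card V) V A D r rfl h1 h2) hD hα s t

end MD

end Pool.Agent.Work.MP_38b5f0_co
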