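import Pool.Agent.Work.MP_38b5f0_co.Hub
import Pool.Agent.Work.MP_38b5f0_co.Final

set_option autoImplicit false
set_option linter.unusedSectionVars false

namespace Pool.Agent.Work.MP_38b5f0_co

namespace MD

/-- every 3-arc-strong multigraph with independence number at most 2: disjoint arc sets, one
reaching everything from `s` and one reaching `t` from everything -/
theorem hub_main {V A : Type*} [Fintype V] [DecidableEq V] [Fintype A] [DecidableEq A]
    (D : MD V A) (hKS : D.KS Finset.univ 3)
    (hα : ∀ S : Finset V, D.Indep S → S.card ≤ 2) (s t : V) :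
    ∃ F' G' : Finset A, Disjoint F' G' ∧ (∀ x, D.Reach (F' : Set A) s x) ∧
      ∀ x, D.Reach (G' : Set A) x t := by
  classical
  by_cases hsub : ∀ x : V, x = s
  · refine ⟨∅, ∅, Finset.disjoint_empty_left _, fun x => ?_, fun x => ?_⟩
    · rw [hsub x]; exact Reach.refl s
    · rw [hsub x, hsub t]; exact Reach.refl s
  push Not at hsub
  obtain ⟨y, hy⟩ := hsub
  -- an arc
  obtain ⟨c0⟩ : Nonempty A := by
    have h1 := hKS {s} (Finset.singleton_nonempty s) (by
      intro h
      have : y ∈ ({s} : Finset V) := by rw [h]; exact Finset.mem_univ y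
      exact hy (Finset.mem_singleton.1 this))
    unfold outd at h1
    obtain ⟨a, -⟩ := Finset.card_pos.1 (by omega : 0 < (Finset.univ.filter fun e =>
      D.src e ∈ ({s} : Finset V) ∧ D.tgt e ∉ ({s} : Finset V)).card)
    exact ⟨a⟩
  -- the path `P`
  obtain ⟨P, -, hP2, hP3, hP4⟩ := D.rev.hub_grow_path ∅ (Finset.univ.erase t) t s (by simp)
    (by
      intro Y hY hYU
      rw [ind_rev]
      refine hKS Y hY ?_
      rintro rfl
      exact (Finset.mem_erase.1 (hYU (Finset.mem_univ t))).1 rfl)
    (by
      intro W htW hsW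
      have h1 : 3 ≤ D.ind Finset.univ W := hKS.ind ⟨t, htW⟩ (by
        rintro rfl
        exact hsW (Finset.mem_univ s))
      rw [← outd_rev] at h1
      obtain ⟨a, -, -, ha2, ha3⟩ := D.rev.hub_exists_outd
        (show 2 ≤ D.rev.outd Finset.univ W by omega) c0
      exact ⟨a, Finset.notMem_empty a, ha2, ha3⟩)
  have hPt : D.Reach (P : Set A) s t := reach_rev.1 hP2
  have hPs : ∀ a ∈ P, D.Reach (P : Set A) s (D.src a) := fun a ha => reach_rev.1 (hP3 a ha)
  have hPc : ∀ X : Finset V, X.Nonempty → t ∉ X → 2 ≤ D.outd Pᶜ X := by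
    intro X hX htX
    rw [← ind_rev]
    refine hP4 X hX fun x hx => ?_
    rw [Finset.mem_erase]
    refine ⟨?_, Finset.mem_univ x⟩
    rintro rfl
    exact htX hx
  clear hP2 hP3 hP4
  -- the set `T1`
  let T1 : Finset A := P ∪ Finset.univ.filter fun a => D.src a = t
  have hT1 : ∀ a, a ∈ T1 ↔ a ∈ P ∨ D.src a = t := fun a => by simp [T1]
  clear_value T1
  have hPT1 : (P : Set A) ⊆ (T1 : Set A) := fun a ha => by
    rw [Finset.mem_coe] at ha ⊢
    exact (hT1 a).2 (Or.inl ha)
  have hT1t : D.Reach (T1 : Set A) s t := hPt.mono hPT1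
  have hT1s : ∀ a ∈ T1, D.Reach (T1 : Set A) s (D.src a) := by
    intro a ha
    rcases (hT1 a).1 ha with h1 | h1
    · exact (hPs a h1).mono hPT1
    · rw [h1]; exact hT1t
  -- non-neighbours of `t`
  let K : V → Prop := fun k => k ≠ t ∧ ∀ a, ¬ (D.src a = k ∧ D.tgt a = t) ∧
    ¬ (D.src a = t ∧ D.tgt a = k)
  have hdomK : ∀ h, K h → ∀ x, x ≠ t → x ≠ h →
      ∃ a, (D.src a = x ∧ (D.tgt a = t ∨ D.tgt a = h)) ∨
      (D.tgt a = x ∧ (D.src a = t ∨ D.src a = h)) := by
    intro h hK x hxt hxh
    by_contra hno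
    push Not at hno
    have h1 := hα {x, t, h} (by
      intro e he1 he2
      simp only [Finset.mem_insert, Finset.mem_singleton] at he1 he2
      by_contra hne
      have h2 := hno e
      have h3 := hK.2 e
      have h4 := hK.1
      rcases he1 with he1 | he1 | he1 <;> rcases he2 with he2 | he2 | he2 <;>
        simp_all)
    have h2 : ({x, t, h} : Finset V).card = 3 := by
      rw [Finset.card_eq_three]
      exact ⟨x, t, h, hxt, hxh, Ne.symm hK.1, rfl⟩
    omega
  by_cases hK1 : ∃ h, K h ∧ D.Reach (T1 : Set A) s h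
  · -- a non-neighbour which is already reached
    obtain ⟨h, hK, hr⟩ := hK1
    exact D.hub_core hKS s t h P T1 c0 hPc (hdomK h hK) hT1t hr hT1s
      (fun a ha => (hT1 a).2 (Or.inr ha))
      (fun a ha => ((hT1 a).1 ha).imp_right fun h => Or.inl h)
  by_cases hK2 : ∃ k, K k
  · -- no non-neighbour of `t` is reached
    obtain ⟨k, hk⟩ := hK2
    push Not at hK1
    let E' : Set A := {a | ¬ D.Reach (T1 : Set A) s (D.src a) ∧ ¬ K (D.src a) ∧
      ¬ D.Reach (T1 : Set A) s (D.tgt a)}
    -- strong connectivity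
    have hstrong : D.Reach (Set.univ : Set A) s k := by
      by_contra hcon
      let X : Finset V := Finset.univ.filter fun x => D.Reach (Set.univ : Set A) s x
      have hX : ∀ x, x ∈ X ↔ D.Reach (Set.univ : Set A) s x := fun x => by simp [X]
      have h1 := hKS X ⟨s, (hX s).2 (Reach.refl s)⟩ (by
        intro h
        apply hcon
        rw [← hX, h]
        exact Finset.mem_univ k)
      obtain ⟨a, -, -, ha2, ha3⟩ := D.hub_exists_outd
        (show 2 ≤ D.outd Finset.univ X by omega) c0
      apply ha3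
      rw [hX] at ha2 ⊢
      exact ha2.trans (Reach.single (Set.mem_univ a))
    have hclaim : ∀ v, D.Reach (Set.univ : Set A) v k →
        (∃ c h, K h ∧ D.Reach (T1 : Set A) s (D.src c) ∧
          ¬ D.Reach (T1 : Set A) s (D.tgt c) ∧ D.Reach E' (D.tgt c) h) ∨
        (¬ D.Reach (T1 : Set A) s v ∧ ∃ h, K h ∧ D.Reach E' v h) := by
      intro v hv
      induction hv using Relation.ReflTransGen.head_induction_on with
      | refl => exact Or.inr ⟨hK1 k hk, k, hk, Reach.refl k⟩
      | @head v w h1 _ ih =>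
        obtain ⟨a, -, h2, h3⟩ := h1
        rcases ih with ih | ⟨h4, h, h5, h6⟩
        · exact Or.inl ih
        · by_cases hv : D.Reach (T1 : Set A) s v
          · left
            refine ⟨a, h, h5, ?_, ?_, ?_⟩
            · rw [h2]; exact hv
            · rw [h3]; exact h4
            · rw [h3]; exact h6
          · right
            refine ⟨hv, ?_⟩
            by_cases hKv : K v
            · exact ⟨v, hKv, Reach.refl v⟩
            · refine ⟨h, h5, Relation.ReflTransGen.head ⟨a, ⟨?_, ?_, ?_⟩, h2, h3⟩ h6⟩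
              · rw [h2]; exact hv
              · rw [h2]; exact hKv
              · rw [h3]; exact h4
    rcases hclaim s hstrong with ⟨c, h, hKh, hc1, hc2, hch⟩ | ⟨h1, -⟩
    swap
    · exact absurd (Reach.refl s) h1
    let T0 : Finset A := T1 ∪ Finset.univ.filter fun a => a = c ∨ a ∈ E'
    have hT0 : ∀ a, a ∈ T0 ↔ a ∈ T1 ∨ a = c ∨ a ∈ E' := fun a => by simp [T0]
    clear_value T0
    have hT10 : (T1 : Set A) ⊆ (T0 : Set A) := fun a ha => by
      rw [Finset.mem_coe] at ha ⊢
      exact (hT0 a).2 (Or.inl ha)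
    have hE0 : E' ⊆ (T0 : Set A) := fun a ha => by
      rw [Finset.mem_coe]
      exact (hT0 a).2 (Or.inr (Or.inr ha))
    let T : Finset A := T0.filter fun a => D.Reach (T0 : Set A) s (D.src a)
    have hTm : ∀ a, a ∈ T ↔ a ∈ T0 ∧ D.Reach (T0 : Set A) s (D.src a) := fun a => by simp [T]
    clear_value T
    have hTr : ∀ x, D.Reach (T0 : Set A) s x → D.Reach (T : Set A) s x := by
      intro x hx
      induction hx with
      | refl => exact Reach.refl s
      | tail h1 h2 ih =>
        obtain ⟨a, ha, h4, h5⟩ := h2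
        refine Relation.ReflTransGen.tail ih ⟨a, ?_, h4, h5⟩
        rw [Finset.mem_coe, hTm]
        refine ⟨Finset.mem_coe.1 ha, ?_⟩
        rw [h4]
        exact h1
    have hT0c : D.Reach (T0 : Set A) s (D.tgt c) :=
      (hc1.mono hT10).trans (Reach.single (Finset.mem_coe.2 ((hT0 c).2 (Or.inr (Or.inl rfl)))))
    refine D.hub_core hKS s t h P T c hPc (hdomK h hKh) (hTr t (hT1t.mono hT10))
      (hTr h (hT0c.trans (hch.mono hE0))) (fun a ha => hTr _ ((hTm a).1 ha).2) ?_ ?_
    · intro a ha
      rw [hTm, hT0, hT1]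
      refine ⟨Or.inl (Or.inr ha), ?_⟩
      rw [ha]
      exact hT1t.mono hT10
    · intro a ha
      rcases (hT0 a).1 ((hTm a).1 ha).1 with h1 | h1 | h1
      · rcases (hT1 a).1 h1 with h2 | h2
        · exact Or.inl h2
        · exact Or.inr (Or.inl h2)
      · exact Or.inr (Or.inr (Or.inl h1))
      · right; right; right
        obtain ⟨h2, h3, h4⟩ := h1
        have h5 : D.src a ≠ t := by
          intro h6
          rw [h6] at h2
          exact h2 hT1t
        have h6 : ∃ b, (D.src b = D.src a ∧ D.tgt b = t) ∨ (D.src b = t ∧ D.tgt b = D.src a) := by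
          by_contra hno
          push Not at hno
          apply h3
          refine ⟨h5, fun b => ⟨fun h7 => (hno b).1 h7.1 h7.2, fun h7 => (hno b).2 h7.1 h7.2⟩⟩
        obtain ⟨b, ⟨h7, h8⟩ | ⟨h7, h8⟩⟩ := h6
        · refine ⟨b, h7, h8, fun hb => ?_⟩
          rcases (hT0 b).1 ((hTm b).1 hb).1 with h9 | h9 | h9
          · apply h2
            rw [← h7]
            exact hT1s b h9
          · apply h2
            rw [← h7, h9]
            exact hc1
          · apply h9.2.2
            rw [h8]
            exact hT1t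
        · exfalso
          apply h2
          rw [← h8]
          refine hT1t.trans ?_
          have h9 : D.Reach (T1 : Set A) (D.src b) (D.tgt b) :=
            Reach.single (Finset.mem_coe.2 ((hT1 b).2 (Or.inr h7)))
          rw [h7] at h9
          exact h9
  · -- `t` is adjacent to everything
    push Not at hK2
    refine D.hub_core hKS s t t P T1 c0 hPc ?_ hT1t hT1t hT1s
      (fun a ha => (hT1 a).2 (Or.inr ha))
      (fun a ha => ((hT1 a).1 ha).imp_right fun h => Or.inl h)
    intro x hx _
    have h1 := hK2 x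
    by_contra hno
    push Not at hno
    apply h1
    refine ⟨hx, fun a => ⟨fun h2 => ?_, fun h2 => ?_⟩⟩
    · exact ((hno a).1 h2.1).1 h2.2
    · exact ((hno a).2 h2.2).1 h2.1

end MD

end Pool.Agent.Work.MP_38b5f0_co
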