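import Pool.Agent.Work.MP_38b5f0_co.Cuts

set_option autoImplicit false

namespace Pool.Agent.Work.MP_38b5f0_co

namespace MD

variable {V A : Type*}

/-- there are disjoint arc sets `F`, `G` such that everything is reachable from `r` in `F` and
`r` is reachable from everything in `G` -/
def Good (D : MD V A) (r : V) : Prop :=
  ∃ F G : Set A, Disjoint F G ∧ (∀ x, D.Reach F r x) ∧ (∀ x, D.Reach G x r)

lemma Reach.refl {D : MD V A} {F : Set A} (x : V) : D.Reach F x x := Relation.ReflTransGen.refl

lemma Reach.trans {D : MD V A} {F : Set A} {x y z : V} (h : D.Reach F x y)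
    (h' : D.Reach F y z) : D.Reach F x z := Relation.ReflTransGen.trans h h'

lemma Reach.single {D : MD V A} {F : Set A} {a : A} (h : a ∈ F) :
    D.Reach F (D.src a) (D.tgt a) := Relation.ReflTransGen.single ⟨a, h, rfl, rfl⟩

lemma Reach.mono {D : MD V A} {F G : Set A} (h : F ⊆ G) {x y : V} (hr : D.Reach F x y) :
    D.Reach G x y := by
  induction hr with
  | refl => exact Reach.refl x
  | tail _ h2 ih =>
    obtain ⟨a, ha, h3, h4⟩ := h2
    exact Relation.ReflTransGen.tail ih ⟨a, h ha, h3, h4⟩

lemma step_rev {D : MD V A} {F : Set A} {x y : V} : D.rev.Step F x y ↔ D.Step F y x := by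
  constructor
  · rintro ⟨a, ha, h1, h2⟩; exact ⟨a, ha, h2, h1⟩
  · rintro ⟨a, ha, h1, h2⟩; exact ⟨a, ha, h2, h1⟩

lemma reach_rev {D : MD V A} {F : Set A} {x y : V} : D.rev.Reach F x y ↔ D.Reach F y x := by
  constructor
  · intro h
    induction h with
    | refl => exact Relation.ReflTransGen.refl
    | tail _ h2 ih => exact Relation.ReflTransGen.head (step_rev.1 h2) ih
  · intro h
    induction h with
    | refl => exact Relation.ReflTransGen.refl
    | tail _ h2 ih => exact Relation.ReflTransGen.head (step_rev.2 h2) ih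

lemma good_rev {D : MD V A} {r : V} : D.rev.Good r ↔ D.Good r := by
  constructor
  · rintro ⟨F, G, h, h1, h2⟩
    exact ⟨G, F, h.symm, fun x => reach_rev.1 (h2 x), fun x => reach_rev.1 (h1 x)⟩
  · rintro ⟨F, G, h, h1, h2⟩
    exact ⟨G, F, h.symm, fun x => reach_rev.2 (h2 x), fun x => reach_rev.2 (h1 x)⟩

lemma indep_rev {D : MD V A} {S : Finset V} : D.rev.Indep S ↔ D.Indep S := by
  constructor
  · intro h a h1 h2; exact (h a h2 h1).symm
  · intro h a h1 h2; exact (h a h2 h1).symm

/-- if `v` reaches `r`, it does so without using arcs into `v` -/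
lemma reach_avoid {D : MD V A} {G : Set A} {v r : V} (h : D.Reach G v r) :
    D.Reach {a ∈ G | D.tgt a ≠ v} v r := by
  -- take the last visit of v
  have key : ∀ x, D.Reach G x r → D.Reach {a ∈ G | D.tgt a ≠ v} x r ∨
      D.Reach {a ∈ G | D.tgt a ≠ v} v r := by
    intro x hx
    induction hx using Relation.ReflTransGen.head_induction_on with
    | refl => exact Or.inl Relation.ReflTransGen.refl
    | head h1 _ ih =>
      obtain ⟨a, ha, rfl, rfl⟩ := h1
      rcases ih with ih | ih
      · by_cases hv : D.tgt a = v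
        · right; rw [← hv]; rw [← hv] at ih; exact ih
        · left
          exact Relation.ReflTransGen.head ⟨a, ⟨ha, hv⟩, rfl, rfl⟩ ih
      · exact Or.inr ih
  rcases key v h with h | h <;> exact h

/-- removing an arc whose source still reaches `r` -/
lemma reach_del {D : MD V A} {G : Set A} {e : A} {x r : V} (h : D.Reach G x r)
    (he : D.Reach (G \ {e}) (D.src e) r) : D.Reach (G \ {e}) x r := by
  induction h using Relation.ReflTransGen.head_induction_on with
  | refl => exact Reach.refl _
  | head h1 _ ih =>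
    obtain ⟨a, ha, rfl, rfl⟩ := h1
    by_cases hae : a = e
    · rw [hae]; exact he
    · exact Reach.trans (Reach.single ⟨ha, hae⟩) ih

/-- number of steps -/
lemma reach_steps {D : MD V A} {F : Set A} {r x : V} (h : D.Reach F r x) :
    ∃ n : ℕ, ∃ f : ℕ → V, f 0 = r ∧ f n = x ∧ ∀ i < n, D.Step F (f i) (f (i + 1)) := by
  induction h with
  | refl => exact ⟨0, fun _ => r, rfl, rfl, by simp⟩
  | @tail y z _ h2 ih =>
    obtain ⟨n, f, h0, hn, hf⟩ := ih
    refine ⟨n + 1, fun i => if i ≤ n then f i else z, by simp [h0], by simp, fun i hi => ?_⟩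
    rcases Nat.lt_or_ge i n with h | h
    · simp only [h.le, if_true, Nat.succ_le_of_lt h]
      exact hf i h
    · have : i = n := by omega
      subst this
      simp only [le_refl, if_true, Nat.not_succ_le_self, if_false]
      rw [hn]
      exact h2

/-- breadth-first tree: if `F` reaches everything except `v` from `r`, there are a
distance function and a set `B ⊆ F` of parent arcs. -/
lemma bfs (D : MD V A) (F : Set A) (r v : V) (hF : ∀ x, x ≠ v → D.Reach F r x)
    (hFv : ¬ D.Reach F r v) :
    ∃ (d : V → ℕ) (B : Set A), B ⊆ F ∧ (∀ e ∈ B, D.tgt e ≠ v ∧ d (D.src e) + 1 = d (D.tgt e)) ∧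
      ∀ x, x ≠ v → D.Reach B r x := by
  classical
  let P : ℕ → V → Prop := fun n x => ∃ f : ℕ → V, f 0 = r ∧ f n = x ∧
    ∀ i < n, D.Step F (f i) (f (i + 1))
  have hP : ∀ x, x ≠ v → ∃ n, P n x := fun x hx => reach_steps (hF x hx)
  have hPreach : ∀ n x, P n x → D.Reach F r x := by
    intro n
    induction n with
    | zero => rintro x ⟨f, h0, hn, _⟩; rw [← hn, h0]; exact Relation.ReflTransGen.refl
    | succ n ih =>
      rintro x ⟨f, h0, hn, hf⟩
      have h1 := ih (f n) ⟨f, h0, rfl, fun i hi => hf i (by omega)⟩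
      have h2 := hf n (Nat.lt_succ_self n)
      rw [hn] at h2
      exact Relation.ReflTransGen.tail h1 h2
  let d : V → ℕ := fun x => if h : ∃ n, P n x then Nat.find h else 0
  have hd : ∀ x, x ≠ v → P (d x) x := by
    intro x hx
    simp only [d]
    rw [dif_pos (hP x hx)]
    exact Nat.find_spec (hP x hx)
  have hdmin : ∀ x n, P n x → d x ≤ n := by
    intro x n hn
    simp only [d]
    rw [dif_pos ⟨n, hn⟩]
    exact Nat.find_min' _ hn
  -- parents
  have hpar : ∀ x, x ≠ v → x ≠ r →
      ∃ e ∈ F, D.tgt e = x ∧ d (D.src e) + 1 = d x ∧ D.src e ≠ v := by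
    intro x hxv hxr
    obtain ⟨f, h0, hn, hf⟩ := hd x hxv
    have hpos : d x ≠ 0 := by
      intro h
      rw [h, h0] at hn
      exact hxr hn.symm
    obtain ⟨m, hm⟩ := Nat.exists_eq_succ_of_ne_zero hpos
    rw [hm] at hn hf
    obtain ⟨e, heF, he1, he2⟩ := hf m (Nat.lt_succ_self m)
    have hsrc : D.src e ≠ v := by
      intro h
      apply hFv
      rw [← h]
      exact hPreach m _ ⟨f, h0, he1.symm, fun i hi => hf i (by omega)⟩
    refine ⟨e, heF, by rw [he2]; exact hn, ?_, hsrc⟩
    have h1 : d (D.src e) ≤ m := hdmin _ _ ⟨f, h0, he1.symm, fun i hi => hf i (by omega)⟩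
    obtain ⟨f', h0', hn', hf'⟩ := hd _ hsrc
    have h2 : d x ≤ d (D.src e) + 1 := by
      apply hdmin
      refine ⟨fun i => if i ≤ d (D.src e) then f' i else x, by simp [h0'], by simp,
        fun i hi => ?_⟩
      rcases Nat.lt_or_ge i (d (D.src e)) with h | h
      · simp only [h.le, if_true, Nat.succ_le_of_lt h]
        exact hf' i h
      · have hi' : i = d (D.src e) := by omega
        rw [hi']
        simp only [le_refl, if_true, Nat.not_succ_le_self, if_false]
        rw [hn']
        exact ⟨e, heF, rfl, by rw [he2]; exact hn⟩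
    omega
  let B : Set A := {e | e ∈ F ∧ D.tgt e ≠ v ∧ D.tgt e ≠ r ∧ d (D.src e) + 1 = d (D.tgt e)}
  refine ⟨d, B, fun e he => he.1, fun e he => ⟨he.2.1, he.2.2.2⟩, ?_⟩
  have hBreach : ∀ n x, x ≠ v → d x = n → D.Reach B r x := by
    intro n
    induction n using Nat.strong_induction_on with
    | _ n ih =>
      intro x hxv hdx
      by_cases hxr : x = r
      · rw [hxr]; exact Relation.ReflTransGen.refl
      · obtain ⟨e, heF, het, hed, hes⟩ := hpar x hxv hxr
        have h1 := ih (d (D.src e)) (by omega) _ hes rfl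
        have h2 : D.Step B (D.src e) x := by
          refine ⟨e, ⟨heF, ?_, ?_, ?_⟩, rfl, het⟩
          · rw [het]; exact hxv
          · rw [het]; exact hxr
          · rw [het]; exact hed
        exact Relation.ReflTransGen.tail h1 h2
  exact fun x hx => hBreach (d x) x hx rfl

end MD

open MD

/-- The obstruction lemma. -/
theorem obstruction {V A : Type*} [Fintype V] [DecidableEq V] (D : MD V A) (r v : V)
    (a : ℕ) (hα : ∀ S : Finset V, r ∉ S → D.Indep S → S.card ≤ a)
    (I : Finset A) (hI : ∀ e ∈ I, D.tgt e = v ∧ D.src e ≠ v) (hIc : 2 * a + 1 ≤ I.card)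
    (F G : Set A) (hFG : Disjoint F G) (hF : ∀ x, x ≠ v → D.Reach F r x)
    (hG : ∀ x, D.Reach G x r) : D.Good r := by
  classical
  by_cases hFv : D.Reach F r v
  · refine ⟨F, G, hFG, fun x => ?_, hG⟩
    by_cases hx : x = v
    · rw [hx]; exact hFv
    · exact hF x hx
  obtain ⟨d, B, hBF, hB, hBr⟩ := D.bfs F r v hF hFv
  have hG1 : ∀ x, D.Reach Bᶜ x r := fun x => (hG x).mono fun e he h =>
    Set.disjoint_left.1 hFG (hBF h) he
  by_contra hcon
  -- the critical property of in-arcs of v
  have hstar : ∀ e ∈ I, ¬ D.Reach (Bᶜ \ {e}) (D.src e) r := by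
    intro e he h
    apply hcon
    refine ⟨B ∪ {e}, Bᶜ \ {e}, ?_, ?_, fun x => reach_del (hG1 x) h⟩
    · rw [Set.disjoint_left]
      rintro x (hx | hx) ⟨h1, h2⟩
      · exact h1 hx
      · exact h2 hx
    · intro x
      by_cases hx : x = v
      · have h1 : D.Reach (B ∪ {e}) r (D.src e) :=
          (hBr _ (hI e he).2).mono Set.subset_union_left
        have h2 : D.Reach (B ∪ {e}) (D.src e) (D.tgt e) := Reach.single (Or.inr rfl)
        rw [(hI e he).1] at h2
        rw [hx]
        exact h1.trans h2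
      · exact (hBr x hx).mono Set.subset_union_left
  have hIB : ∀ e ∈ I, e ∈ Bᶜ := fun e he h => (hB e h).1 (hI e he).1
  -- v reaches r avoiding all in-arcs of v
  have hv : ∀ e ∈ I, D.Reach (Bᶜ \ {e}) v r := by
    intro e he
    refine (reach_avoid (hG1 v)).mono ?_
    rintro x ⟨h1, h2⟩
    refine ⟨h1, ?_⟩
    rintro rfl
    exact h2 (hI _ he).1
  have hvia : ∀ e ∈ I, ∀ e' ∈ I, e ≠ e' → D.Reach (Bᶜ \ {e}) (D.src e') r := by
    intro e he e' he' hne
    have h1 : D.Reach (Bᶜ \ {e}) (D.src e') (D.tgt e') := Reach.single ⟨hIB e' he', Ne.symm hne⟩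
    rw [(hI e' he').1] at h1
    exact h1.trans (hv e he)
  have hinj : Set.InjOn D.src I := by
    intro e he e' he' h
    by_contra hne
    apply hstar e he
    rw [h]
    exact hvia e he e' he' hne
  have hr : ∀ e ∈ I, D.src e ≠ r := by
    intro e he h
    apply hstar e he
    rw [h]
    exact Reach.refl r
  have harc : ∀ g, ∀ e ∈ I, ∀ e' ∈ I, D.src g = D.src e → D.tgt g = D.src e' →
      D.src g ≠ D.tgt g → g ∈ B := by
    intro g e he e' he' h1 h2 h3
    by_contra hg
    apply hstar e he
    have hne : e ≠ e' := by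
      rintro rfl
      exact h3 (h1.trans h2.symm)
    have hge : g ≠ e := by
      rintro rfl
      rw [(hI g he).1] at h2
      exact (hI e' he').2 h2.symm
    have h4 : D.Reach (Bᶜ \ {e}) (D.src g) (D.tgt g) := Reach.single ⟨hg, hge⟩
    rw [h1, h2] at h4
    exact h4.trans (hvia e he e' he' hne)
  -- parity classes
  have hindep : ∀ c : ℕ, ((I.image D.src).filter fun x => d x % 2 = c).card ≤ a := by
    intro c
    apply hα
    · intro h
      rw [Finset.mem_filter, Finset.mem_image] at h
      obtain ⟨⟨e, he, h1⟩, -⟩ := h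
      exact hr e he h1
    · intro g h1 h2
      by_contra hne
      rw [Finset.mem_filter, Finset.mem_image] at h1 h2
      obtain ⟨⟨e, he, h3⟩, h4⟩ := h1
      obtain ⟨⟨e', he', h5⟩, h6⟩ := h2
      have h7 := hB g (harc g e he e' he' h3.symm h5.symm hne)
      omega
  have h0 := hindep 0
  have h1 := hindep 1
  have hcard : (I.image D.src).card = I.card := Finset.card_image_of_injOn hinj
  have hsplit : (I.image D.src).card = ((I.image D.src).filter fun x => d x % 2 = 0).card +
      ((I.image D.src).filter fun x => d x % 2 = 1).card := by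
    rw [← Finset.card_filter_add_card_filter_not (s := I.image D.src) (fun x => d x % 2 = 0)]
    congr 2
    ext x
    simp only [Finset.mem_filter]
    constructor
    · rintro ⟨h, h'⟩; exact ⟨h, by omega⟩
    · rintro ⟨h, h'⟩; exact ⟨h, by omega⟩
  omega

end Pool.Agent.Work.MP_38b5f0_co
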