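import Pool.Agent.Work.MP_38b5f0_co.Defs

set_option autoImplicit false
set_option linter.unusedSectionVars false

namespace Pool.Agent.Work.MP_38b5f0_co

namespace MD

/-- the reversed multigraph -/
def rev {V A : Type*} (D : MD V A) : MD V A := ⟨D.tgt, D.src⟩

variable {V A : Type*} [Fintype V] [DecidableEq V] [DecidableEq A]

/-- number of arcs of `E` leaving `X` -/
def outd (D : MD V A) (E : Finset A) (X : Finset V) : ℕ :=
  (E.filter fun e => D.src e ∈ X ∧ D.tgt e ∉ X).card

/-- number of arcs of `E` entering `X` -/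
def ind (D : MD V A) (E : Finset A) (X : Finset V) : ℕ :=
  (E.filter fun e => D.src e ∉ X ∧ D.tgt e ∈ X).card

/-- `k`-arc-strong -/
def KS (D : MD V A) (E : Finset A) (k : ℕ) : Prop :=
  ∀ X : Finset V, X.Nonempty → X ≠ Finset.univ → k ≤ D.outd E X

/-- every non-loop arc lies in a tight cut -/
def Crit (D : MD V A) (E : Finset A) (k : ℕ) : Prop :=
  ∀ e ∈ E, D.src e ≠ D.tgt e → ∃ X : Finset V, D.src e ∈ X ∧ D.tgt e ∉ X ∧ D.outd E X = k

lemma outd_sum (D : MD V A) (E : Finset A) (X : Finset V) :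
    D.outd E X = ∑ e ∈ E, if D.src e ∈ X ∧ D.tgt e ∉ X then 1 else 0 := by
  rw [outd, Finset.card_filter]

lemma ind_sum (D : MD V A) (E : Finset A) (X : Finset V) :
    D.ind E X = ∑ e ∈ E, if D.src e ∉ X ∧ D.tgt e ∈ X then 1 else 0 := by
  rw [ind, Finset.card_filter]

lemma outd_rev (D : MD V A) (E : Finset A) (X : Finset V) : D.rev.outd E X = D.ind E X := by
  simp only [outd, ind, rev]
  congr 1
  ext e
  simp [and_comm]

lemma ind_rev (D : MD V A) (E : Finset A) (X : Finset V) : D.rev.ind E X = D.outd E X := by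
  simp only [outd, ind, rev]
  congr 1
  ext e
  simp [and_comm]

lemma outd_compl (D : MD V A) (E : Finset A) (X : Finset V) : D.outd E Xᶜ = D.ind E X := by
  simp only [outd, ind]
  congr 1
  ext e
  simp

lemma ind_compl (D : MD V A) (E : Finset A) (X : Finset V) : D.ind E Xᶜ = D.outd E X := by
  simp only [outd, ind]
  congr 1
  ext e
  simp

lemma KS.ind {D : MD V A} {E : Finset A} {k : ℕ} (h : D.KS E k) {X : Finset V}
    (h1 : X.Nonempty) (h2 : X ≠ Finset.univ) : k ≤ D.ind E X := by
  rw [← outd_compl]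
  refine h _ ?_ ?_
  · rw [Finset.nonempty_iff_ne_empty, ne_eq, Finset.compl_eq_empty_iff]; exact h2
  · rw [ne_eq, Finset.compl_eq_univ_iff]; exact h1.ne_empty

lemma KS.rev {D : MD V A} {E : Finset A} {k : ℕ} (h : D.KS E k) : D.rev.KS E k := by
  intro X h1 h2
  rw [outd_rev]
  exact h.ind h1 h2

lemma Crit.rev {D : MD V A} {E : Finset A} {k : ℕ} (h : D.Crit E k) : D.rev.Crit E k := by
  intro e he hne
  obtain ⟨X, h1, h2, h3⟩ := h e he (fun h => hne h.symm)
  refine ⟨Xᶜ, ?_, ?_, ?_⟩
  · simpa [MD.rev] using h2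
  · simpa [MD.rev] using h1
  · rw [outd_rev, ind_compl, h3]

/-- submodularity with both error terms -/
lemma submod (D : MD V A) (E : Finset A) (X Z : Finset V) :
    D.outd E X + D.outd E Z = D.outd E (X ∩ Z) + D.outd E (X ∪ Z) +
      (E.filter fun e => (D.src e ∈ X \ Z ∧ D.tgt e ∈ Z \ X) ∨
        (D.src e ∈ Z \ X ∧ D.tgt e ∈ X \ Z)).card := by
  simp only [outd, Finset.card_filter, ← Finset.sum_add_distrib]
  refine Finset.sum_congr rfl fun e _ => ?_
  by_cases h1 : D.src e ∈ X <;> by_cases h2 : D.src e ∈ Z <;> by_cases h3 : D.tgt e ∈ X <;>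
    by_cases h4 : D.tgt e ∈ Z <;> simp [h1, h2, h3, h4]

/-- mixed version: `X` by out-degree, `Z` by in-degree -/
lemma submod' (D : MD V A) (E : Finset A) (X Z : Finset V) :
    D.outd E X + D.ind E Z = D.outd E (X \ Z) + D.ind E (Z \ X) +
      (E.filter fun e => (D.src e ∈ X ∩ Z ∧ D.tgt e ∉ X ∪ Z) ∨
        (D.src e ∉ X ∪ Z ∧ D.tgt e ∈ X ∩ Z)).card := by
  simp only [outd, ind, Finset.card_filter, ← Finset.sum_add_distrib]
  refine Finset.sum_congr rfl fun e _ => ?_
  by_cases h1 : D.src e ∈ X <;> by_cases h2 : D.src e ∈ Z <;> by_cases h3 : D.tgt e ∈ X <;>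
    by_cases h4 : D.tgt e ∈ Z <;> simp [h1, h2, h3, h4]

lemma sum_outd (D : MD V A) (E : Finset A) (Y : Finset V) :
    ∑ y ∈ Y, D.outd E {y} = (E.filter fun e => D.src e ∈ Y ∧ D.src e ≠ D.tgt e).card := by
  simp only [outd, Finset.card_filter]
  rw [Finset.sum_comm]
  refine Finset.sum_congr rfl fun e _ => ?_
  by_cases h : D.src e ∈ Y ∧ D.src e ≠ D.tgt e
  · rw [if_pos h, Finset.sum_eq_single (D.src e)]
    · simp [Ne.symm h.2]
    · intro b _ hb
      simp [Ne.symm hb]
    · intro h'
      exact absurd h.1 h'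
  · rw [if_neg h]
    refine Finset.sum_eq_zero fun y hy => ?_
    rw [if_neg]
    rintro ⟨h1, h2⟩
    simp only [Finset.mem_singleton] at h1 h2
    subst h1
    exact h ⟨hy, fun h' => h2 h'.symm⟩

lemma sum_ind (D : MD V A) (E : Finset A) (Y : Finset V) :
    ∑ y ∈ Y, D.ind E {y} = (E.filter fun e => D.tgt e ∈ Y ∧ D.src e ≠ D.tgt e).card := by
  have h := sum_outd D.rev E Y
  simp only [outd_rev] at h
  rw [h]
  congr 1
  ext e
  simp [MD.rev, ne_comm]

lemma outd_split (D : MD V A) (E : Finset A) (Y : Finset V) :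
    (E.filter fun e => D.src e ∈ Y ∧ D.src e ≠ D.tgt e).card =
      (E.filter fun e => D.src e ∈ Y ∧ D.tgt e ∈ Y ∧ D.src e ≠ D.tgt e).card + D.outd E Y := by
  simp only [outd, Finset.card_filter, ← Finset.sum_add_distrib]
  refine Finset.sum_congr rfl fun e _ => ?_
  by_cases h1 : D.src e ∈ Y <;> by_cases h2 : D.tgt e ∈ Y <;>
    by_cases h3 : D.src e = D.tgt e <;> simp_all

lemma ind_split (D : MD V A) (E : Finset A) (Y : Finset V) :
    (E.filter fun e => D.tgt e ∈ Y ∧ D.src e ≠ D.tgt e).card =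
      (E.filter fun e => D.src e ∈ Y ∧ D.tgt e ∈ Y ∧ D.src e ≠ D.tgt e).card + D.ind E Y := by
  simp only [ind, Finset.card_filter, ← Finset.sum_add_distrib]
  refine Finset.sum_congr rfl fun e _ => ?_
  by_cases h1 : D.src e ∈ Y <;> by_cases h2 : D.tgt e ∈ Y <;>
    by_cases h3 : D.src e = D.tgt e <;> simp_all

/-- counting inside an out-tight set -/
lemma count_aux (D : MD V A) (E : Finset A) (k : ℕ) (hKS : D.KS E k) (Y : Finset V)
    (hYne : Y.Nonempty) (hYu : Y ≠ Finset.univ) (hYt : D.outd E Y = k)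
    (hin : ∀ e ∈ E, D.src e ∈ Y → D.tgt e ∈ Y → D.src e ≠ D.tgt e →
      D.outd E {D.src e} = k ∨ D.ind E {D.tgt e} = k)
    (hno : ∀ y ∈ Y, ¬ (D.outd E {y} = k ∧ D.ind E {y} = k)) :
    k + Y.card ≤ D.ind E Y ∧ ∀ y ∈ Y, D.ind E {y} ≠ k := by
  classical
  have hsing : ∀ y ∈ Y, ({y} : Finset V) ≠ Finset.univ := by
    intro y hy h
    apply hYu
    rw [Finset.eq_univ_iff_forall]
    intro x
    have : x ∈ ({y} : Finset V) := by rw [h]; exact Finset.mem_univ x
    rw [Finset.mem_singleton] at this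
    rw [this]; exact hy
  have hout : ∀ y ∈ Y, k ≤ D.outd E {y} := fun y hy =>
    hKS _ (Finset.singleton_nonempty y) (hsing y hy)
  have hinn : ∀ y ∈ Y, k ≤ D.ind E {y} := fun y hy =>
    hKS.ind (Finset.singleton_nonempty y) (hsing y hy)
  set a := Y.filter fun y => D.outd E {y} = k with ha
  set b := Y.filter fun y => D.ind E {y} = k with hb
  set N := (E.filter fun e => D.src e ∈ Y ∧ D.tgt e ∈ Y ∧ D.src e ≠ D.tgt e).card with hN
  have hab : Disjoint a b := by
    rw [Finset.disjoint_left]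
    intro y hy hy'
    rw [ha, Finset.mem_filter] at hy
    rw [hb, Finset.mem_filter] at hy'
    exact hno y hy.1 ⟨hy.2, hy'.2⟩
  have hsa : ∑ y ∈ a, D.outd E {y} = k * a.card := by
    rw [Finset.sum_congr rfl (fun y hy => (Finset.mem_filter.1 hy).2), Finset.sum_const,
      smul_eq_mul, mul_comm]
  have hsb : ∑ y ∈ b, D.ind E {y} = k * b.card := by
    rw [Finset.sum_congr rfl (fun y hy => (Finset.mem_filter.1 hy).2), Finset.sum_const,
      smul_eq_mul, mul_comm]
  -- the key pointwise inequality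
  have h1 : N + (E.filter fun e => D.src e ∉ Y ∧ D.tgt e ∈ b).card +
      (E.filter fun e => D.src e ∈ a ∧ D.tgt e ∈ b).card ≤ k * a.card + k * b.card := by
    rw [← hsa, ← hsb, sum_outd, sum_ind, hN]
    simp only [Finset.card_filter, ← Finset.sum_add_distrib]
    refine Finset.sum_le_sum fun e he => ?_
    have hA : D.src e ∈ a → D.src e ∈ Y := fun h => (Finset.mem_filter.1 h).1
    have hB : D.tgt e ∈ b → D.tgt e ∈ Y := fun h => (Finset.mem_filter.1 h).1
    have hAB : D.src e ∈ a → D.tgt e ∈ b → D.src e ≠ D.tgt e := by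
      intro h h' h''
      rw [h''] at h
      exact Finset.disjoint_left.1 hab h h'
    have hC : D.src e ∈ Y → D.tgt e ∈ Y → D.src e ≠ D.tgt e → D.src e ∈ a ∨ D.tgt e ∈ b := by
      intro h h' h''
      rcases hin e he h h' h'' with h3 | h3
      · left; rw [ha, Finset.mem_filter]; exact ⟨h, h3⟩
      · right; rw [hb, Finset.mem_filter]; exact ⟨h', h3⟩
    have hD : D.tgt e ∈ b → D.src e ∉ Y → D.src e ≠ D.tgt e := by
      intro h h' h''
      exact h' (h'' ▸ hB h)
    clear_value a b N
    clear * - hA hB hAB hC hD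
    by_cases q5 : D.src e = D.tgt e
    · rw [q5] at hA hAB hC hD ⊢
      by_cases q1 : D.tgt e ∈ a <;> by_cases q2 : D.tgt e ∈ b <;> by_cases q3 : D.tgt e ∈ Y <;>
        first | (simp [q1, q2, q3]; done) | (exfalso; tauto)
    · by_cases q1 : D.src e ∈ a <;> by_cases q2 : D.tgt e ∈ b <;> by_cases q3 : D.src e ∈ Y <;>
        by_cases q4 : D.tgt e ∈ Y <;>
        first | (simp [q1, q2, q3, q4, q5]; done) | (exfalso; tauto)
  have h2 : k * Y.card + (Y \ a).card ≤ N + k := by
    have h3 : ∑ y ∈ Y, D.outd E {y} = N + k := by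
      rw [sum_outd, outd_split, hYt]
    rw [← h3]
    have h4 : ∑ y ∈ Y, (k + if y ∈ Y \ a then 1 else 0) ≤ ∑ y ∈ Y, D.outd E {y} := by
      refine Finset.sum_le_sum fun y hy => ?_
      split_ifs with h
      · have h5 := hout y hy
        have h6 : D.outd E {y} ≠ k := by
          intro h7
          rw [Finset.mem_sdiff] at h
          exact h.2 (by rw [ha, Finset.mem_filter]; exact ⟨hy, h7⟩)
        omega
      · have h5 := hout y hy
        omega
    refine le_trans (le_of_eq ?_) h4
    rw [Finset.sum_add_distrib, Finset.sum_const, smul_eq_mul, mul_comm, ← Finset.card_filter]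
    congr 2
    ext y
    simp only [Finset.mem_sdiff, Finset.mem_filter]
    tauto
  have hunion : (a ∪ b).card = a.card + b.card := Finset.card_union_of_disjoint hab
  have hsub : a ∪ b ⊆ Y := by
    intro y hy
    rw [Finset.mem_union] at hy
    rcases hy with h | h
    · exact (Finset.mem_filter.1 h).1
    · exact (Finset.mem_filter.1 h).1
  have hYeq : a ∪ b = Y := by
    by_contra hne
    have hlt : (a ∪ b).card < Y.card := Finset.card_lt_card (Finset.ssubset_iff_subset_ne.2 ⟨hsub, hne⟩)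
    obtain ⟨y, hyY, hyab⟩ := Finset.exists_of_ssubset (Finset.ssubset_iff_subset_ne.2 ⟨hsub, hne⟩)
    have hpos : 0 < (Y \ a).card := by
      rw [Finset.card_pos]
      refine ⟨y, ?_⟩
      rw [Finset.mem_sdiff]
      exact ⟨hyY, fun h => hyab (Finset.mem_union_left _ h)⟩
    have h5 : k * a.card + k * b.card + k ≤ k * Y.card := by
      rw [← mul_add, ← hunion, ← Nat.mul_succ]
      exact Nat.mul_le_mul_left _ hlt
    omega
  have hbY : Y \ a = b := by
    ext y
    rw [Finset.mem_sdiff]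
    constructor
    · rintro ⟨h3, h4⟩
      rw [← hYeq, Finset.mem_union] at h3
      rcases h3 with h3 | h3
      · exact absurd h3 h4
      · exact h3
    · intro h
      exact ⟨hsub (Finset.mem_union_right _ h), fun h' => Finset.disjoint_left.1 hab h' h⟩
  have hbe : b = ∅ := by
    by_contra hbne
    have hbne' : b.Nonempty := Finset.nonempty_iff_ne_empty.2 hbne
    have hbu : b ≠ Finset.univ := by
      intro h
      apply hYu
      rw [Finset.eq_univ_iff_forall]
      intro x
      have : x ∈ b := by rw [h]; exact Finset.mem_univ x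
      exact (Finset.mem_filter.1 this).1
    have h3 := hKS.ind hbne' hbu
    have h4 : D.ind E b ≤ (E.filter fun e => D.src e ∉ Y ∧ D.tgt e ∈ b).card +
      (E.filter fun e => D.src e ∈ a ∧ D.tgt e ∈ b).card := by
      simp only [ind, Finset.card_filter, ← Finset.sum_add_distrib]
      refine Finset.sum_le_sum fun e he => ?_
      have hA : D.src e ∈ Y → D.src e ∈ a ∨ D.src e ∈ b := by
        intro h
        rw [← hYeq, Finset.mem_union] at h
        exact h
      clear_value a b N
      clear * - hA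
      by_cases q1 : D.src e ∈ a <;> by_cases q2 : D.tgt e ∈ b <;> by_cases q3 : D.src e ∈ Y <;>
        by_cases q4 : D.src e ∈ b <;> first | (simp [q1, q2, q3, q4]; done) | (exfalso; tauto)
    have h5 : k * a.card + k * b.card = k * Y.card := by
      rw [← mul_add, ← hunion, hYeq]
    rw [hbY] at h2
    have := hbne'.card_pos
    omega
  have haY : a = Y := by
    rw [hbe, Finset.union_empty] at hYeq
    exact hYeq
  have hnotin : ∀ y ∈ Y, D.ind E {y} ≠ k := by
    intro y hy h
    have : y ∈ b := by rw [hb, Finset.mem_filter]; exact ⟨hy, h⟩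
    rw [hbe] at this
    simp at this
  refine ⟨?_, hnotin⟩
  have h3 : ∑ y ∈ Y, D.outd E {y} = N + k := by
    rw [sum_outd, outd_split, hYt]
  rw [haY] at hsa
  have h4 : ∑ y ∈ Y, D.ind E {y} = N + D.ind E Y := by
    rw [sum_ind, ind_split]
  have h5 : (k + 1) * Y.card ≤ ∑ y ∈ Y, D.ind E {y} := by
    rw [mul_comm, ← smul_eq_mul, ← Finset.sum_const]
    refine Finset.sum_le_sum fun y hy => ?_
    have h6 := hinn y hy
    have h7 := hnotin y hy
    omega
  have h6 : (k + 1) * Y.card = k * Y.card + Y.card := by ring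
  omega

end MD

end Pool.Agent.Work.MP_38b5f0_co
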