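import Mathlib

set_option autoImplicit false

namespace Pool.Agent.Work.MP_38b5f0_co

/-- A directed multigraph with vertex type `V` and arc type `A`; the arc `e` goes from `src e` to
`tgt e`. Loops and parallel arcs are allowed. -/
structure MD (V A : Type*) where
  src : A → V
  tgt : A → V

namespace MD

variable {V A : Type*}

/-- `D` is `k`-arc-strong: at least `k` arcs leave every nonempty proper set of vertices. -/
def ArcStrong (D : MD V A) (k : ℕ) : Prop :=
  ∀ X : Set V, X.Nonempty → X ≠ Set.univ → k ≤ {e : A | D.src e ∈ X ∧ D.tgt e ∉ X}.ncard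

/-- No arc joins two distinct members of `S`. -/
def Indep (D : MD V A) (S : Finset V) : Prop :=
  ∀ e, D.src e ∈ S → D.tgt e ∈ S → D.src e = D.tgt e

/-- One step along an arc of `F`. -/
def Step (D : MD V A) (F : Set A) (x y : V) : Prop := ∃ e ∈ F, D.src e = x ∧ D.tgt e = y

/-- There is a directed walk from `x` to `y` along arcs of `F`. -/
def Reach (D : MD V A) (F : Set A) : V → V → Prop := Relation.ReflTransGen (D.Step F)

/-- `B` is (the arc set of) an out-branching rooted at `s`: no arc of `B` enters `s`, exactly one
arc of `B` enters every other vertex, and every vertex is reached from `s` along `B`. -/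
def IsOutBranching (D : MD V A) (s : V) (B : Set A) : Prop :=
  (∀ e ∈ B, D.tgt e ≠ s) ∧ (∀ v, v ≠ s → ∃! e, e ∈ B ∧ D.tgt e = v) ∧ ∀ v, D.Reach B s v

/-- `B` is (the arc set of) an in-branching rooted at `t`: no arc of `B` leaves `t`, exactly one
arc of `B` leaves every other vertex, and `t` is reached from every vertex along `B`. -/
def IsInBranching (D : MD V A) (t : V) (B : Set A) : Prop :=
  (∀ e ∈ B, D.src e ≠ t) ∧ (∀ v, v ≠ t → ∃! e, e ∈ B ∧ D.src e = v) ∧ ∀ v, D.Reach B v t

end MD

end Pool.Agent.Work.MP_38b5f0_co
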