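import Pool.Agent.Work.MP_38b5f0_co.Basic

set_option autoImplicit false

namespace Pool.Agent.Work.MP_38b5f0_co

namespace MD

variable {V A : Type*}

/-- `P` is the parent map and `d` the depth of an out-tree rooted at `r` with vertex set `W` -/
def IsSt (D : MD V A) (r : V) (W : Finset V) (P : V → A) (d : V → ℕ) : Prop :=
  r ∈ W ∧ ∀ x ∈ W, x ≠ r → D.tgt (P x) = x ∧ D.src (P x) ∈ W ∧ d (D.src (P x)) + 1 = d x

/-- the arcs of the out-tree entering `W` -/
def BS (r : V) (W : Finset V) (P : V → A) : Set A := {e | ∃ x ∈ W, x ≠ r ∧ P x = e}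

lemma BS_mono {r : V} {W W' : Finset V} {P : V → A} (h : W ⊆ W') : BS r W P ⊆ BS r W' P := by
  rintro e ⟨x, hx, h1, h2⟩
  exact ⟨x, h hx, h1, h2⟩

lemma reach_St {D : MD V A} {r : V} {W : Finset V} {P : V → A} {d : V → ℕ}
    (h : D.IsSt r W P d) : ∀ x ∈ W, D.Reach (BS r W P) r x := by
  have key : ∀ n x, x ∈ W → d x = n → D.Reach (BS r W P) r x := by
    intro n
    induction n using Nat.strong_induction_on with
    | _ n ih =>
      intro x hx hdx
      by_cases hxr : x = r
      · rw [hxr]; exact Reach.refl r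
      · obtain ⟨h1, h2, h3⟩ := h.2 x hx hxr
        have h4 := ih (d (D.src (P x))) (by omega) _ h2 rfl
        have h5 : D.Reach (BS r W P) (D.src (P x)) (D.tgt (P x)) :=
          Reach.single ⟨x, hx, hxr, rfl⟩
        rw [h1] at h5
        exact h4.trans h5
  exact fun x hx => key _ x hx rfl

lemma good_of_full [Fintype V] {D : MD V A} {r : V} {P : V → A} {d : V → ℕ}
    (h : D.IsSt r Finset.univ P d) (hG : ∀ x, D.Reach (BS r Finset.univ P)ᶜ x r) : D.Good r :=
  ⟨BS r Finset.univ P, (BS r Finset.univ P)ᶜ, disjoint_compl_right,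
    fun x => reach_St h x (Finset.mem_univ x), hG⟩

/-- growing greedily -/
lemma grow [Fintype V] [DecidableEq V] (D : MD V A) (r : V) : ∀ (n : ℕ) (W : Finset V)
    (P : V → A) (d : V → ℕ), (Wᶜ).card = n → D.IsSt r W P d →
    (∀ x, D.Reach (BS r W P)ᶜ x r) →
    D.Good r ∨ ∃ (W' : Finset V) (P' : V → A) (d' : V → ℕ), D.IsSt r W' P' d' ∧ W ⊆ W' ∧
      (∀ x ∈ W, P' x = P x) ∧ W' ≠ Finset.univ ∧ (∀ x, D.Reach (BS r W' P')ᶜ x r) ∧
      ∀ e, D.src e ∈ W' → D.tgt e ∉ W' → ¬ D.Reach ((BS r W' P')ᶜ \ {e}) (D.src e) r := by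
  classical
  intro n
  induction n with
  | zero =>
    intro W P d hn hst hG
    left
    have hW : W = Finset.univ := by
      rw [Finset.card_eq_zero, Finset.compl_eq_empty_iff] at hn
      exact hn
    subst hW
    exact good_of_full hst hG
  | succ n ih =>
    intro W P d hn hst hG
    by_cases hcr : ∀ e, D.src e ∈ W → D.tgt e ∉ W → ¬ D.Reach ((BS r W P)ᶜ \ {e}) (D.src e) r
    · right
      refine ⟨W, P, d, hst, Finset.Subset.refl W, fun x _ => rfl, ?_, hG, hcr⟩
      rintro rfl
      simp at hn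
    · push Not at hcr
      obtain ⟨e, he1, he2, he3⟩ := hcr
      set y := D.tgt e with hy
      have hyr : y ≠ r := fun h => he2 (h ▸ hst.1)
      have hPW : ∀ x ∈ W, Function.update P y e x = P x := by
        intro x hx
        rw [Function.update_of_ne]
        rintro rfl
        exact he2 hx
      have hst' : D.IsSt r (insert y W) (Function.update P y e)
          (Function.update d y (d (D.src e) + 1)) := by
        refine ⟨Finset.mem_insert_of_mem hst.1, ?_⟩
        intro x hx hxr
        rcases Finset.mem_insert.1 hx with rfl | hx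
        · rw [Function.update_self, Function.update_self, Function.update_of_ne]
          · exact ⟨rfl, Finset.mem_insert_of_mem he1, rfl⟩
          · intro h
            exact he2 (h ▸ he1)
        · obtain ⟨h1, h2, h3⟩ := hst.2 x hx hxr
          rw [hPW x hx]
          have hne : x ≠ y := fun h => he2 (h ▸ hx)
          have hne' : D.src (P x) ≠ y := fun h => he2 (h ▸ h2)
          rw [Function.update_of_ne hne, Function.update_of_ne hne']
          exact ⟨h1, Finset.mem_insert_of_mem h2, h3⟩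
      have hBS : BS r (insert y W) (Function.update P y e) = BS r W P ∪ {e} := by
        ext g
        constructor
        · rintro ⟨x, hx, hxr, rfl⟩
          rcases Finset.mem_insert.1 hx with rfl | hx
          · right; rw [Function.update_self]; rfl
          · left; exact ⟨x, hx, hxr, (hPW x hx).symm⟩
        · rintro (⟨x, hx, hxr, rfl⟩ | rfl)
          · exact ⟨x, Finset.mem_insert_of_mem hx, hxr, hPW x hx⟩
          · exact ⟨y, Finset.mem_insert_self _ _, hyr, Function.update_self _ _ _⟩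
      have hG' : ∀ x, D.Reach (BS r (insert y W) (Function.update P y e))ᶜ x r := by
        intro x
        rw [hBS]
        refine (reach_del (hG x) he3).mono ?_
        rintro g ⟨h1, h2⟩ (h3 | h3)
        · exact h1 h3
        · exact h2 h3
      have hcard : ((insert y W)ᶜ).card = n := by
        rw [Finset.compl_insert, Finset.card_erase_of_mem (Finset.mem_compl.2 he2), hn]
        rfl
      rcases ih _ _ _ hcard hst' hG' with h | ⟨W', P', d', h1, h2, h3, h4, h5, h6⟩
      · exact Or.inl h
      · right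
        refine ⟨W', P', d', h1, (Finset.subset_insert _ _).trans h2, ?_, h4, h5, h6⟩
        intro x hx
        rw [h3 x (Finset.mem_insert_of_mem hx), hPW x hx]

/-- first arc of `J` on a walk -/
lemma reach_first {D : MD V A} {G : Set A} (J : Set A) {x r : V} (h : D.Reach G x r) :
    D.Reach (G \ J) x r ∨ ∃ e ∈ J, e ∈ G ∧ D.Reach (G \ J) x (D.src e) ∧
      D.Reach G (D.tgt e) r := by
  classical
  induction h using Relation.ReflTransGen.head_induction_on with
  | refl => exact Or.inl (Reach.refl _)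
  | head h1 h2 ih =>
    obtain ⟨a, ha, rfl, rfl⟩ := h1
    by_cases haJ : a ∈ J
    · right
      exact ⟨a, haJ, ha, Reach.refl _, h2⟩
    · have h3 : D.Reach (G \ J) (D.src a) (D.tgt a) := Reach.single ⟨ha, haJ⟩
      rcases ih with ih | ⟨e, he, heG, h4, h5⟩
      · exact Or.inl (h3.trans ih)
      · exact Or.inr ⟨e, he, heG, h3.trans h4, h5⟩

/-- an initial strong component of the induced subdigraph on `H` -/
lemma exists_initial [Fintype V] [DecidableEq V] (D : MD V A) (H : Finset V)
    (hH : H.Nonempty) : ∃ H0 : Finset V, H0.Nonempty ∧ H0 ⊆ H ∧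
      (∀ e, D.src e ∈ H → D.tgt e ∈ H0 → D.src e ∈ H0) ∧
      (∀ x ∈ H0, ∀ y ∈ H0, D.Reach {e | D.src e ∈ H0 ∧ D.tgt e ∈ H0} x y) := by
  classical
  -- ancestors inside H
  let anc : V → Finset V := fun y => H.filter fun x =>
    D.Reach {e | D.src e ∈ H ∧ D.tgt e ∈ H} x y
  obtain ⟨h0, hh0, hmin⟩ := Finset.exists_min_image H (fun y => (anc y).card) hH
  have hmem : ∀ y x, x ∈ anc y ↔ x ∈ H ∧ D.Reach {e | D.src e ∈ H ∧ D.tgt e ∈ H} x y := by
    intro y x
    exact Finset.mem_filter
  have hsub : ∀ y ∈ anc h0, anc y = anc h0 := by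
    intro y hy
    have h1 := (hmem _ _).1 hy
    apply Finset.eq_of_subset_of_card_le
    · intro x hx
      have h2 := (hmem _ _).1 hx
      exact (hmem _ _).2 ⟨h2.1, h2.2.trans h1.2⟩
    · exact hmin y h1.1
  have hclosed : ∀ e, D.src e ∈ H → D.tgt e ∈ anc h0 → D.src e ∈ anc h0 := by
    intro e he1 he2
    have h1 := (hmem _ _).1 he2
    refine (hmem _ _).2 ⟨he1, ?_⟩
    have h2 : D.Reach {e | D.src e ∈ H ∧ D.tgt e ∈ H} (D.src e) (D.tgt e) :=
      Reach.single ⟨he1, h1.1⟩
    exact h2.trans h1.2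
  refine ⟨anc h0, ⟨h0, (hmem _ _).2 ⟨hh0, Reach.refl _⟩⟩, Finset.filter_subset _ _, hclosed, ?_⟩
  intro x hx y hy
  have h1 : x ∈ anc y := by rw [hsub y hy]; exact hx
  have h2 := ((hmem _ _).1 h1).2
  -- a walk in H ending in anc h0 stays in anc h0
  have key : ∀ z, D.Reach {e | D.src e ∈ H ∧ D.tgt e ∈ H} z y →
      D.Reach {e | D.src e ∈ anc h0 ∧ D.tgt e ∈ anc h0} z y ∧ (z ∈ anc h0) := by
    intro z hz
    induction hz using Relation.ReflTransGen.head_induction_on with
    | refl => exact ⟨Reach.refl _, hy⟩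
    | head h3 _ ih =>
      obtain ⟨e, ⟨he1, he2⟩, rfl, rfl⟩ := h3
      have h4 := hclosed e he1 ih.2
      have h5 : D.Reach {e | D.src e ∈ anc h0 ∧ D.tgt e ∈ anc h0} (D.src e) (D.tgt e) :=
        Reach.single ⟨h4, ih.2⟩
      exact ⟨h5.trans ih.1, h4⟩
  exact (key x h2).1

end MD

end Pool.Agent.Work.MP_38b5f0_co
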