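import Pool.Agent.Work.MP_38b5f0_co.Grow

set_option autoImplicit false

namespace Pool.Agent.Work.MP_38b5f0_co

namespace MD

variable {V A : Type*}

/-- `P` is the parent map and `d` a rank function of an out-tree rooted at `r` with vertex set `W`,
and every out-neighbour of `r` in `W` is a child of `r` -/
def IsStN (D : MD V A) (r : V) (W : Finset V) (P : V → A) (d : V → ℕ) : Prop :=
  r ∈ W ∧ ∀ x ∈ W, x ≠ r → D.tgt (P x) = x ∧ D.src (P x) ∈ W ∧ d (D.src (P x)) < d x ∧
    ((∃ e, D.src e = r ∧ D.tgt e = x) → D.src (P x) = r)

lemma reach_StN {D : MD V A} {r : V} {W : Finset V} {P : V → A} {d : V → ℕ}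
    (h : D.IsStN r W P d) : ∀ x ∈ W, D.Reach (BS r W P) r x := by
  have key : ∀ n x, x ∈ W → d x = n → D.Reach (BS r W P) r x := by
    intro n
    induction n using Nat.strong_induction_on with
    | _ n ih =>
      intro x hx hdx
      by_cases hxr : x = r
      · rw [hxr]; exact Reach.refl r
      · obtain ⟨h1, h2, h3, -⟩ := h.2 x hx hxr
        have h4 := ih (d (D.src (P x))) (by omega) _ h2 rfl
        have h5 : D.Reach (BS r W P) (D.src (P x)) (D.tgt (P x)) :=
          Reach.single ⟨x, hx, hxr, rfl⟩
        rw [h1] at h5
        exact h4.trans h5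
  exact fun x hx => key _ x hx rfl

lemma good_of_fullN [Fintype V] {D : MD V A} {r : V} {P : V → A} {d : V → ℕ}
    (h : D.IsStN r Finset.univ P d) (hG : ∀ x, D.Reach (BS r Finset.univ P)ᶜ x r) : D.Good r :=
  ⟨BS r Finset.univ P, (BS r Finset.univ P)ᶜ, disjoint_compl_right,
    fun x => reach_StN h x (Finset.mem_univ x), hG⟩

/-- arcs out of `r` are useless for reaching `r` -/
lemma reach_noout {D : MD V A} {G : Set A} {x r : V} (h : D.Reach G x r) :
    D.Reach {a ∈ G | D.src a ≠ r} x r := by
  induction h using Relation.ReflTransGen.head_induction_on with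
  | refl => exact Reach.refl _
  | head h1 _ ih =>
    obtain ⟨a, ha, rfl, rfl⟩ := h1
    by_cases har : D.src a = r
    · rw [har]; exact Reach.refl r
    · have h2 : D.Reach {a ∈ G | D.src a ≠ r} (D.src a) (D.tgt a) := Reach.single ⟨ha, har⟩
      exact h2.trans ih

/-- growing greedily, out-neighbours of `r` being attached to `r` -/
lemma growN [Fintype V] [DecidableEq V] (D : MD V A) (r : V) : ∀ (n : ℕ) (W : Finset V)
    (P : V → A) (d : V → ℕ), (Wᶜ).card = n → D.IsStN r W P d →
    (∀ x, D.Reach (BS r W P)ᶜ x r) →
    D.Good r ∨ ∃ (W' : Finset V) (P' : V → A) (d' : V → ℕ), D.IsStN r W' P' d' ∧ W ⊆ W' ∧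
      (∀ x ∈ W, P' x = P x) ∧ W' ≠ Finset.univ ∧ (∀ x, D.Reach (BS r W' P')ᶜ x r) ∧
      ∀ e, D.src e ∈ W' → D.tgt e ∉ W' → ¬ D.Reach ((BS r W' P')ᶜ \ {e}) (D.src e) r := by
  classical
  intro n
  induction n with
  | zero =>
    intro W P d hn hst hG
    left
    have hW : W = Finset.univ := by
      rw [Finset.card_eq_zero, Finset.compl_eq_empty_iff] at hn
      exact hn
    subst hW
    exact good_of_fullN hst hG
  | succ n ih =>
    intro W P d hn hst hG
    by_cases hcr : ∀ e, D.src e ∈ W → D.tgt e ∉ W → ¬ D.Reach ((BS r W P)ᶜ \ {e}) (D.src e) r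
    · right
      refine ⟨W, P, d, hst, Finset.Subset.refl W, fun x _ => rfl, ?_, hG, hcr⟩
      rintro rfl
      simp at hn
    · have hcr' : ∃ e, D.src e ∈ W ∧ D.tgt e ∉ W ∧ D.Reach ((BS r W P)ᶜ \ {e}) (D.src e) r ∧
          ((∃ g, D.src g = r ∧ D.tgt g = D.tgt e) → D.src e = r) := by
        push Not at hcr
        obtain ⟨e, he1, he2, he3⟩ := hcr
        by_cases hr : ∃ g, D.src g = r ∧ D.tgt g = D.tgt e
        · obtain ⟨g, hg1, hg2⟩ := hr
          refine ⟨g, ?_, ?_, ?_, fun _ => hg1⟩
          · rw [hg1]; exact hst.1
          · rw [hg2]; exact he2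
          · rw [hg1]; exact Reach.refl r
        · exact ⟨e, he1, he2, he3, fun h => absurd h hr⟩
      obtain ⟨e, he1, he2, he3, he4⟩ := hcr'
      set y := D.tgt e with hy
      have hyr : y ≠ r := fun h => he2 (h ▸ hst.1)
      have hPW : ∀ x ∈ W, Function.update P y e x = P x := by
        intro x hx
        rw [Function.update_of_ne]
        rintro rfl
        exact he2 hx
      have hst' : D.IsStN r (insert y W) (Function.update P y e)
          (Function.update d y (d (D.src e) + 1)) := by
        refine ⟨Finset.mem_insert_of_mem hst.1, ?_⟩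
        intro x hx hxr
        rcases Finset.mem_insert.1 hx with rfl | hx
        · rw [Function.update_self, Function.update_self, Function.update_of_ne]
          · exact ⟨rfl, Finset.mem_insert_of_mem he1, Nat.lt_succ_self _, he4⟩
          · intro h
            exact he2 (h ▸ he1)
        · obtain ⟨h1, h2, h3, h4⟩ := hst.2 x hx hxr
          rw [hPW x hx]
          have hne : x ≠ y := fun h => he2 (h ▸ hx)
          have hne' : D.src (P x) ≠ y := fun h => he2 (h ▸ h2)
          rw [Function.update_of_ne hne, Function.update_of_ne hne']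
          exact ⟨h1, Finset.mem_insert_of_mem h2, h3, h4⟩
      have hBS : BS r (insert y W) (Function.update P y e) = BS r W P ∪ {e} := by
        ext g
        constructor
        · rintro ⟨x, hx, hxr, rfl⟩
          rcases Finset.mem_insert.1 hx with rfl | hx
          · right; rw [Function.update_self]; rfl
          · left; exact ⟨x, hx, hxr, (hPW x hx).symm⟩
        · rintro (⟨x, hx, hxr, rfl⟩ | rfl)
          · exact ⟨x, Finset.mem_insert_of_mem hx, hxr, hPW x hx⟩
          · exact ⟨y, Finset.mem_insert_self _ _, hyr, Function.update_self _ _ _⟩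
      have hG' : ∀ x, D.Reach (BS r (insert y W) (Function.update P y e))ᶜ x r := by
        intro x
        rw [hBS]
        refine (reach_del (hG x) he3).mono ?_
        rintro g ⟨h1, h2⟩ (h3 | h3)
        · exact h1 h3
        · exact h2 h3
      have hcard : ((insert y W)ᶜ).card = n := by
        rw [Finset.compl_insert, Finset.card_erase_of_mem (Finset.mem_compl.2 he2), hn]
        rfl
      rcases ih _ _ _ hcard hst' hG' with h | ⟨W', P', d', h1, h2, h3, h4, h5, h6⟩
      · exact Or.inl h
      · right
        refine ⟨W', P', d', h1, (Finset.subset_insert _ _).trans h2, ?_, h4, h5, h6⟩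
        intro x hx
        rw [h3 x (Finset.mem_insert_of_mem hx), hPW x hx]

/-- In a forest on `R` (given by a parent map `p` and a rank function `d`) there is an independent
set with more than half of the elements, or with half of them and consisting of non-roots. -/
lemma forest_indep [DecidableEq V] (p : V → V) (d : V → ℕ) : ∀ (n : ℕ) (R : Finset V),
    R.card = n → (∀ x ∈ R, p x ∈ R → d (p x) < d x) →
    ∃ S ⊆ R, (∀ x ∈ S, p x ∉ S) ∧ (R.card + 1 ≤ 2 * S.card ∨
      (R.card ≤ 2 * S.card ∧ ∀ x ∈ S, p x ∈ R)) := by
  intro n
  induction n using Nat.strong_induction_on with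
  | _ n ih =>
    intro R hn hR
    rcases R.eq_empty_or_nonempty with rfl | hne
    · exact ⟨∅, by simp, by simp, Or.inr ⟨by simp, by simp⟩⟩
    obtain ⟨x, hx, hmax⟩ := Finset.exists_max_image R d hne
    by_cases hpx : p x ∈ R
    · have hlt := hR x hx hpx
      have hne' : p x ≠ x := fun h => by rw [h] at hlt; exact lt_irrefl _ hlt
      set R' := (R.erase x).erase (p x) with hR'
      have hpx' : p x ∈ R.erase x := Finset.mem_erase.2 ⟨hne', hpx⟩
      have hc : R'.card + 2 = R.card := by
        rw [hR', Finset.card_erase_of_mem hpx', Finset.card_erase_of_mem hx]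
        have h1 := Finset.card_pos.2 hne
        have h2 : 0 < (R.erase x).card := Finset.card_pos.2 ⟨_, hpx'⟩
        rw [Finset.card_erase_of_mem hx] at h2
        omega
      have hsub : R' ⊆ R := (Finset.erase_subset _ _).trans (Finset.erase_subset _ _)
      obtain ⟨S, hS1, hS2, hS3⟩ := ih R'.card (by omega) R' rfl
        (fun y hy hpy => hR y (hsub hy) (hsub hpy))
      have hxS : x ∉ S := by
        intro h
        have := hS1 h
        rw [hR', Finset.mem_erase, Finset.mem_erase] at this
        exact this.2.1 rfl
      have hpxS : p x ∉ S := by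
        intro h
        have := hS1 h
        rw [hR', Finset.mem_erase] at this
        exact this.1 rfl
      refine ⟨insert x S, ?_, ?_, ?_⟩
      · intro y hy
        rcases Finset.mem_insert.1 hy with rfl | hy
        · exact hx
        · exact hsub (hS1 hy)
      · intro y hy hpy
        rcases Finset.mem_insert.1 hy with rfl | hy
        · rcases Finset.mem_insert.1 hpy with h | h
          · exact hne' h
          · exact hpxS h
        · rcases Finset.mem_insert.1 hpy with h | h
          · have h1 := hR y (hsub (hS1 hy)) (by rw [h]; exact hx)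
            rw [h] at h1
            have h2 := hmax y (hsub (hS1 hy))
            omega
          · exact hS2 y hy h
      · rw [Finset.card_insert_of_notMem hxS]
        rcases hS3 with h | ⟨h, h'⟩
        · left; omega
        · right
          refine ⟨by omega, ?_⟩
          intro y hy
          rcases Finset.mem_insert.1 hy with rfl | hy
          · exact hpx
          · exact hsub (h' y hy)
    · set R' := R.erase x with hR'
      have hc : R'.card + 1 = R.card := Finset.card_erase_add_one hx
      have hsub : R' ⊆ R := Finset.erase_subset _ _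
      obtain ⟨S, hS1, hS2, hS3⟩ := ih R'.card (by omega) R' rfl
        (fun y hy hpy => hR y (hsub hy) (hsub hpy))
      have hxS : x ∉ S := fun h => (Finset.mem_erase.1 (hS1 h)).1 rfl
      refine ⟨insert x S, ?_, ?_, ?_⟩
      · intro y hy
        rcases Finset.mem_insert.1 hy with rfl | hy
        · exact hx
        · exact hsub (hS1 hy)
      · intro y hy hpy
        rcases Finset.mem_insert.1 hy with rfl | hy
        · rcases Finset.mem_insert.1 hpy with h | h
          · exact hpx (by rw [h]; exact hx)
          · exact hpx (hsub (hS1 h))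
        · rcases Finset.mem_insert.1 hpy with h | h
          · have h1 := hR y (hsub (hS1 hy)) (by rw [h]; exact hx)
            rw [h] at h1
            have h2 := hmax y (hsub (hS1 hy))
            omega
          · exact hS2 y hy h
      · rw [Finset.card_insert_of_notMem hxS]
        left
        rcases hS3 with h | ⟨h, h'⟩ <;> omega

end MD

end Pool.Agent.Work.MP_38b5f0_co
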