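import Pool.Agent.Work.MP_38b5f0_co.Basic

set_option autoImplicit false
set_option linter.unusedSectionVars false

namespace Pool.Agent.Work.MP_38b5f0_co

namespace MD

variable {V A : Type*} [Fintype V] [DecidableEq V] [Fintype A] [DecidableEq A]

lemma hub_ind_le (D : MD V A) {E E' : Finset A} {Y : Finset V}
    (h : ∀ e ∈ E, D.src e ∉ Y → D.tgt e ∈ Y → e ∈ E') : D.ind E Y ≤ D.ind E' Y := by
  unfold ind
  refine Finset.card_le_card fun e he => ?_
  rw [Finset.mem_filter] at he ⊢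
  exact ⟨h e he.1 he.2.1 he.2.2, he.2⟩

lemma hub_outd_le (D : MD V A) {E E' : Finset A} {Y : Finset V}
    (h : ∀ e ∈ E, D.src e ∈ Y → D.tgt e ∉ Y → e ∈ E') : D.outd E Y ≤ D.outd E' Y := by
  unfold outd
  refine Finset.card_le_card fun e he => ?_
  rw [Finset.mem_filter] at he ⊢
  exact ⟨h e he.1 he.2.1 he.2.2, he.2⟩

lemma hub_ind_erase_le (D : MD V A) (E : Finset A) (a : A) (Y : Finset V) :
    D.ind E Y ≤ D.ind (E.erase a) Y + 1 := by
  unfold ind
  have h : (E.filter fun e => D.src e ∉ Y ∧ D.tgt e ∈ Y) ⊆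
      insert a ((E.erase a).filter fun e => D.src e ∉ Y ∧ D.tgt e ∈ Y) := by
    intro e he
    rw [Finset.mem_filter] at he
    rw [Finset.mem_insert, Finset.mem_filter, Finset.mem_erase]
    by_cases h : e = a
    · exact Or.inl h
    · exact Or.inr ⟨⟨h, he.1⟩, he.2⟩
  exact (Finset.card_le_card h).trans (Finset.card_insert_le _ _)

lemma hub_exists_outd (D : MD V A) {E : Finset A} {X : Finset V} (h : 2 ≤ D.outd E X) (c : A) :
    ∃ a ∈ E, a ≠ c ∧ D.src a ∈ X ∧ D.tgt a ∉ X := by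
  unfold outd at h
  obtain ⟨a, ha, hac⟩ := Finset.exists_mem_ne (lt_of_lt_of_le one_lt_two h) c
  rw [Finset.mem_filter] at ha
  exact ⟨a, ha.1, hac, ha.2.1, ha.2.2⟩

lemma hub_submod_ind (D : MD V A) (E : Finset A) (X Z : Finset V) :
    D.ind E (X ∩ Z) + D.ind E (X ∪ Z) ≤ D.ind E X + D.ind E Z := by
  have h := D.rev.submod E X Z
  simp only [outd_rev] at h
  omega

/-- one step of the growth of an out-tree which keeps two unused arcs entering every nonempty
subset of `U` -/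
lemma hub_grow_step (D : MD V A) (T : Finset A) (U : Finset V) (h τ : V)
    (hT : ∀ a ∈ T, D.tgt a ∉ U)
    (h3 : ∀ Y : Finset V, Y.Nonempty → Y ⊆ U → 3 ≤ D.ind Finset.univ Y)
    (hcut : ∀ W : Finset V, h ∈ W → τ ∉ W → ∃ a, a ∉ T ∧ D.src a ∈ W ∧ D.tgt a ∉ W)
    (W : Finset V) (B : Finset A) (hW : h ∈ W) (hτ : τ ∉ W)
    (hB : ∀ b ∈ B, D.tgt b ∈ W)
    (hI : ∀ Y : Finset V, Y.Nonempty → Y ⊆ U → 2 ≤ D.ind Bᶜ Y) :
    ∃ a, a ∉ T ∧ D.src a ∈ W ∧ D.tgt a ∉ W ∧
      ∀ Y : Finset V, Y.Nonempty → Y ⊆ U → 2 ≤ D.ind (insert a B)ᶜ Y := by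
  classical
  -- if the new arc does not enter a critical set the invariant survives
  have key : ∀ a, (∀ Y : Finset V, Y.Nonempty → Y ⊆ U → D.src a ∉ Y → D.tgt a ∈ Y →
      3 ≤ D.ind Bᶜ Y) →
      ∀ Y : Finset V, Y.Nonempty → Y ⊆ U → 2 ≤ D.ind (insert a B)ᶜ Y := by
    intro a ha Y hY hYU
    rw [Finset.compl_insert]
    by_cases h1 : D.src a ∉ Y ∧ D.tgt a ∈ Y
    · have h2 := ha Y hY hYU h1.1 h1.2
      have h4 := D.hub_ind_erase_le Bᶜ a Y
      omega
    · refine (hI Y hY hYU).trans (D.hub_ind_le fun e he h5 h6 => ?_)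
      rw [Finset.mem_erase]
      refine ⟨?_, he⟩
      rintro rfl
      exact h1 ⟨h5, h6⟩
  by_cases hcrit : ∃ Y : Finset V, Y ⊆ U ∧ ¬ Y ⊆ W ∧ D.ind Bᶜ Y ≤ 2
  · -- a critical set of minimum size
    let S : Finset (Finset V) :=
      Finset.univ.filter fun Y => Y ⊆ U ∧ ¬ Y ⊆ W ∧ D.ind Bᶜ Y ≤ 2
    have hS : S.Nonempty := by
      obtain ⟨Y, hY⟩ := hcrit
      exact ⟨Y, Finset.mem_filter.2 ⟨Finset.mem_univ _, hY⟩⟩
    obtain ⟨Y, hYS, hYmin⟩ := Finset.exists_min_image S Finset.card hS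
    obtain ⟨-, hYU, hYW, hY2⟩ := Finset.mem_filter.1 hYS
    have hne : (Y \ W).Nonempty := by
      rw [Finset.sdiff_nonempty]; exact hYW
    have h4 : 3 ≤ D.ind Bᶜ (Y \ W) := by
      refine (h3 _ hne (Finset.sdiff_subset.trans hYU)).trans (D.hub_ind_le fun e _ _ h6 => ?_)
      rw [Finset.mem_compl]
      intro heB
      exact (Finset.mem_sdiff.1 h6).2 (hB e heB)
    have h5 : ∃ a, D.src a ∈ Y ∧ D.src a ∈ W ∧ D.tgt a ∈ Y ∧ D.tgt a ∉ W := by
      by_contra hno
      have h6 : D.ind Bᶜ (Y \ W) ≤ D.ind Bᶜ Y := by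
        unfold ind
        refine Finset.card_le_card fun e he => ?_
        rw [Finset.mem_filter] at he ⊢
        refine ⟨he.1, ?_, (Finset.mem_sdiff.1 he.2.2).1⟩
        intro h7
        apply hno
        refine ⟨e, h7, ?_, (Finset.mem_sdiff.1 he.2.2).1, (Finset.mem_sdiff.1 he.2.2).2⟩
        by_contra h8
        exact he.2.1 (Finset.mem_sdiff.2 ⟨h7, h8⟩)
      omega
    obtain ⟨a, ha1, ha2, ha3, ha4⟩ := h5
    refine ⟨a, fun haT => hT a haT (hYU ha3), ha2, ha4, key a ?_⟩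
    intro Y' hY' hY'U h6 h7
    by_contra h8
    have h9 := D.hub_submod_ind Bᶜ Y Y'
    have h10 : (Y ∩ Y').Nonempty := ⟨_, Finset.mem_inter.2 ⟨ha3, h7⟩⟩
    have h11 : (Y ∪ Y').Nonempty := ⟨_, Finset.mem_union_left _ ha3⟩
    have h12 := hI _ h11 (Finset.union_subset hYU hY'U)
    have h13 : Y ∩ Y' ∈ S := by
      refine Finset.mem_filter.2 ⟨Finset.mem_univ _, Finset.inter_subset_left.trans hYU, ?_, ?_⟩
      · intro h14
        exact ha4 (h14 (Finset.mem_inter.2 ⟨ha3, h7⟩))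
      · omega
    have h14 := hYmin _ h13
    have h15 : (Y ∩ Y').card < Y.card := by
      apply Finset.card_lt_card
      rw [Finset.ssubset_iff_of_subset Finset.inter_subset_left]
      exact ⟨_, ha1, fun h16 => h6 (Finset.mem_inter.1 h16).2⟩
    omega
  · obtain ⟨a, ha1, ha2, ha3⟩ := hcut W hW hτ
    refine ⟨a, ha1, ha2, ha3, key a ?_⟩
    intro Y hY hYU _ h5
    by_contra h6
    exact hcrit ⟨Y, hYU, fun h7 => ha3 (h7 h5), by omega⟩

/-- a path from `h` to `τ` avoiding `T` which keeps two unused arcs entering every nonempty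
subset of `U` -/
lemma hub_grow_path (D : MD V A) (T : Finset A) (U : Finset V) (h τ : V)
    (hT : ∀ a ∈ T, D.tgt a ∉ U)
    (h3 : ∀ Y : Finset V, Y.Nonempty → Y ⊆ U → 3 ≤ D.ind Finset.univ Y)
    (hcut : ∀ W : Finset V, h ∈ W → τ ∉ W → ∃ a, a ∉ T ∧ D.src a ∈ W ∧ D.tgt a ∉ W) :
    ∃ Q : Finset A, (∀ a ∈ Q, a ∉ T) ∧ D.Reach (Q : Set A) h τ ∧
      (∀ a ∈ Q, D.Reach (Q : Set A) (D.tgt a) τ) ∧
      ∀ Y : Finset V, Y.Nonempty → Y ⊆ U → 2 ≤ D.ind Qᶜ Y := by
  classical
  have main : ∀ (n : ℕ) (W : Finset V) (B : Finset A), Wᶜ.card = n → h ∈ W →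
      (∀ b ∈ B, b ∉ T) → (∀ b ∈ B, D.tgt b ∈ W) → (∀ w ∈ W, D.Reach (B : Set A) h w) →
      (∀ Y : Finset V, Y.Nonempty → Y ⊆ U → 2 ≤ D.ind Bᶜ Y) →
      ∃ B' : Finset A, (∀ b ∈ B', b ∉ T) ∧ D.Reach (B' : Set A) h τ ∧
        ∀ Y : Finset V, Y.Nonempty → Y ⊆ U → 2 ≤ D.ind B'ᶜ Y := by
    intro n
    induction n using Nat.strong_induction_on with
    | _ n ih =>
      intro W B hn hW hBT hB hR hI
      by_cases hτ : τ ∈ W
      · exact ⟨B, hBT, hR τ hτ, hI⟩
      · obtain ⟨a, ha1, ha2, ha3, ha4⟩ := D.hub_grow_step T U h τ hT h3 hcut W B hW hτ hB hI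
        have hcard : (insert (D.tgt a) W)ᶜ.card < n := by
          rw [← hn]
          apply Finset.card_lt_card
          rw [Finset.compl_ssubset_compl]
          exact Finset.ssubset_insert ha3
        refine ih _ hcard (insert (D.tgt a) W) (insert a B) rfl (Finset.mem_insert_of_mem hW)
          ?_ ?_ ?_ ha4
        · intro b hb
          rcases Finset.mem_insert.1 hb with rfl | hb
          · exact ha1
          · exact hBT b hb
        · intro b hb
          rcases Finset.mem_insert.1 hb with rfl | hb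
          · exact Finset.mem_insert_self _ _
          · exact Finset.mem_insert_of_mem (hB b hb)
        · intro w hw
          have hsub : (B : Set A) ⊆ ((insert a B : Finset A) : Set A) := by
            intro x hx
            exact Finset.mem_coe.2 (Finset.mem_insert_of_mem (Finset.mem_coe.1 hx))
          rcases Finset.mem_insert.1 hw with rfl | hw
          · exact ((hR _ ha2).mono hsub).trans
              (Reach.single (Finset.mem_coe.2 (Finset.mem_insert_self a B)))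
          · exact (hR w hw).mono hsub
  obtain ⟨B, hB1, hB2, hB3⟩ := main _ {h} ∅ rfl (Finset.mem_singleton_self h) (by simp) (by simp)
    (by
      intro w hw
      rw [Finset.mem_singleton.1 hw]
      exact Reach.refl h)
    (by
      intro Y hY hYU
      have := h3 Y hY hYU
      rw [Finset.compl_empty]
      omega)
  have hQ : ∀ x, D.Reach (B : Set A) x τ →
      D.Reach ((B.filter fun b => D.Reach (B : Set A) (D.tgt b) τ : Finset A) : Set A) x τ := by
    intro x hx
    induction hx using Relation.ReflTransGen.head_induction_on with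
    | refl => exact Reach.refl τ
    | head h1 h2 ih =>
      obtain ⟨a, ha, h4, h5⟩ := h1
      refine Relation.ReflTransGen.head ⟨a, ?_, h4, h5⟩ ih
      rw [Finset.mem_coe, Finset.mem_filter]
      refine ⟨Finset.mem_coe.1 ha, ?_⟩
      rw [h5]
      exact h2
  refine ⟨B.filter fun b => D.Reach (B : Set A) (D.tgt b) τ, ?_, hQ h hB2, ?_, ?_⟩
  · intro a ha
    exact hB1 a (Finset.mem_filter.1 ha).1
  · intro a ha
    exact hQ _ (Finset.mem_filter.1 ha).2
  · intro Y hY hYU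
    refine (hB3 Y hY hYU).trans (D.hub_ind_le fun e he _ _ => ?_)
    rw [Finset.mem_compl] at he ⊢
    exact fun h' => he (Finset.mem_filter.1 h').1

/-- `G`-step of the assignment procedure -/
lemma hub_assign_step (D : MD V A) (s t : V) (F G : Finset A) (c : A) (hd : Disjoint F G)
    (hcov : ∀ x, D.Reach (F : Set A) s x ∨ D.Reach (G : Set A) x t)
    (HF : ∀ Y : Finset V, Y.Nonempty → (∀ x ∈ Y, ¬ D.Reach (F : Set A) s x) →
      2 ≤ D.ind (G.erase c)ᶜ Y)
    (HG : ∀ X : Finset V, X.Nonempty → (∀ x ∈ X, ¬ D.Reach (G : Set A) x t) →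
      2 ≤ D.outd (F.erase c)ᶜ X)
    (hne : ∃ x, ¬ D.Reach (G : Set A) x t)
    (hc : ¬ (c ∈ G ∧ ¬ D.Reach (F : Set A) s (D.tgt c))) :
    ∃ (G' : Finset A) (c' : A), G ⊆ G' ∧ Disjoint F G' ∧
      (∀ Y : Finset V, Y.Nonempty → (∀ x ∈ Y, ¬ D.Reach (F : Set A) s x) →
        2 ≤ D.ind (G'.erase c')ᶜ Y) ∧
      (∀ X : Finset V, X.Nonempty → (∀ x ∈ X, ¬ D.Reach (G' : Set A) x t) →
        2 ≤ D.outd (F.erase c')ᶜ X) ∧
      ∃ x, ¬ D.Reach (G : Set A) x t ∧ D.Reach (G' : Set A) x t := by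
  classical
  -- the starting vertex
  obtain ⟨x0, hx0, hx0c⟩ : ∃ x0, ¬ D.Reach (G : Set A) x0 t ∧
      (c ∈ F → ¬ D.Reach (G : Set A) (D.src c) t → x0 = D.src c) := by
    by_cases h1 : c ∈ F ∧ ¬ D.Reach (G : Set A) (D.src c) t
    · exact ⟨D.src c, h1.2, fun _ _ => rfl⟩
    · obtain ⟨x, hx⟩ := hne
      exact ⟨x, hx, fun h2 h3 => absurd ⟨h2, h3⟩ h1⟩
  -- the arcs we may walk along
  let N : Set A := {a | a ∉ F ∧ ¬ D.Reach (G : Set A) (D.src a) t ∧
    ¬ D.Reach (G : Set A) (D.tgt a) t}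
  let X0 : Finset V := Finset.univ.filter fun x => D.Reach N x0 x
  have hX0 : ∀ x, x ∈ X0 ↔ D.Reach N x0 x := fun x => by simp [X0]
  have hX0A : ∀ x ∈ X0, ¬ D.Reach (G : Set A) x t := by
    intro x hx
    rw [hX0] at hx
    cases hx with
    | refl => exact hx0
    | tail _ h2 =>
      obtain ⟨a, ha, -, h4⟩ := h2
      rw [← h4]
      exact ha.2.2
  have hX0ne : X0.Nonempty := ⟨x0, (hX0 x0).2 (Reach.refl x0)⟩
  obtain ⟨a, ha1, hac, ha2, ha3⟩ := D.hub_exists_outd (HG X0 hX0ne hX0A) c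
  have haF : a ∉ F := by
    intro h1
    rw [Finset.mem_compl] at ha1
    exact ha1 (Finset.mem_erase.2 ⟨hac, h1⟩)
  have hat : D.Reach (G : Set A) (D.tgt a) t := by
    by_contra h1
    apply ha3
    rw [hX0] at ha2 ⊢
    exact ha2.trans (Reach.single (show a ∈ N from ⟨haF, hX0A _ ((hX0 _).2 ha2), h1⟩))
  -- the new `G`
  let M : Finset A := Finset.univ.filter fun b => b ∉ F ∧ D.src b ∈ X0 ∧ D.tgt b ∈ X0
  have hM : ∀ b, b ∈ M ↔ b ∉ F ∧ D.src b ∈ X0 ∧ D.tgt b ∈ X0 := fun b => by simp [M]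
  let G' : Finset A := insert a (G ∪ M)
  have hG' : ∀ b, b ∈ G' ↔ b = a ∨ b ∈ G ∨ b ∈ M := fun b => by
    simp only [G', Finset.mem_insert, Finset.mem_union]
  have hGG' : G ⊆ G' := fun b hb => (hG' b).2 (Or.inr (Or.inl hb))
  have hGG's : (G : Set A) ⊆ (G' : Set A) := Finset.coe_subset.2 hGG'
  have hta : D.Reach (G' : Set A) (D.src a) t :=
    (Reach.single (Finset.mem_coe.2 ((hG' a).2 (Or.inl rfl)))).trans (hat.mono hGG's)
  have hXr : ∀ x y, D.Reach N x y → x ∈ X0 → D.Reach (G' : Set A) x y := by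
    intro x y hxy hx
    induction hxy with
    | refl => exact Reach.refl x
    | tail h1 h2 ih =>
      obtain ⟨b, hb, h4, h5⟩ := h2
      refine Relation.ReflTransGen.tail ih ⟨b, ?_, h4, h5⟩
      have h6 : D.src b ∈ X0 := by
        rw [h4, hX0]
        exact ((hX0 _).1 hx).trans h1
      have h7 : D.tgt b ∈ X0 := by
        rw [hX0] at h6 ⊢
        exact h6.trans (Reach.single hb)
      exact Finset.mem_coe.2 ((hG' b).2 (Or.inr (Or.inr ((hM b).2 ⟨hb.1, h6, h7⟩))))
  have hx0t : D.Reach (G' : Set A) x0 t :=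
    (hXr x0 _ ((hX0 _).1 ha2) ((hX0 _).2 (Reach.refl x0))).trans hta
  refine ⟨G', a, hGG', ?_, ?_, ?_, x0, hx0, hx0t⟩
  · rw [Finset.disjoint_left]
    intro b hbF hbG
    rcases (hG' b).1 hbG with rfl | hb | hb
    · exact haF hbF
    · exact Finset.disjoint_left.1 hd hbF hb
    · exact ((hM b).1 hb).1 hbF
  · intro Y hY hYF
    refine (HF Y hY hYF).trans (D.hub_ind_le fun e he h1 h2 => ?_)
    rw [Finset.mem_compl, Finset.mem_erase] at he ⊢
    rintro ⟨hea, heG'⟩
    apply he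
    rcases (hG' e).1 heG' with h3 | h3 | h3
    · exact absurd h3 hea
    · refine ⟨?_, h3⟩
      rintro rfl
      exact hc ⟨h3, hYF _ h2⟩
    · exfalso
      rcases hcov (D.tgt e) with h4 | h4
      · exact hYF _ h2 h4
      · exact hX0A _ ((hM e).1 h3).2.2 h4
  · intro X hX hXG
    have hXG0 : ∀ x ∈ X, ¬ D.Reach (G : Set A) x t := fun x hx h1 => hXG x hx (h1.mono hGG's)
    refine (HG X hX hXG0).trans (D.hub_outd_le fun e he h1 h2 => ?_)
    rw [Finset.mem_compl, Finset.mem_erase] at he ⊢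
    rintro ⟨hea, heF⟩
    apply he
    refine ⟨?_, heF⟩
    rintro rfl
    have h3 := hx0c heF (hXG0 _ h1)
    exact hXG _ h1 (h3 ▸ hx0t)

/-- the assignment procedure -/
lemma hub_assign (D : MD V A) (s t : V) (F G : Finset A) (c : A) (hd : Disjoint F G)
    (hcov : ∀ x, D.Reach (F : Set A) s x ∨ D.Reach (G : Set A) x t)
    (HF : ∀ Y : Finset V, Y.Nonempty → (∀ x ∈ Y, ¬ D.Reach (F : Set A) s x) →
      2 ≤ D.ind (G.erase c)ᶜ Y)
    (HG : ∀ X : Finset V, X.Nonempty → (∀ x ∈ X, ¬ D.Reach (G : Set A) x t) →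
      2 ≤ D.outd (F.erase c)ᶜ X) :
    ∃ F' G' : Finset A, Disjoint F' G' ∧ (∀ x, D.Reach (F' : Set A) s x) ∧
      ∀ x, D.Reach (G' : Set A) x t := by
  classical
  have main : ∀ (n : ℕ) (F G : Finset A) (c : A), Disjoint F G →
      (∀ x, D.Reach (F : Set A) s x ∨ D.Reach (G : Set A) x t) →
      (∀ Y : Finset V, Y.Nonempty → (∀ x ∈ Y, ¬ D.Reach (F : Set A) s x) →
        2 ≤ D.ind (G.erase c)ᶜ Y) →
      (∀ X : Finset V, X.Nonempty → (∀ x ∈ X, ¬ D.Reach (G : Set A) x t) →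
        2 ≤ D.outd (F.erase c)ᶜ X) →
      (Finset.univ.filter fun x => ¬ D.Reach (F : Set A) s x).card +
        (Finset.univ.filter fun x => ¬ D.Reach (G : Set A) x t).card = n →
      ∃ F' G' : Finset A, Disjoint F' G' ∧ (∀ x, D.Reach (F' : Set A) s x) ∧
        ∀ x, D.Reach (G' : Set A) x t := by
    intro n
    induction n using Nat.strong_induction_on with
    | _ n ih =>
      intro F G c hd hcov HF HG hn
      -- the `G`-step
      have Gstep : (∃ x, ¬ D.Reach (G : Set A) x t) →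
          ¬ (c ∈ G ∧ ¬ D.Reach (F : Set A) s (D.tgt c)) →
          ∃ F' G' : Finset A, Disjoint F' G' ∧ (∀ x, D.Reach (F' : Set A) s x) ∧
            ∀ x, D.Reach (G' : Set A) x t := by
        intro h1 h2
        obtain ⟨G', c', h3, h4, h5, h6, x, h7, h8⟩ :=
          D.hub_assign_step s t F G c hd hcov HF HG h1 h2
        have h3s : (G : Set A) ⊆ (G' : Set A) := Finset.coe_subset.2 h3
        refine ih _ ?_ F G' c' h4 (fun x => (hcov x).imp_right fun h => h.mono h3s) h5 h6 rfl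
        rw [← hn]
        refine Nat.add_lt_add_left (Finset.card_lt_card ?_) _
        rw [Finset.ssubset_iff_of_subset]
        · exact ⟨x, Finset.mem_filter.2 ⟨Finset.mem_univ _, h7⟩,
            fun h => (Finset.mem_filter.1 h).2 h8⟩
        · intro y hy
          rw [Finset.mem_filter] at hy ⊢
          exact ⟨hy.1, fun h => hy.2 (h.mono h3s)⟩
      -- the `F`-step
      have Fstep : (∃ x, ¬ D.Reach (F : Set A) s x) →
          ¬ (c ∈ F ∧ ¬ D.Reach (G : Set A) (D.src c) t) →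
          ∃ F' G' : Finset A, Disjoint F' G' ∧ (∀ x, D.Reach (F' : Set A) s x) ∧
            ∀ x, D.Reach (G' : Set A) x t := by
        intro h1 h2
        obtain ⟨F', c', h3, h4, h5, h6, x, h7, h8⟩ :=
          D.rev.hub_assign_step t s G F c hd.symm
            (fun x => (hcov x).symm.imp reach_rev.2 reach_rev.2)
            (fun Y hY hYF => by
              rw [ind_rev]
              exact HG Y hY fun x hx h => hYF x hx (reach_rev.2 h))
            (fun X hX hXG => by
              rw [outd_rev]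
              exact HF X hX fun x hx h => hXG x hx (reach_rev.2 h))
            (by
              obtain ⟨x, hx⟩ := h1
              exact ⟨x, fun h => hx (reach_rev.1 h)⟩)
            (fun h => h2 ⟨h.1, fun h' => h.2 (reach_rev.2 h')⟩)
        have h3s : (F : Set A) ⊆ (F' : Set A) := Finset.coe_subset.2 h3
        refine ih _ ?_ F' G c' h4.symm (fun x => (hcov x).imp_left fun h => h.mono h3s) ?_ ?_ rfl
        · rw [← hn]
          refine Nat.add_lt_add_right (Finset.card_lt_card ?_) _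
          rw [Finset.ssubset_iff_of_subset]
          · exact ⟨x, Finset.mem_filter.2 ⟨Finset.mem_univ _, fun h => h7 (reach_rev.2 h)⟩,
              fun h => (Finset.mem_filter.1 h).2 (reach_rev.1 h8)⟩
          · intro y hy
            rw [Finset.mem_filter] at hy ⊢
            exact ⟨hy.1, fun h => hy.2 (h.mono h3s)⟩
        · intro Y hY hYF
          have := h6 Y hY fun x hx h => hYF x hx (reach_rev.1 h)
          rwa [outd_rev] at this
        · intro X hX hXG
          have := h5 X hX fun x hx h => hXG x hx (reach_rev.1 h)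
          rwa [ind_rev] at this
      by_cases hG : ∃ x, ¬ D.Reach (G : Set A) x t
      · by_cases hc : c ∈ G ∧ ¬ D.Reach (F : Set A) s (D.tgt c)
        · exact Fstep ⟨_, hc.2⟩ fun h => Finset.disjoint_left.1 hd h.1 hc.1
        · exact Gstep hG hc
      · push Not at hG
        by_cases hF : ∃ x, ¬ D.Reach (F : Set A) s x
        · exact Fstep hF fun h => h.2 (hG _)
        · push Not at hF
          exact ⟨F, G, hd, hF, hG⟩
  exact main _ F G c hd hcov HF HG rfl

/-- the core construction with two hubs `t` and `h` -/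
lemma hub_core (D : MD V A) (hKS : D.KS Finset.univ 3) (s t h : V) (P T : Finset A) (c : A)
    (hP : ∀ X : Finset V, X.Nonempty → t ∉ X → 2 ≤ D.outd Pᶜ X)
    (hdom : ∀ x, x ≠ t → x ≠ h → ∃ a, (D.src a = x ∧ (D.tgt a = t ∨ D.tgt a = h)) ∨
      (D.tgt a = x ∧ (D.src a = t ∨ D.src a = h)))
    (hTt : D.Reach (T : Set A) s t) (hTh : D.Reach (T : Set A) s h)
    (hTs : ∀ a ∈ T, D.Reach (T : Set A) s (D.src a))
    (htT : ∀ a, D.src a = t → a ∈ T)
    (hT : ∀ a ∈ T, a ∈ P ∨ D.src a = t ∨ a = c ∨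
      ∃ b, D.src b = D.src a ∧ D.tgt b = t ∧ b ∉ T) :
    ∃ F' G' : Finset A, Disjoint F' G' ∧ (∀ x, D.Reach (F' : Set A) s x) ∧
      ∀ x, D.Reach (G' : Set A) x t := by
  classical
  let U : Finset V := Finset.univ.filter fun x => ¬ D.Reach (T : Set A) s x
  have hU : ∀ x, x ∈ U ↔ ¬ D.Reach (T : Set A) s x := fun x => by simp [U]
  obtain ⟨Q, hQ1, hQ2, hQ3, hQ4⟩ := D.hub_grow_path T U h t
    (by
      intro a ha
      rw [hU, not_not]
      exact (hTs a ha).trans (Reach.single (Finset.mem_coe.2 ha)))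
    (by
      intro Y hY hYU
      refine hKS.ind hY ?_
      rintro rfl
      exact (hU s).1 (hYU (Finset.mem_univ s)) (Reach.refl s))
    (by
      intro W hhW htW
      obtain ⟨a, ha1, hac, ha2, ha3⟩ := D.hub_exists_outd (hP W ⟨h, hhW⟩ htW) c
      rw [Finset.mem_compl] at ha1
      by_cases haT : a ∈ T
      · rcases hT a haT with h1 | h1 | h1 | ⟨b, h1, h2, h3⟩
        · exact absurd h1 ha1
        · rw [h1] at ha2
          exact absurd ha2 htW
        · exact absurd h1 hac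
        · exact ⟨b, h3, by rw [h1]; exact ha2, by rw [h2]; exact htW⟩
      · exact ⟨a, haT, ha2, ha3⟩)
  let F0 : Finset A := T ∪ Finset.univ.filter fun a => D.src a = h ∧ a ∉ Q
  have hF0 : ∀ a, a ∈ F0 ↔ a ∈ T ∨ (D.src a = h ∧ a ∉ Q) := fun a => by simp [F0]
  let G0 : Finset A := Q ∪ Finset.univ.filter fun a => (D.tgt a = t ∨ D.tgt a = h) ∧ a ∉ F0
  have hG0 : ∀ a, a ∈ G0 ↔ a ∈ Q ∨ ((D.tgt a = t ∨ D.tgt a = h) ∧ a ∉ F0) :=
    fun a => by simp [G0]
  clear_value F0 G0 U
  have hTF : (T : Set A) ⊆ (F0 : Set A) := fun a ha => by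
    rw [Finset.mem_coe] at ha ⊢
    exact (hF0 a).2 (Or.inl ha)
  have hQG : (Q : Set A) ⊆ (G0 : Set A) := fun a ha => by
    rw [Finset.mem_coe] at ha ⊢
    exact (hG0 a).2 (Or.inl ha)
  have hFt : D.Reach (F0 : Set A) s t := hTt.mono hTF
  have hFh : D.Reach (F0 : Set A) s h := hTh.mono hTF
  have hGh : D.Reach (G0 : Set A) h t := hQ2.mono hQG
  have hFs : ∀ a ∈ F0, D.Reach (F0 : Set A) s (D.src a) := by
    intro a ha
    rcases (hF0 a).1 ha with h1 | h1
    · exact (hTs a h1).mono hTF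
    · rw [h1.1]; exact hFh
  have hd : Disjoint F0 G0 := by
    rw [Finset.disjoint_left]
    intro a haF haG
    rcases (hG0 a).1 haG with h1 | h1
    · rcases (hF0 a).1 haF with h2 | h2
      · exact hQ1 a h1 h2
      · exact h2.2 h1
    · exact h1.2 haF
  have hin : ∀ a, (D.tgt a = t ∨ D.tgt a = h) →
      D.Reach (F0 : Set A) s (D.src a) ∨ D.Reach (G0 : Set A) (D.src a) t := by
    intro a ha
    by_cases h1 : a ∈ F0
    · exact Or.inl (hFs a h1)
    · right
      have h2 : a ∈ G0 := (hG0 a).2 (Or.inr ⟨ha, h1⟩)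
      have h3 : D.Reach (G0 : Set A) (D.src a) (D.tgt a) := Reach.single (Finset.mem_coe.2 h2)
      rcases ha with h4 | h4
      · rw [h4] at h3; exact h3
      · rw [h4] at h3; exact h3.trans hGh
  have hcov : ∀ x, D.Reach (F0 : Set A) s x ∨ D.Reach (G0 : Set A) x t := by
    intro x
    by_cases hxt : x = t
    · rw [hxt]; exact Or.inl hFt
    by_cases hxh : x = h
    · rw [hxh]; exact Or.inl hFh
    obtain ⟨a, ⟨h1, h2⟩ | ⟨h1, h2⟩⟩ := hdom x hxt hxh
    · rw [← h1]
      exact hin a h2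
    · rcases h2 with h2 | h2
      · left
        have h3 : a ∈ F0 := (hF0 a).2 (Or.inl (htT a h2))
        have h4 : D.Reach (F0 : Set A) (D.src a) (D.tgt a) := Reach.single (Finset.mem_coe.2 h3)
        rw [h1, h2] at h4
        exact hFt.trans h4
      · by_cases haQ : a ∈ Q
        · right
          have h3 := (hQ3 a haQ).mono hQG
          rw [h1] at h3
          exact h3
        · left
          have h3 : a ∈ F0 := (hF0 a).2 (Or.inr ⟨h2, haQ⟩)
          have h4 : D.Reach (F0 : Set A) (D.src a) (D.tgt a) :=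
            Reach.single (Finset.mem_coe.2 h3)
          rw [h1, h2] at h4
          exact hFh.trans h4
  refine D.hub_assign s t F0 G0 c hd hcov ?_ ?_
  · intro Y hY hYF
    refine (hQ4 Y hY ?_).trans (D.hub_ind_le fun e he _ h2 => ?_)
    · intro x hx
      rw [hU]
      exact fun h1 => hYF x hx (h1.mono hTF)
    · rw [Finset.mem_compl] at he ⊢
      rw [Finset.mem_erase]
      rintro ⟨-, heG⟩
      rcases (hG0 e).1 heG with h3 | h3
      · exact he h3
      · rcases h3.1 with h4 | h4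
        · rw [h4] at h2; exact hYF _ h2 hFt
        · rw [h4] at h2; exact hYF _ h2 hFh
  · intro X hX hXG
    refine (hP X hX fun h1 => hXG t h1 (Reach.refl t)).trans (D.hub_outd_le fun e he h1 _ => ?_)
    rw [Finset.mem_compl] at he ⊢
    rw [Finset.mem_erase]
    rintro ⟨hec, heF⟩
    rcases (hF0 e).1 heF with h3 | h3
    · rcases hT e h3 with h4 | h4 | h4 | ⟨b, h4, h5, h6⟩
      · exact he h4
      · rw [h4] at h1; exact hXG _ h1 (Reach.refl t)
      · exact hec h4
      · have hbF : b ∉ F0 := by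
          intro hb
          rcases (hF0 b).1 hb with h7 | h7
          · exact h6 h7
          · rw [h4] at h7
            rw [h7.1] at h1
            exact hXG _ h1 hGh
        have h7 : D.Reach (G0 : Set A) (D.src b) (D.tgt b) :=
          Reach.single (Finset.mem_coe.2 ((hG0 b).2 (Or.inr ⟨Or.inl h5, hbF⟩)))
        rw [h4, h5] at h7
        exact hXG _ h1 h7
    · rw [h3.1] at h1
      exact hXG _ h1 hGh

end MD

end Pool.Agent.Work.MP_38b5f0_co
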