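import Pool.Agent.Work.MP_38b5f0_co.Cuts

set_option autoImplicit false
set_option linter.unusedSectionVars false

namespace Pool.Agent.Work.MP_38b5f0_co

namespace MD

universe u w

section

variable {V : Type u} {A : Type w} [Fintype V] [DecidableEq V] [DecidableEq A]

/-- tight sets avoiding the root -/
def Tight (D : MD V A) (E : Finset A) (r : V) (k : ℕ) (X : Finset V) : Prop :=
  r ∉ X ∧ X.Nonempty ∧ (D.outd E X = k ∨ D.ind E X = k)

lemma ne_univ_of_notMem {X : Finset V} {r : V} (h : r ∉ X) : X ≠ Finset.univ := by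
  rintro rfl
  exact h (Finset.mem_univ r)

/-- critical arcs, in terms of tight sets avoiding `r` -/
lemma crit_tight {D : MD V A} {E : Finset A} {k : ℕ} (h : D.Crit E k) (r : V) (e : A)
    (he : e ∈ E) (hne : D.src e ≠ D.tgt e) :
    ∃ X : Finset V, r ∉ X ∧ ((D.src e ∈ X ∧ D.tgt e ∉ X ∧ D.outd E X = k) ∨
      (D.src e ∉ X ∧ D.tgt e ∈ X ∧ D.ind E X = k)) := by
  obtain ⟨X, h1, h2, h3⟩ := h e he hne
  by_cases hr : r ∈ X
  · refine ⟨Xᶜ, by simpa using hr, Or.inr ⟨by simpa using h1, by simpa using h2, ?_⟩⟩
    rw [ind_compl, h3]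
  · exact ⟨X, hr, Or.inl ⟨h1, h2, h3⟩⟩

lemma filter_empty_of_card {E : Finset A} {p : A → Prop} [DecidablePred p]
    (h : (E.filter p).card = 0) : ∀ e ∈ E, ¬ p e := by
  rw [Finset.card_eq_zero, Finset.filter_eq_empty_iff] at h
  intro e he
  exact h he

/-- analysis of a minimal non-singleton tight set -/
lemma mader_aux (D : MD V A) (E : Finset A) (k : ℕ) (r : V) (hKS : D.KS E k)
    (hC : D.Crit E k) (Y : Finset V) (hrY : r ∉ Y) (hY2 : 2 ≤ Y.card) (hYt : D.outd E Y = k)
    (hmin : ∀ X, D.Tight E r k X → X ⊂ Y → X.card = 1)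
    (hno : ∀ y ∈ Y, ¬ (D.outd E {y} = k ∧ D.ind E {y} = k)) :
    k + Y.card ≤ D.ind E Y ∧
      ∀ e ∈ E, D.src e ≠ D.tgt e → ¬ (D.src e ∈ Y ∧ D.tgt e ∈ Y) →
        ∃ X : Finset V, D.src e ∈ X ∧ D.tgt e ∉ X ∧ D.outd E X = k ∧ (Y ⊆ X ∨ Disjoint Y X) := by
  have hYne : Y.Nonempty := Finset.card_pos.1 (by omega)
  have hYu := ne_univ_of_notMem hrY
  -- facts on crossing sets
  have hcross1 : ∀ X : Finset V, r ∉ X → D.outd E X = k → (X ∩ Y).Nonempty →
      D.outd E (X ∩ Y) = k ∧ D.outd E (X ∪ Y) = k ∧
      ∀ e ∈ E, ¬ (D.src e ∈ X \ Y ∧ D.tgt e ∈ Y \ X) := by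
    intro X hrX hX hne
    have h1 := D.submod E X Y
    have h2 : k ≤ D.outd E (X ∩ Y) := hKS _ hne (ne_univ_of_notMem (r := r) (by
      simp [hrX]))
    have h3 : k ≤ D.outd E (X ∪ Y) := hKS _ (hYne.mono Finset.subset_union_right)
      (ne_univ_of_notMem (r := r) (by simp [hrX, hrY]))
    refine ⟨by omega, by omega, ?_⟩
    have h4 := filter_empty_of_card (E := E) (p := fun e => (D.src e ∈ X \ Y ∧ D.tgt e ∈ Y \ X) ∨
        (D.src e ∈ Y \ X ∧ D.tgt e ∈ X \ Y)) (by omega)
    intro e he h
    exact h4 e he (Or.inl h)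
  have hcross2 : ∀ X : Finset V, r ∉ X → D.ind E X = k → (Y \ X).Nonempty → (X \ Y).Nonempty →
      D.outd E (Y \ X) = k ∧ D.ind E (X \ Y) = k ∧
      ∀ e ∈ E, ¬ (D.src e ∉ Y ∪ X ∧ D.tgt e ∈ Y ∩ X) := by
    intro X hrX hX hne hne'
    have h1 := D.submod' E Y X
    have h2 : k ≤ D.outd E (Y \ X) := hKS _ hne (ne_univ_of_notMem (r := r) (by
      simp [hrY]))
    have h3 : k ≤ D.ind E (X \ Y) := hKS.ind hne'
      (ne_univ_of_notMem (r := r) (by simp [hrX]))
    refine ⟨by omega, by omega, ?_⟩
    have h4 := filter_empty_of_card (E := E) (p := fun e => (D.src e ∈ Y ∩ X ∧ D.tgt e ∉ Y ∪ X) ∨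
        (D.src e ∉ Y ∪ X ∧ D.tgt e ∈ Y ∩ X)) (by omega)
    intro e he h
    exact h4 e he (Or.inr h)
  -- arcs inside Y
  have hin : ∀ e ∈ E, D.src e ∈ Y → D.tgt e ∈ Y → D.src e ≠ D.tgt e →
      D.outd E {D.src e} = k ∨ D.ind E {D.tgt e} = k := by
    intro e he hs ht hne
    obtain ⟨X, hrX, h | h⟩ := crit_tight hC r e he hne
    · obtain ⟨h1, h2, h3⟩ := h
      left
      have hsX : D.src e ∈ X ∩ Y := Finset.mem_inter.2 ⟨h1, hs⟩
      obtain ⟨h4, -, -⟩ := hcross1 X hrX h3 ⟨_, hsX⟩
      have h5 : (X ∩ Y).card = 1 := by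
        apply hmin
        · exact ⟨by simp [hrX], ⟨_, hsX⟩, Or.inl h4⟩
        · refine Finset.ssubset_iff_subset_ne.2 ⟨Finset.inter_subset_right, fun h => ?_⟩
          have : D.tgt e ∈ X ∩ Y := by rw [h]; exact ht
          exact h2 (Finset.mem_inter.1 this).1
      obtain ⟨z, hz⟩ := Finset.card_eq_one.1 h5
      rw [hz, Finset.mem_singleton] at hsX
      rw [hsX, ← hz]
      exact h4
    · obtain ⟨h1, h2, h3⟩ := h
      have hsX : D.src e ∈ Y \ X := Finset.mem_sdiff.2 ⟨hs, h1⟩
      by_cases hXY : (X \ Y).Nonempty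
      · left
        obtain ⟨h4, -, -⟩ := hcross2 X hrX h3 ⟨_, hsX⟩ hXY
        have h5 : (Y \ X).card = 1 := by
          apply hmin
          · exact ⟨by simp [hrY], ⟨_, hsX⟩, Or.inl h4⟩
          · refine Finset.ssubset_iff_subset_ne.2 ⟨Finset.sdiff_subset, fun h => ?_⟩
            have : D.tgt e ∈ Y \ X := by rw [h]; exact ht
            exact (Finset.mem_sdiff.1 this).2 h2
        obtain ⟨z, hz⟩ := Finset.card_eq_one.1 h5
        rw [hz, Finset.mem_singleton] at hsX
        rw [hsX, ← hz]
        exact h4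
      · right
        have hsub : X ⊆ Y := by
          rw [Finset.not_nonempty_iff_eq_empty, Finset.sdiff_eq_empty_iff_subset] at hXY
          exact hXY
        have h5 : X.card = 1 := by
          apply hmin
          · exact ⟨hrX, ⟨_, h2⟩, Or.inr h3⟩
          · refine Finset.ssubset_iff_subset_ne.2 ⟨hsub, fun h => ?_⟩
            rw [h] at h1
            exact h1 hs
        obtain ⟨z, hz⟩ := Finset.card_eq_one.1 h5
        rw [hz, Finset.mem_singleton] at h2
        rw [h2, ← hz]
        exact h3
  obtain ⟨hbig, hnB⟩ := D.count_aux E k hKS Y hYne hYu hYt hin hno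
  refine ⟨hbig, ?_⟩
  intro e he hne hnin
  obtain ⟨X, hrX, h | h⟩ := crit_tight hC r e he hne
  · obtain ⟨h1, h2, h3⟩ := h
    by_cases hXY : (X ∩ Y).Nonempty
    · obtain ⟨-, h4, h5⟩ := hcross1 X hrX h3 hXY
      refine ⟨X ∪ Y, Finset.mem_union_left _ h1, ?_, h4, Or.inl Finset.subset_union_right⟩
      intro h6
      rw [Finset.mem_union] at h6
      rcases h6 with h6 | h6
      · exact h2 h6
      · apply h5 e he
        refine ⟨Finset.mem_sdiff.2 ⟨h1, fun h7 => hnin ⟨h7, h6⟩⟩, Finset.mem_sdiff.2 ⟨h6, h2⟩⟩
    · refine ⟨X, h1, h2, h3, Or.inr ?_⟩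
      rw [Finset.not_nonempty_iff_eq_empty] at hXY
      rw [Finset.disjoint_iff_inter_eq_empty, Finset.inter_comm]
      exact hXY
  · obtain ⟨h1, h2, h3⟩ := h
    -- complement of a suitable in-tight set
    have hfin : ∀ Z : Finset V, D.src e ∉ Z → D.tgt e ∈ Z → D.ind E Z = k →
        (Y ⊆ Z ∨ Disjoint Y Z) → ∃ X : Finset V, D.src e ∈ X ∧ D.tgt e ∉ X ∧ D.outd E X = k ∧
          (Y ⊆ X ∨ Disjoint Y X) := by
      intro Z g1 g2 g3 g4
      refine ⟨Zᶜ, by simpa using g1, by simpa using g2, by rw [outd_compl, g3], ?_⟩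
      rcases g4 with g4 | g4
      · right
        rw [Finset.disjoint_left]
        intro x hx hx'
        exact (Finset.mem_compl.1 hx') (g4 hx)
      · left
        intro x hx
        exact Finset.mem_compl.2 (Finset.disjoint_left.1 g4 hx)
    by_cases hYX : Y ⊆ X
    · exact hfin X h1 h2 h3 (Or.inl hYX)
    · have hne1 : (Y \ X).Nonempty := by
        rw [Finset.nonempty_iff_ne_empty, ne_eq, Finset.sdiff_eq_empty_iff_subset]
        exact hYX
      by_cases hXY : (X \ Y).Nonempty
      · obtain ⟨-, h4, h5⟩ := hcross2 X hrX h3 hne1 hXY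
        refine hfin (X \ Y) (fun h => h1 (Finset.mem_sdiff.1 h).1) ?_ h4
          (Or.inr Finset.disjoint_sdiff)
        refine Finset.mem_sdiff.2 ⟨h2, fun h6 => ?_⟩
        apply h5 e he
        refine ⟨?_, Finset.mem_inter.2 ⟨h6, h2⟩⟩
        intro h7
        rw [Finset.mem_union] at h7
        rcases h7 with h7 | h7
        · exact hnin ⟨h7, h6⟩
        · exact h1 h7
      · exfalso
        have hsub : X ⊆ Y := by
          rw [Finset.not_nonempty_iff_eq_empty, Finset.sdiff_eq_empty_iff_subset] at hXY
          exact hXY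
        have h5 : X.card = 1 := by
          apply hmin
          · exact ⟨hrX, ⟨_, h2⟩, Or.inr h3⟩
          · refine Finset.ssubset_iff_subset_ne.2 ⟨hsub, fun h => ?_⟩
            rw [h] at hYX
            exact hYX (Finset.Subset.refl _)
        obtain ⟨z, hz⟩ := Finset.card_eq_one.1 h5
        have hzY : z ∈ Y := hsub (by rw [hz]; exact Finset.mem_singleton_self z)
        apply hnB z hzY
        rw [← hz]
        exact h3

/-- the contraction map -/
noncomputable def cq (Y : Finset V) (x : V) : Option {x : V // x ∉ Y} := by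
  classical exact if h : x ∉ Y then some ⟨x, h⟩ else none

lemma cq_mem {Y : Finset V} {x : V} (h : x ∈ Y) : cq Y x = none := by
  simp [cq, h]

lemma cq_notMem {Y : Finset V} {x : V} (h : x ∉ Y) : cq Y x = some ⟨x, h⟩ := by
  simp [cq, h]

/-- the contraction -/
noncomputable def contr (D : MD V A) (Y : Finset V) : MD (Option {x : V // x ∉ Y}) A :=
  ⟨fun a => cq Y (D.src a), fun a => cq Y (D.tgt a)⟩

lemma outd_contr (D : MD V A) (E : Finset A) (Y : Finset V)
    (X : Finset (Option {x : V // x ∉ Y})) :
    (D.contr Y).outd E X = D.outd E (Finset.univ.filter fun x => cq Y x ∈ X) := by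
  unfold outd contr
  congr 1
  ext e
  simp

lemma ind_contr (D : MD V A) (E : Finset A) (Y : Finset V)
    (X : Finset (Option {x : V // x ∉ Y})) :
    (D.contr Y).ind E X = D.ind E (Finset.univ.filter fun x => cq Y x ∈ X) := by
  unfold ind contr
  congr 1
  ext e
  simp

lemma cq_surj {Y : Finset V} (hY : Y.Nonempty) (z : Option {x : V // x ∉ Y}) :
    ∃ x, cq Y x = z := by
  cases z with
  | none => obtain ⟨y, hy⟩ := hY; exact ⟨y, cq_mem hy⟩
  | some z => exact ⟨z.1, cq_notMem z.2⟩

lemma KS_contr {D : MD V A} {E : Finset A} {k : ℕ} (h : D.KS E k) {Y : Finset V}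
    (hY : Y.Nonempty) : (D.contr Y).KS E k := by
  intro X h1 h2
  rw [outd_contr]
  apply h
  · obtain ⟨z, hz⟩ := h1
    obtain ⟨x, rfl⟩ := cq_surj hY z
    exact ⟨x, by simpa using hz⟩
  · intro h3
    apply h2
    rw [Finset.eq_univ_iff_forall]
    intro z
    obtain ⟨x, rfl⟩ := cq_surj hY z
    have : x ∈ Finset.univ.filter fun x => cq Y x ∈ X := by rw [h3]; exact Finset.mem_univ x
    simpa using this

lemma Crit_contr {D : MD V A} {E : Finset A} {k : ℕ} {Y : Finset V}
    (h : ∀ e ∈ E, D.src e ≠ D.tgt e → ¬ (D.src e ∈ Y ∧ D.tgt e ∈ Y) →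
        ∃ X : Finset V, D.src e ∈ X ∧ D.tgt e ∉ X ∧ D.outd E X = k ∧ (Y ⊆ X ∨ Disjoint Y X)) :
    (D.contr Y).Crit E k := by
  classical
  intro e he hne
  have hne' : D.src e ≠ D.tgt e := by
    intro h'
    apply hne
    simp [contr, h']
  have hnin : ¬ (D.src e ∈ Y ∧ D.tgt e ∈ Y) := by
    rintro ⟨h1, h2⟩
    apply hne
    simp [contr, cq_mem h1, cq_mem h2]
  obtain ⟨X, h1, h2, h3, h4⟩ := h e he hne' hnin
  -- membership through the contraction
  have key : ∀ x : V, cq Y x ∈ X.image (cq Y) ↔ x ∈ X := by
    intro x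
    rw [Finset.mem_image]
    constructor
    · rintro ⟨y, hy, hxy⟩
      by_cases hxY : x ∈ Y
      · rw [cq_mem hxY] at hxy
        have hyY : y ∈ Y := by
          by_contra hyY
          rw [cq_notMem hyY] at hxy
          simp at hxy
        rcases h4 with h4 | h4
        · exact h4 hxY
        · exact absurd hy (Finset.disjoint_left.1 h4 hyY)
      · rw [cq_notMem hxY] at hxy
        have hyY : y ∉ Y := by
          intro hyY
          rw [cq_mem hyY] at hxy
          simp at hxy
        rw [cq_notMem hyY] at hxy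
        simp only [Option.some.injEq, Subtype.mk.injEq] at hxy
        rw [← hxy]
        exact hy
    · intro hx
      exact ⟨x, hx, rfl⟩
  refine ⟨X.image (cq Y), (key _).2 h1, fun h5 => h2 ((key _).1 h5), ?_⟩
  rw [outd_contr]
  have : (Finset.univ.filter fun x => cq Y x ∈ X.image (cq Y)) = X := by
    ext x
    simp only [Finset.mem_filter, Finset.mem_univ, true_and]
    exact key x
  rw [this]
  exact h3

lemma card_contr {Y : Finset V} : Fintype.card (Option {x : V // x ∉ Y}) =
    Fintype.card V - Y.card + 1 := by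
  rw [Fintype.card_option, Fintype.card_subtype_compl, Fintype.card_coe]

end

theorem mader {k : ℕ} (hk : 1 ≤ k) : ∀ (n : ℕ) (V : Type u) (A : Type w) [Fintype V]
    [DecidableEq V] [DecidableEq A] (D : MD V A) (E : Finset A) (r : V), Fintype.card V = n →
    2 ≤ n → D.KS E k → D.Crit E k → ∃ v, v ≠ r ∧ D.outd E {v} = k ∧ D.ind E {v} = k := by
  intro n
  induction n using Nat.strong_induction_on with
  | _ n ih =>
    intro V A _ _ _ D E r hn h2n hKS hC
    classical
    by_contra hcon
    have hno : ∀ v, v ≠ r → ¬ (D.outd E {v} = k ∧ D.ind E {v} = k) := by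
      intro v hv h
      exact hcon ⟨v, hv, h⟩
    -- the step for an out-tight minimal set
    have step : ∀ (D : MD V A), D.KS E k → D.Crit E k →
        (∀ v, v ≠ r → ¬ (D.outd E {v} = k ∧ D.ind E {v} = k)) → ∀ Y : Finset V, r ∉ Y →
        2 ≤ Y.card → D.outd E Y = k → (∀ X, D.Tight E r k X → X ⊂ Y → X.card = 1) → False := by
      intro D hKS hC hno Y hrY hY2 hYt hmin
      have hYne : Y.Nonempty := Finset.card_pos.1 (by omega)
      obtain ⟨hbig, hcr⟩ := D.mader_aux E k r hKS hC Y hrY hY2 hYt hmin
        (fun y hy => hno y (fun h => hrY (h ▸ hy)))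
      have hcard := card_contr (Y := Y)
      have hYlt : Y.card < Fintype.card V := by
        rw [← Finset.card_univ]
        exact Finset.card_lt_card (Finset.ssubset_univ_iff.2 (ne_univ_of_notMem hrY))
      obtain ⟨v, hvr, hv1, hv2⟩ := ih (Fintype.card V - Y.card + 1) (by omega) _ A (D.contr Y) E
        (cq Y r) hcard (by omega) (KS_contr hKS hYne) (Crit_contr hcr)
      rw [outd_contr] at hv1
      rw [ind_contr] at hv2
      cases v with
      | none =>
        have : (Finset.univ.filter fun x => cq Y x ∈ ({none} : Finset (Option {x : V // x ∉ Y}))) = Y := by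
          ext x
          simp only [Finset.mem_filter, Finset.mem_univ, true_and, Finset.mem_singleton]
          constructor
          · intro h
            by_contra hx
            rw [cq_notMem hx] at h
            simp at h
          · exact cq_mem
        rw [this] at hv2
        omega
      | some v =>
        have : (Finset.univ.filter fun x => cq Y x ∈ ({some v} : Finset (Option {x : V // x ∉ Y}))) = {v.1} := by
          ext x
          simp only [Finset.mem_filter, Finset.mem_univ, true_and, Finset.mem_singleton]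
          constructor
          · intro h
            by_cases hx : x ∈ Y
            · rw [cq_mem hx] at h
              simp at h
            · rw [cq_notMem hx] at h
              simp only [Option.some.injEq] at h
              rw [← h]
          · rintro rfl
            exact cq_notMem v.2
        rw [this] at hv1 hv2
        apply hno v.1 ?_ ⟨hv1, hv2⟩
        intro h
        apply hvr
        rw [← h]
        exact (cq_notMem v.2).symm
    -- is there a non-singleton tight set?
    by_cases hex : ∃ Y : Finset V, D.Tight E r k Y ∧ 2 ≤ Y.card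
    · -- take a minimal one
      have hwf := Finset.exists_min_image
        (Finset.univ.filter fun Y : Finset V => D.Tight E r k Y ∧ 2 ≤ Y.card) Finset.card (by
          obtain ⟨Y, hY⟩ := hex
          exact ⟨Y, by simp [hY.1, hY.2]⟩)
      obtain ⟨Y, hY, hmin⟩ := hwf
      simp only [Finset.mem_filter, Finset.mem_univ, true_and] at hY hmin
      obtain ⟨⟨hrY, hYne, hYt⟩, hY2⟩ := hY
      have hmin' : ∀ X, D.Tight E r k X → X ⊂ Y → X.card = 1 := by
        intro X hX hXY
        by_contra hc
        have h1 : X.card < Y.card := Finset.card_lt_card hXY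
        have h2 : 0 < X.card := Finset.card_pos.2 hX.2.1
        have h3 := hmin X ⟨hX, by omega⟩
        omega
      rcases hYt with hYt | hYt
      · exact step D hKS hC hno Y hrY hY2 hYt hmin'
      · refine step D.rev hKS.rev hC.rev ?_ Y hrY hY2 (by rw [outd_rev]; exact hYt) ?_
        · intro v hv h
          rw [outd_rev, ind_rev] at h
          exact hno v hv ⟨h.2, h.1⟩
        · intro X hX hXY
          apply hmin' X ?_ hXY
          obtain ⟨h1, h2, h3⟩ := hX
          rw [outd_rev, ind_rev] at h3
          exact ⟨h1, h2, h3.symm⟩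
    · -- all tight sets avoiding r are singletons
      have hsing : ∀ X, D.Tight E r k X → X.card = 1 := by
        intro X hX
        by_contra hc
        have h2 : 0 < X.card := Finset.card_pos.2 hX.2.1
        exact hex ⟨X, hX, by omega⟩
      have hu : ∀ x : V, ({x} : Finset V) ≠ Finset.univ := by
        intro x h
        have := Finset.card_univ (α := V)
        rw [← h, Finset.card_singleton, hn] at this
        omega
      set a := Finset.univ.filter fun x : V => x ≠ r ∧ D.outd E {x} = k with ha
      set b := Finset.univ.filter fun x : V => x ≠ r ∧ D.ind E {x} = k with hb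
      have hab : Disjoint a b := by
        rw [Finset.disjoint_left]
        intro x h1 h2
        rw [ha, Finset.mem_filter] at h1
        rw [hb, Finset.mem_filter] at h2
        exact hno x h1.2.1 ⟨h1.2.2, h2.2.2⟩
      have hsa : ∑ y ∈ a, D.outd E {y} = k * a.card := by
        rw [Finset.sum_congr rfl (fun y hy => (Finset.mem_filter.1 hy).2.2), Finset.sum_const,
          smul_eq_mul, mul_comm]
      have hsb : ∑ y ∈ b, D.ind E {y} = k * b.card := by
        rw [Finset.sum_congr rfl (fun y hy => (Finset.mem_filter.1 hy).2.2), Finset.sum_const,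
          smul_eq_mul, mul_comm]
      -- all arcs
      have h1 : (E.filter fun e => D.tgt e ∈ (Finset.univ : Finset V) ∧ D.src e ≠ D.tgt e).card ≤
          k * a.card + k * b.card := by
        rw [← hsa, ← hsb, sum_outd, sum_ind]
        simp only [Finset.card_filter, ← Finset.sum_add_distrib]
        refine Finset.sum_le_sum fun e he => ?_
        by_cases hne : D.src e = D.tgt e
        · simp [hne]
        · have h2 : D.src e ∈ a ∨ D.tgt e ∈ b := by
            obtain ⟨X, hrX, h | h⟩ := crit_tight hC r e he hne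
            · obtain ⟨g1, g2, g3⟩ := h
              left
              obtain ⟨z, hz⟩ := Finset.card_eq_one.1 (hsing X ⟨hrX, ⟨_, g1⟩, Or.inl g3⟩)
              rw [hz, Finset.mem_singleton] at g1
              rw [ha, Finset.mem_filter]
              refine ⟨Finset.mem_univ _, ?_, ?_⟩
              · intro h4
                rw [hz, Finset.mem_singleton] at hrX
                exact hrX (h4.symm.trans g1)
              · rw [g1, ← hz]; exact g3
            · obtain ⟨g1, g2, g3⟩ := h
              right
              obtain ⟨z, hz⟩ := Finset.card_eq_one.1 (hsing X ⟨hrX, ⟨_, g2⟩, Or.inr g3⟩)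
              rw [hz, Finset.mem_singleton] at g2
              rw [hb, Finset.mem_filter]
              refine ⟨Finset.mem_univ _, ?_, ?_⟩
              · intro h4
                rw [hz, Finset.mem_singleton] at hrX
                exact hrX (h4.symm.trans g2)
              · rw [g2, ← hz]; exact g3
          rcases h2 with h2 | h2
          · simp only [h2, hne, ne_eq, not_false_eq_true, and_self, if_true, Finset.mem_univ]
            omega
          · simp only [h2, hne, ne_eq, not_false_eq_true, and_self, if_true, Finset.mem_univ]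
            omega
      rw [← sum_ind] at h1
      have h2 : ∑ y ∈ (Finset.univ : Finset V), k ≤ ∑ y ∈ (Finset.univ : Finset V), D.ind E {y} :=
        Finset.sum_le_sum fun y _ => hKS.ind (Finset.singleton_nonempty y) (hu y)
      rw [Finset.sum_const, smul_eq_mul, Finset.card_univ, hn] at h2
      have h3 : (a ∪ b).card = a.card + b.card := Finset.card_union_of_disjoint hab
      have h4 : (a ∪ b).card < n := by
        rw [← hn, ← Finset.card_univ]
        apply Finset.card_lt_card
        rw [Finset.ssubset_univ_iff]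
        apply ne_univ_of_notMem (r := r)
        rw [Finset.mem_union, ha, hb, Finset.mem_filter, Finset.mem_filter]
        rintro (⟨-, h, -⟩ | ⟨-, h, -⟩) <;> exact h rfl
      have h5 : k * a.card + k * b.card + k ≤ n * k := by
        rw [← mul_add, ← h3, ← Nat.mul_succ, mul_comm n k]
        exact Nat.mul_le_mul_left _ h4
      omega

end MD

end Pool.Agent.Work.MP_38b5f0_co
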