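import Pool.Agent.Work.MP_38b5f0_co.Mader

set_option autoImplicit false
set_option linter.unusedSectionVars false

namespace Pool.Agent.Work.MP_38b5f0_co

namespace MD

universe u w

section

variable {V : Type u} {A : Type w} [Fintype V] [DecidableEq V] [DecidableEq A]

/-- Contracting a root `r` all of whose out-arcs go to `s`, together with `s`, keeps criticality, if
`s` has out-degree and in-degree `k`. -/
lemma crit_pair {D : MD V A} {E : Finset A} {k : ℕ} (hKS : D.KS E k) (hC : D.Crit E k) {r s : V}
    (hrs : r ≠ s) (h1 : ∀ e ∈ E, D.src e = r → D.tgt e ≠ r → D.tgt e = s)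
    (h2 : D.outd E {s} = k) (h3 : D.ind E {s} = k) (hu : ({r, s} : Finset V) ≠ Finset.univ) :
    ∀ e ∈ E, D.src e ≠ D.tgt e → ¬ (D.src e ∈ ({r, s} : Finset V) ∧ D.tgt e ∈ ({r, s} : Finset V)) →
      ∃ X : Finset V, D.src e ∈ X ∧ D.tgt e ∉ X ∧ D.outd E X = k ∧
        (({r, s} : Finset V) ⊆ X ∨ Disjoint ({r, s} : Finset V) X) := by
  classical
  have hur : ({r} : Finset V) ≠ Finset.univ := by
    intro h
    have := Finset.mem_univ s
    rw [← h, Finset.mem_singleton] at this
    exact hrs this.symm
  have hr : k ≤ D.outd E {r} := hKS _ (Finset.singleton_nonempty r) hur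
  -- the arcs from `r` to `s`
  set R := E.filter fun e => D.src e ∈ ({r} : Finset V) ∧ D.tgt e ∉ ({r} : Finset V) with hR
  have hRc : k ≤ R.card := hr
  have hRs : R ⊆ E.filter fun e => D.src e ∉ ({s} : Finset V) ∧ D.tgt e ∈ ({s} : Finset V) := by
    intro e he
    rw [hR, Finset.mem_filter, Finset.mem_singleton, Finset.mem_singleton] at he
    rw [Finset.mem_filter, Finset.mem_singleton, Finset.mem_singleton]
    refine ⟨he.1, ?_, h1 e he.1 he.2.1 he.2.2⟩
    rw [he.2.1]; exact hrs
  have hReq : R = E.filter fun e => D.src e ∉ ({s} : Finset V) ∧ D.tgt e ∈ ({s} : Finset V) := by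
    apply Finset.eq_of_subset_of_card_le hRs
    have : (E.filter fun e => D.src e ∉ ({s} : Finset V) ∧ D.tgt e ∈ ({s} : Finset V)).card = k := h3
    omega
  have hRk : R.card = k := by rw [hReq]; exact h3
  -- all arcs into `s` come from `r`
  have hins : ∀ e ∈ E, D.tgt e = s → D.src e ≠ s → D.src e = r := by
    intro e he h h'
    have : e ∈ R := by
      rw [hReq, Finset.mem_filter, Finset.mem_singleton, Finset.mem_singleton]
      exact ⟨he, h', h⟩
    rw [hR, Finset.mem_filter, Finset.mem_singleton] at this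
    exact this.2.1
  -- the out-cut of `{r, s}`
  have hrs_out : D.outd E {r, s} = k ∧ ∀ e ∈ E, D.src e = s → D.tgt e ≠ r := by
    have h4 : k ≤ D.outd E {r, s} := hKS _ ⟨r, by simp⟩ hu
    have h5 : (E.filter fun e => D.src e ∈ ({r, s} : Finset V) ∧ D.tgt e ∉ ({r, s} : Finset V)) ⊆
        E.filter fun e => D.src e ∈ ({s} : Finset V) ∧ D.tgt e ∉ ({s} : Finset V) := by
      intro e he
      simp only [Finset.mem_filter, Finset.mem_insert, Finset.mem_singleton, not_or] at he ⊢
      obtain ⟨he, h6 | h6, h7, h8⟩ := he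
      · exact absurd (h1 e he h6 h7) h8
      · exact ⟨he, h6, h8⟩
    have h6 := Finset.card_le_card h5
    have h7 : (E.filter fun e => D.src e ∈ ({s} : Finset V) ∧ D.tgt e ∉ ({s} : Finset V)).card = k := h2
    have h8 : D.outd E {r, s} = (E.filter fun e => D.src e ∈ ({r, s} : Finset V) ∧
      D.tgt e ∉ ({r, s} : Finset V)).card := rfl
    refine ⟨by omega, ?_⟩
    have h9 := Finset.eq_of_subset_of_card_le h5 (by omega)
    intro e he hs hr'
    have h10 : e ∈ E.filter fun e => D.src e ∈ ({s} : Finset V) ∧ D.tgt e ∉ ({s} : Finset V) := by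
      simp only [Finset.mem_filter, Finset.mem_singleton]
      exact ⟨he, hs, by rw [hr']; exact hrs⟩
    rw [← h9] at h10
    simp only [Finset.mem_filter, Finset.mem_insert, Finset.mem_singleton, not_or] at h10
    exact h10.2.2.1 hr'
  intro e he hne hnin
  obtain ⟨X, g1, g2, g3⟩ := hC e he hne
  by_cases hrX : r ∈ X
  · by_cases hsX : s ∈ X
    · refine ⟨X, g1, g2, g3, Or.inl ?_⟩
      intro x hx
      rw [Finset.mem_insert, Finset.mem_singleton] at hx
      rcases hx with rfl | rfl
      · exact hrX
      · exact hsX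
    · -- all arcs leaving `X` are arcs from `r` to `s`
      exfalso
      have h4 : R ⊆ E.filter fun e => D.src e ∈ X ∧ D.tgt e ∉ X := by
        intro g hg
        rw [hR, Finset.mem_filter, Finset.mem_singleton, Finset.mem_singleton] at hg
        rw [Finset.mem_filter]
        refine ⟨hg.1, by rw [hg.2.1]; exact hrX, ?_⟩
        rw [h1 g hg.1 hg.2.1 hg.2.2]
        exact hsX
      have h5 : (E.filter fun e => D.src e ∈ X ∧ D.tgt e ∉ X).card = k := g3
      have h6 := Finset.eq_of_subset_of_card_le h4 (by omega)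
      have h7 : e ∈ R := by
        rw [h6, Finset.mem_filter]
        exact ⟨he, g1, g2⟩
      rw [hR, Finset.mem_filter, Finset.mem_singleton, Finset.mem_singleton] at h7
      apply hnin
      rw [h7.2.1, h1 e he h7.2.1 h7.2.2]
      simp
  · by_cases hsX : s ∈ X
    · by_cases hX : X = {s}
      · -- `e` leaves `s`
        subst hX
        rw [Finset.mem_singleton] at g1 g2
        refine ⟨{r, s}, by simp [g1], ?_, hrs_out.1, Or.inl (Finset.Subset.refl _)⟩
        rw [Finset.mem_insert, Finset.mem_singleton, not_or]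
        exact ⟨hrs_out.2 e he g1, g2⟩
      · have hne' : (X.erase s).Nonempty := by
          by_contra h
          rw [Finset.not_nonempty_iff_eq_empty, Finset.erase_eq_empty_iff] at h
          rcases h with h | h
          · rw [h] at hsX; simp at hsX
          · exact hX h
        have h4 : k ≤ D.outd E (X.erase s) := hKS _ hne' (ne_univ_of_notMem (r := r) (by
          simp [hrX]))
        have h5 : (E.filter fun e => D.src e ∈ X.erase s ∧ D.tgt e ∉ X.erase s) ⊆
            E.filter fun e => D.src e ∈ X ∧ D.tgt e ∉ X := by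
          intro g hg
          simp only [Finset.mem_filter, Finset.mem_erase, not_and] at hg ⊢
          obtain ⟨hg, ⟨h6, h7⟩, h8⟩ := hg
          refine ⟨hg, h7, ?_⟩
          by_cases h9 : D.tgt g = s
          · exfalso
            apply hrX
            rw [← hins g hg h9 h6]
            exact h7
          · exact h8 h9
        have h6 := Finset.card_le_card h5
        have h7 : (E.filter fun e => D.src e ∈ X ∧ D.tgt e ∉ X).card = k := g3
        have h8 : D.outd E (X.erase s) = (E.filter fun e => D.src e ∈ X.erase s ∧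
          D.tgt e ∉ X.erase s).card := rfl
        have h9 := Finset.eq_of_subset_of_card_le h5 (by omega)
        have h10 : e ∈ E.filter fun e => D.src e ∈ X ∧ D.tgt e ∉ X := by
          rw [Finset.mem_filter]; exact ⟨he, g1, g2⟩
        rw [← h9, Finset.mem_filter] at h10
        refine ⟨X.erase s, h10.2.1, h10.2.2, by omega, Or.inr ?_⟩
        rw [Finset.disjoint_left]
        intro x hx hx'
        rw [Finset.mem_insert, Finset.mem_singleton] at hx
        rcases hx with rfl | rfl
        · exact hrX (Finset.mem_of_mem_erase hx')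
        · simp at hx'
    · refine ⟨X, g1, g2, g3, Or.inr ?_⟩
      rw [Finset.disjoint_left]
      intro x hx hx'
      rw [Finset.mem_insert, Finset.mem_singleton] at hx
      rcases hx with rfl | rfl
      · exact hrX hx'
      · exact hsX hx'

lemma filter_cq_some {Y : Finset V} (v : {x : V // x ∉ Y}) :
    (Finset.univ.filter fun x => cq Y x ∈ ({some v} : Finset (Option {x : V // x ∉ Y}))) = {v.1} := by
  ext x
  simp only [Finset.mem_filter, Finset.mem_univ, true_and, Finset.mem_singleton]
  constructor
  · intro h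
    by_cases hx : x ∈ Y
    · rw [cq_mem hx] at h
      simp at h
    · rw [cq_notMem hx] at h
      simp only [Option.some.injEq] at h
      rw [← h]
  · rintro rfl
    exact cq_notMem v.2

lemma outd_contr_some (D : MD V A) (E : Finset A) (Y : Finset V) (v : {x : V // x ∉ Y}) :
    (D.contr Y).outd E {some v} = D.outd E {v.1} := by
  rw [outd_contr, filter_cq_some]

lemma ind_contr_some (D : MD V A) (E : Finset A) (Y : Finset V) (v : {x : V // x ∉ Y}) :
    (D.contr Y).ind E {some v} = D.ind E {v.1} := by
  rw [ind_contr, filter_cq_some]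

/-- Mader's lemma avoiding `r`, `s`, `t`: the case where `s` has in- and out-degree `k`. -/
lemma mader_st_aux {k : ℕ} (hk : 1 ≤ k) (D : MD V A) (E : Finset A) (r s t : V)
    (hrs : r ≠ s) (hrt : r ≠ t) (hst : s ≠ t) (hn : 4 ≤ Fintype.card V)
    (hKS : D.KS E k) (hC : D.Crit E k)
    (h1 : ∀ e ∈ E, D.src e = r → D.tgt e ≠ r → D.tgt e = s)
    (h1' : ∀ e ∈ E, D.tgt e = r → D.src e ≠ r → D.src e = t)
    (h2 : D.outd E {s} = k) (h3 : D.ind E {s} = k) :
    ∃ v, v ≠ r ∧ v ≠ s ∧ v ≠ t ∧ D.outd E {v} = k ∧ D.ind E {v} = k := by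
  classical
  have hu : ({r, s} : Finset V) ≠ Finset.univ := by
    intro h
    have h4 := Finset.card_le_two (a := r) (b := s)
    rw [h, Finset.card_univ] at h4
    omega
  have hYne : ({r, s} : Finset V).Nonempty := ⟨r, by simp⟩
  have hYc : ({r, s} : Finset V).card = 2 := Finset.card_pair hrs
  have hC1 := Crit_contr (crit_pair hKS hC hrs h1 h2 h3 hu)
  have hKS1 : (D.contr {r, s}).KS E k := KS_contr hKS hYne
  have hcard1 := card_contr (Y := ({r, s} : Finset V))
  rw [hYc] at hcard1
  obtain ⟨v, hv, hv1, hv2⟩ := mader hk _ _ A (D.contr {r, s}) E none rfl (by omega) hKS1 hC1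
  obtain ⟨v, rfl⟩ : ∃ v', v = some v' := Option.ne_none_iff_exists'.1 hv
  rw [outd_contr_some] at hv1
  rw [ind_contr_some] at hv2
  have hvY := v.2
  rw [Finset.mem_insert, Finset.mem_singleton, not_or] at hvY
  by_cases hvt : v.1 = t
  · -- `t` is tight as well
    rw [hvt] at hv1 hv2
    have htY : t ∉ ({r, s} : Finset V) := by
      rw [← hvt]; exact v.2
    set D1 := D.contr {r, s} with hD1
    set t1 : Option {x : V // x ∉ ({r, s} : Finset V)} := some ⟨t, htY⟩ with ht1
    -- all arcs out of `t` go to `r`
    have hur : ({r} : Finset V) ≠ Finset.univ := by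
      intro h
      have := Finset.mem_univ s
      rw [← h, Finset.mem_singleton] at this
      exact hrs this.symm
    have hr : k ≤ D.ind E {r} := hKS.ind (Finset.singleton_nonempty r) hur
    -- all arcs into `s` come from `r`
    have hins : ∀ e ∈ E, D.tgt e = s → D.src e ≠ s → D.src e = r := by
      have hr' : k ≤ D.outd E {r} := hKS _ (Finset.singleton_nonempty r) hur
      have hRs : (E.filter fun e => D.src e ∈ ({r} : Finset V) ∧ D.tgt e ∉ ({r} : Finset V)) ⊆
          E.filter fun e => D.src e ∉ ({s} : Finset V) ∧ D.tgt e ∈ ({s} : Finset V) := by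
        intro e he
        rw [Finset.mem_filter, Finset.mem_singleton, Finset.mem_singleton] at he
        rw [Finset.mem_filter, Finset.mem_singleton, Finset.mem_singleton]
        refine ⟨he.1, ?_, h1 e he.1 he.2.1 he.2.2⟩
        rw [he.2.1]; exact hrs
      have hReq := Finset.eq_of_subset_of_card_le hRs (by
        have h4 : (E.filter fun e => D.src e ∉ ({s} : Finset V) ∧ D.tgt e ∈ ({s} : Finset V)).card =
          k := h3
        have h5 : k ≤ (E.filter fun e => D.src e ∈ ({r} : Finset V) ∧
          D.tgt e ∉ ({r} : Finset V)).card := hr'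
        omega)
      intro e he h h'
      have h6 : e ∈ E.filter fun e => D.src e ∉ ({s} : Finset V) ∧ D.tgt e ∈ ({s} : Finset V) := by
        rw [Finset.mem_filter, Finset.mem_singleton, Finset.mem_singleton]
        exact ⟨he, h', h⟩
      rw [← hReq, Finset.mem_filter, Finset.mem_singleton] at h6
      exact h6.2.1
    have hC2 := crit_pair (D := D1.rev) (E := E) (k := k) hKS1.rev hC1.rev
      (r := none) (s := t1) (by simp [ht1]) (by
        intro e he h4 h5
        -- an arc of `D1` into the contracted vertex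
        have h4' : cq {r, s} (D.tgt e) = none := h4
        have h5' : cq {r, s} (D.src e) ≠ none := h5
        have h6 : D.tgt e ∈ ({r, s} : Finset V) := by
          by_contra h
          rw [cq_notMem h] at h4'
          simp at h4'
        have h7 : D.src e ∉ ({r, s} : Finset V) := fun h => h5' (cq_mem h)
        have h8 : D.src e = t := by
          rw [Finset.mem_insert, Finset.mem_singleton] at h6
          rw [Finset.mem_insert, Finset.mem_singleton, not_or] at h7
          rcases h6 with h6 | h6
          · exact h1' e he h6 h7.1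
          · exact absurd (hins e he h6 h7.2) h7.1
        change cq {r, s} (D.src e) = t1
        rw [h8, cq_notMem htY])
      (by rw [outd_rev, hD1, ht1, ind_contr_some]; exact hv2)
      (by rw [ind_rev, hD1, ht1, outd_contr_some]; exact hv1)
      (by
        intro h
        have h4 := Finset.card_le_two (a := (none : Option {x : V // x ∉ ({r, s} : Finset V)})) (b := t1)
        rw [h, Finset.card_univ] at h4
        omega)
    have hC2' := Crit_contr hC2
    have hKS2 : (D1.rev.contr {none, t1}).KS E k := KS_contr hKS1.rev ⟨none, by simp⟩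
    have hcard2 := card_contr (Y := ({none, t1} : Finset (Option {x : V // x ∉ ({r, s} : Finset V)})))
    rw [Finset.card_pair (by simp [ht1])] at hcard2
    obtain ⟨u, hu0, hu1, hu2⟩ := mader hk _ _ A (D1.rev.contr {none, t1}) E none rfl (by omega)
      hKS2 hC2'
    obtain ⟨u, rfl⟩ : ∃ u', u = some u' := Option.ne_none_iff_exists'.1 hu0
    rw [outd_contr_some, outd_rev] at hu1
    rw [ind_contr_some, ind_rev] at hu2
    obtain ⟨u, huY⟩ := u
    rw [Finset.mem_insert, Finset.mem_singleton, not_or] at huY
    obtain ⟨u, rfl⟩ : ∃ u', u = some u' := Option.ne_none_iff_exists'.1 huY.1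
    simp only [hD1] at hu1 hu2
    rw [ind_contr_some] at hu1
    rw [outd_contr_some] at hu2
    have huY' := u.2
    rw [Finset.mem_insert, Finset.mem_singleton, not_or] at huY'
    refine ⟨u.1, huY'.1, huY'.2, ?_, hu2, hu1⟩
    intro h
    apply huY.2
    rw [ht1]
    congr 1
    exact Subtype.ext h
  · exact ⟨v.1, hvY.1, hvY.2, hvt, hv1, hv2⟩

/-- Mader's lemma avoiding a root `r` whose out-arcs all go to `s` and whose in-arcs all come from
`t`, and avoiding `s` and `t`. -/
theorem mader_st {k : ℕ} (hk : 1 ≤ k) (D : MD V A) (E : Finset A) (r s t : V)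
    (hrs : r ≠ s) (hrt : r ≠ t) (hst : s ≠ t) (hn : 4 ≤ Fintype.card V)
    (hKS : D.KS E k) (hC : D.Crit E k)
    (h1 : ∀ e ∈ E, D.src e = r → D.tgt e ≠ r → D.tgt e = s)
    (h1' : ∀ e ∈ E, D.tgt e = r → D.src e ≠ r → D.src e = t) :
    ∃ v, v ≠ r ∧ v ≠ s ∧ v ≠ t ∧ D.outd E {v} = k ∧ D.ind E {v} = k := by
  obtain ⟨v, hv, hv1, hv2⟩ := mader hk _ _ A D E r rfl (by omega) hKS hC
  by_cases hvs : v = s
  · rw [hvs] at hv1 hv2
    exact mader_st_aux hk D E r s t hrs hrt hst hn hKS hC h1 h1' hv1 hv2
  · by_cases hvt : v = t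
    · rw [hvt] at hv1 hv2
      obtain ⟨u, h4, h5, h6, h7, h8⟩ := mader_st_aux hk D.rev E r t s hrt hrs hst.symm hn hKS.rev
        hC.rev h1' h1 (by rw [outd_rev]; exact hv2) (by rw [ind_rev]; exact hv1)
      rw [outd_rev] at h7
      rw [ind_rev] at h8
      exact ⟨u, h4, h6, h5, h8, h7⟩
    · exact ⟨v, hv, hvs, hvt, hv1, hv2⟩

end

end MD

end Pool.Agent.Work.MP_38b5f0_co
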