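import Pool.Agent.Work.MP_38b5f0_co.Cuts

set_option autoImplicit false
set_option linter.unusedSectionVars false

namespace Pool.Agent.Work.MP_38b5f0_co

namespace MD

variable {V A : Type*} [Fintype V] [DecidableEq V] [DecidableEq A]

/-- all cuts separating `V - v` are large -/
def CutC (D : MD V A) (E : Finset A) (v : V) (k : ℕ) : Prop :=
  ∀ X : Finset V, v ∉ X → X.Nonempty → X ≠ Finset.univ.erase v → k ≤ D.outd E X ∧ k ≤ D.ind E X

lemma submod_ind (D : MD V A) (E : Finset A) (X Z : Finset V) :
    D.ind E (X ∩ Z) + D.ind E (X ∪ Z) ≤ D.ind E X + D.ind E Z := by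
  have h := D.rev.submod E X Z
  simp only [outd_rev] at h
  omega

lemma split_one (D : MD V A) (E : Finset A) (v : V) (k : ℕ) (hC : D.CutC E v k)
    (hbal : D.outd E {v} = D.ind E {v}) (f : A) (hf : f ∈ E) (hfs : D.src f = v)
    (hft : D.tgt f ≠ v) :
    ∃ e ∈ E, D.tgt e = v ∧ D.src e ≠ v ∧ ∀ X : Finset V, v ∉ X → X ≠ Finset.univ.erase v →
      D.src e ∈ X → D.tgt f ∈ X → D.outd E X ≠ k ∧ D.ind E X ≠ k := by
  classical
  by_contra hcon
  push Not at hcon
  -- tight sets
  let T : Finset V → Prop := fun X => v ∉ X ∧ X ≠ Finset.univ.erase v ∧ D.tgt f ∈ X ∧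
    (D.outd E X = k ∨ D.ind E X = k)
  have hcon' : ∀ e ∈ E, D.tgt e = v → D.src e ≠ v → ∃ X, T X ∧ D.src e ∈ X := by
    intro e he h1 h2
    obtain ⟨X, h3, h4, h5, h6, h7⟩ := hcon e he h1 h2
    refine ⟨X, ⟨h3, h4, h6, ?_⟩, h5⟩
    by_cases h8 : D.outd E X = k
    · exact Or.inl h8
    · exact Or.inr (h7 h8)
  -- there is an in-arc
  have hin : ∃ e ∈ E, D.tgt e = v ∧ D.src e ≠ v := by
    have h1 : 0 < D.outd E {v} := by
      rw [outd, Finset.card_pos]
      exact ⟨f, by simp [hf, hfs, hft]⟩
    rw [hbal, ind, Finset.card_pos] at h1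
    obtain ⟨e, he⟩ := h1
    simp only [Finset.mem_filter, Finset.mem_singleton] at he
    exact ⟨e, he.1, he.2.2, he.2.1⟩
  obtain ⟨e0, he0, he0t, he0s⟩ := hin
  obtain ⟨X0, hX0, -⟩ := hcon' e0 he0 he0t he0s
  obtain ⟨M, hM, hmax⟩ := Finset.exists_max_image (Finset.univ.filter fun X => T X) Finset.card
    ⟨X0, by simp [hX0]⟩
  simp only [Finset.mem_filter, Finset.mem_univ, true_and] at hM hmax
  have hmax' : ∀ Z, T Z → M ⊆ Z → Z ⊆ M := by
    intro Z hZ hMZ
    have h1 := hmax Z hZ
    rw [Finset.eq_of_subset_of_card_le hMZ h1]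
  obtain ⟨hvM, hMu, hwM, hMt⟩ := hM
  have hfM : ∀ Z, T Z → (Finset.filter (fun e => (D.src e ∈ M ∩ Z ∧ D.tgt e ∉ M ∪ Z) ∨
        (D.src e ∉ M ∪ Z ∧ D.tgt e ∈ M ∩ Z)) E).Nonempty := by
    rintro Z ⟨hvZ, hZu, hwZ, hZt⟩
    refine ⟨f, ?_⟩
    rw [Finset.mem_filter]
    refine ⟨hf, Or.inr ⟨?_, ?_⟩⟩
    · rw [hfs]; simp [hvM, hvZ]
    · simp [hwM, hwZ]
  have hfM' : ∀ Z, T Z → (Finset.filter (fun e => (D.src e ∈ Z ∩ M ∧ D.tgt e ∉ Z ∪ M) ∨
        (D.src e ∉ Z ∪ M ∧ D.tgt e ∈ Z ∩ M)) E).Nonempty := by
    intro Z hZ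
    rw [Finset.inter_comm, Finset.union_comm]
    exact hfM Z hZ
  have hdiff : ∀ X Z : Finset V, v ∉ X → D.tgt f ∈ Z → (X \ Z).Nonempty →
      k ≤ D.outd E (X \ Z) ∧ k ≤ D.ind E (X \ Z) := by
    intro X Z h1 h2 h3
    refine hC _ (fun h => h1 (Finset.mem_sdiff.1 h).1) h3 ?_
    intro h4
    have : D.tgt f ∈ X \ Z := by rw [h4]; simp [hft]
    exact (Finset.mem_sdiff.1 this).2 h2
  -- sets of different type are nested
  have hmixed : ∀ Z, T Z → ((D.outd E M = k ∧ D.ind E Z = k) ∨ (D.ind E M = k ∧ D.outd E Z = k)) →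
      Z ⊆ M := by
    intro Z hZ h
    by_contra hZM
    have hZM' : (Z \ M).Nonempty := by
      rw [Finset.nonempty_iff_ne_empty, ne_eq, Finset.sdiff_eq_empty_iff_subset]; exact hZM
    have hMZ' : (M \ Z).Nonempty := by
      rw [Finset.nonempty_iff_ne_empty, ne_eq, Finset.sdiff_eq_empty_iff_subset]
      intro h2
      exact hZM (hmax' Z hZ h2)
    have h1 := hdiff Z M hZ.1 hwM hZM'
    have h2 := hdiff M Z hvM hZ.2.2.1 hMZ'
    rcases h with ⟨h3, h4⟩ | ⟨h3, h4⟩
    · have h5 := D.submod' E M Z
      have h6 := (hfM Z hZ).card_pos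
      omega
    · have h5 := D.submod' E Z M
      have h6 := (hfM' Z hZ).card_pos
      omega
  have hcover : ∀ Z, T Z → Z ⊆ M ∨ (M ∪ Z = Finset.univ.erase v ∧
      ((D.outd E M = k ∧ D.outd E Z = k) ∨ (D.ind E M = k ∧ D.ind E Z = k))) := by
    intro Z hZ
    obtain ⟨hvZ, hZu, hwZ, hZt⟩ := id hZ
    by_cases hu : M ∪ Z = Finset.univ.erase v
    · rcases hMt with h1 | h1 <;> rcases hZt with h2 | h2
      · exact Or.inr ⟨hu, Or.inl ⟨h1, h2⟩⟩
      · exact Or.inl (hmixed Z hZ (Or.inl ⟨h1, h2⟩))
      · exact Or.inl (hmixed Z hZ (Or.inr ⟨h1, h2⟩))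
      · exact Or.inr ⟨hu, Or.inr ⟨h1, h2⟩⟩
    · left
      have hvU : v ∉ M ∪ Z := by simp [hvM, hvZ]
      have hvI : v ∉ M ∩ Z := by simp [hvM]
      have hI : M ∩ Z ≠ Finset.univ.erase v := by
        intro h
        apply hMu
        apply Finset.Subset.antisymm
        · intro x hx
          rw [Finset.mem_erase]
          exact ⟨fun h' => hvM (h' ▸ hx), Finset.mem_univ _⟩
        · rw [← h]; exact Finset.inter_subset_left
      have hU' := hC (M ∪ Z) hvU ⟨_, Finset.mem_union_left _ hwM⟩ hu
      have hI' := hC (M ∩ Z) hvI ⟨_, Finset.mem_inter.2 ⟨hwM, hwZ⟩⟩ hI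
      rcases hMt with h1 | h1 <;> rcases hZt with h2 | h2
      · have h3 := D.submod E M Z
        have h4 : T (M ∪ Z) := ⟨hvU, hu, Finset.mem_union_left _ hwM, Or.inl (by omega)⟩
        exact Finset.subset_union_right.trans (hmax' _ h4 Finset.subset_union_left)
      · exact hmixed Z hZ (Or.inl ⟨h1, h2⟩)
      · exact hmixed Z hZ (Or.inr ⟨h1, h2⟩)
      · have h3 := D.submod_ind E M Z
        have h4 : T (M ∪ Z) := ⟨hvU, hu, Finset.mem_union_left _ hwM, Or.inr (by omega)⟩
        exact Finset.subset_union_right.trans (hmax' _ h4 Finset.subset_union_left)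
  -- complement in V - v
  have hcompl : ∀ X : Finset V, v ∉ X → X ≠ Finset.univ.erase v → D.tgt f ∈ X →
      k ≤ D.outd E ((Finset.univ.erase v) \ X) ∧ k ≤ D.ind E ((Finset.univ.erase v) \ X) := by
    intro X h1 h2 h3
    apply hdiff _ _ (by simp) h3
    rw [Finset.nonempty_iff_ne_empty, ne_eq, Finset.sdiff_eq_empty_iff_subset]
    intro h4
    apply h2
    apply Finset.Subset.antisymm _ h4
    intro x hx
    rw [Finset.mem_erase]
    exact ⟨fun h' => h1 (h' ▸ hx), Finset.mem_univ _⟩
  have hMc := hcompl M hvM hMu hwM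
  by_cases hall : ∀ Z, T Z → Z ⊆ M
  · have hsrc : ∀ e ∈ E, D.tgt e = v → D.src e ≠ v → D.src e ∈ M := by
      intro e he h1 h2
      obtain ⟨X, hX, h3⟩ := hcon' e he h1 h2
      exact hall X hX h3
    rcases hMt with hMt | hMt
    · have key : D.ind E ((Finset.univ.erase v) \ M) + D.ind E {v} + 1 ≤
          D.outd E M + D.outd E {v} := by
        have h1 : (1 : ℕ) = ∑ e ∈ E, if e = f then 1 else 0 := by simp [hf]
        rw [h1]
        simp only [outd, ind, Finset.card_filter, ← Finset.sum_add_distrib]
        refine Finset.sum_le_sum fun e he => ?_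
        have h2 := hsrc e he
        by_cases hef : e = f
        · subst hef
          simp only [hfs, Finset.mem_sdiff, Finset.mem_erase, Finset.mem_singleton, hwM, hvM]
          simp [hft]
        · clear * - h2 hef hvM
          by_cases q1 : D.src e = v
          · by_cases q2 : D.tgt e = v
            · simp [q1, q2, hef, hvM]
            · by_cases q4 : D.tgt e ∈ M <;> simp_all
          · by_cases q2 : D.tgt e = v
            · by_cases q3 : D.src e ∈ M <;> simp_all
            · by_cases q3 : D.src e ∈ M <;> by_cases q4 : D.tgt e ∈ M <;> simp_all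
      omega
    · have key : D.outd E ((Finset.univ.erase v) \ M) + 1 ≤ D.ind E M := by
        have h1 : (1 : ℕ) = ∑ e ∈ E, if e = f then 1 else 0 := by simp [hf]
        rw [h1]
        simp only [outd, ind, Finset.card_filter, ← Finset.sum_add_distrib]
        refine Finset.sum_le_sum fun e he => ?_
        have h2 := hsrc e he
        by_cases hef : e = f
        · subst hef
          simp only [hfs, Finset.mem_sdiff, Finset.mem_erase, hwM, hvM]
          simp
        · clear * - h2 hef hvM
          by_cases q1 : D.src e = v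
          · by_cases q2 : D.tgt e = v
            · simp [q1, q2, hef, hvM]
            · by_cases q4 : D.tgt e ∈ M <;> simp_all
          · by_cases q2 : D.tgt e = v
            · by_cases q3 : D.src e ∈ M <;> simp_all
            · by_cases q3 : D.src e ∈ M <;> by_cases q4 : D.tgt e ∈ M <;> simp_all
      omega
  · push Not at hall
    obtain ⟨Z, hZ, hZM⟩ := hall
    obtain ⟨hvZ, hZu, hwZ, hZt⟩ := id hZ
    rcases hcover Z hZ with h | ⟨hu, h⟩
    · exact hZM h
    have hZc := hcompl Z hvZ hZu hwZ
    have hor : ∀ x, x ≠ v → x ∈ M ∨ x ∈ Z := by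
      intro x hx
      rw [← Finset.mem_union, hu]
      simp [hx]
    rcases h with ⟨h1, h2⟩ | ⟨h1, h2⟩
    · have key : D.ind E ((Finset.univ.erase v) \ M) + D.ind E ((Finset.univ.erase v) \ Z) +
          D.ind E {v} + 1 ≤ D.outd E M + D.outd E Z + D.outd E {v} := by
        have h1 : (1 : ℕ) = ∑ e ∈ E, if e = f then 1 else 0 := by simp [hf]
        rw [h1]
        simp only [outd, ind, Finset.card_filter, ← Finset.sum_add_distrib]
        refine Finset.sum_le_sum fun e he => ?_
        by_cases hef : e = f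
        · subst hef
          simp only [hfs, Finset.mem_sdiff, Finset.mem_erase, Finset.mem_singleton, hwM, hvM,
            hwZ, hvZ]
          simp [hft]
        · have g1 := hor (D.src e)
          have g2 := hor (D.tgt e)
          clear * - g1 g2 hef hvM hvZ
          by_cases q1 : D.src e = v
          · by_cases q2 : D.tgt e = v
            · simp [q1, q2, hef, hvM, hvZ]
            · by_cases q3 : D.tgt e ∈ M <;> by_cases q4 : D.tgt e ∈ Z <;>
                simp_all
          · by_cases q2 : D.tgt e = v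
            · by_cases q3 : D.src e ∈ M <;> by_cases q4 : D.src e ∈ Z <;>
                simp_all
            · by_cases q3 : D.src e ∈ M <;> by_cases q4 : D.src e ∈ Z <;>
                by_cases q5 : D.tgt e ∈ M <;> by_cases q6 : D.tgt e ∈ Z <;>
                simp_all
      omega
    · have key : D.outd E ((Finset.univ.erase v) \ M) + D.outd E ((Finset.univ.erase v) \ Z) +
          D.outd E {v} + 1 ≤ D.ind E M + D.ind E Z + D.ind E {v} := by
        have h1 : (1 : ℕ) = ∑ e ∈ E, if e = f then 1 else 0 := by simp [hf]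
        rw [h1]
        simp only [outd, ind, Finset.card_filter, ← Finset.sum_add_distrib]
        refine Finset.sum_le_sum fun e he => ?_
        by_cases hef : e = f
        · subst hef
          simp only [hfs, Finset.mem_sdiff, Finset.mem_erase, Finset.mem_singleton, hwM, hvM,
            hwZ, hvZ]
          simp [hft]
        · have g1 := hor (D.src e)
          have g2 := hor (D.tgt e)
          clear * - g1 g2 hef hvM hvZ
          by_cases q1 : D.src e = v
          · by_cases q2 : D.tgt e = v
            · simp [q1, q2, hef, hvM, hvZ]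
            · by_cases q3 : D.tgt e ∈ M <;> by_cases q4 : D.tgt e ∈ Z <;>
                simp_all
          · by_cases q2 : D.tgt e = v
            · by_cases q3 : D.src e ∈ M <;> by_cases q4 : D.src e ∈ Z <;>
                simp_all
            · by_cases q3 : D.src e ∈ M <;> by_cases q4 : D.src e ∈ Z <;>
                by_cases q5 : D.tgt e ∈ M <;> by_cases q6 : D.tgt e ∈ Z <;>
                simp_all
      omega

/-- arcs entering `v` -/
def inA (D : MD V A) (E : Finset A) (v : V) : Finset A :=
  E.filter fun e => D.src e ≠ v ∧ D.tgt e = v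

/-- arcs leaving `v` -/
def outA (D : MD V A) (E : Finset A) (v : V) : Finset A :=
  E.filter fun e => D.src e = v ∧ D.tgt e ≠ v

lemma mem_inA {D : MD V A} {E : Finset A} {v : V} {e : A} :
    e ∈ D.inA E v ↔ e ∈ E ∧ D.src e ≠ v ∧ D.tgt e = v := by
  simp [inA]

lemma mem_outA {D : MD V A} {E : Finset A} {v : V} {e : A} :
    e ∈ D.outA E v ↔ e ∈ E ∧ D.src e = v ∧ D.tgt e ≠ v := by
  simp [outA]

lemma card_inA (D : MD V A) (E : Finset A) (v : V) : (D.inA E v).card = D.ind E {v} := by
  simp only [inA, ind]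
  congr 1
  ext e
  simp

lemma card_outA (D : MD V A) (E : Finset A) (v : V) : (D.outA E v).card = D.outd E {v} := by
  simp only [outA, outd]
  congr 1
  ext e
  simp

/-- complete splitting at `v` -/
lemma split_all (v : V) (k : ℕ) : ∀ (j : ℕ) (D : MD V A) (E : Finset A), D.outd E {v} = j →
    D.ind E {v} = j → D.CutC E v k → ∃ π : A → A, (∀ e ∈ D.inA E v, π e ∈ D.outA E v) ∧
      Set.InjOn π (D.inA E v) ∧
      (MD.mk D.src fun a => if a ∈ D.inA E v then D.tgt (π a) else D.tgt a).CutC
        (E \ D.outA E v) v k := by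
  classical
  intro j
  induction j with
  | zero =>
    intro D E h1 h2 hC
    rw [← card_outA, Finset.card_eq_zero] at h1
    rw [← card_inA, Finset.card_eq_zero] at h2
    refine ⟨id, by simp [h2], by simp [h2], ?_⟩
    simp only [h1, h2, Finset.sdiff_empty, Finset.notMem_empty, if_false]
    exact hC
  | succ j ih =>
    intro D E h1 h2 hC
    have hf : (D.outA E v).Nonempty := by
      rw [← Finset.card_pos, card_outA]; omega
    obtain ⟨f, hf⟩ := hf
    obtain ⟨hfE, hfs, hft⟩ := mem_outA.1 hf
    obtain ⟨e, heE, het, hes, hsplit⟩ := D.split_one E v k hC (by omega) f hfE hfs hft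
    have hef : e ≠ f := by
      rintro rfl
      exact hes hfs
    have heI : e ∈ D.inA E v := mem_inA.2 ⟨heE, hes, het⟩
    -- the new digraph
    set D₁ : MD V A := ⟨D.src, Function.update D.tgt e (D.tgt f)⟩ with hD₁
    set E₁ := E.erase f with hE₁
    have htgt : ∀ a, a ≠ e → D₁.tgt a = D.tgt a := by
      intro a ha
      simp [hD₁, Function.update_of_ne ha]
    have htgte : D₁.tgt e = D.tgt f := by simp [hD₁]
    have hI₁ : D₁.inA E₁ v = (D.inA E v).erase e := by
      ext a
      rw [mem_inA, hE₁, Finset.mem_erase, Finset.mem_erase, mem_inA]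
      by_cases hae : a = e
      · subst hae
        rw [htgte]
        tauto
      · rw [htgt a hae]
        have : D₁.src a = D.src a := rfl
        rw [this]
        constructor
        · rintro ⟨⟨g1, g2⟩, g3, g4⟩; exact ⟨hae, g2, g3, g4⟩
        · rintro ⟨g1, g2, g3, g4⟩
          refine ⟨⟨?_, g2⟩, g3, g4⟩
          rintro rfl
          exact hft g4
    have hO₁ : D₁.outA E₁ v = (D.outA E v).erase f := by
      ext a
      rw [mem_outA, hE₁, Finset.mem_erase, Finset.mem_erase, mem_outA]
      have h3 : D₁.src a = D.src a := rfl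
      rw [h3]
      by_cases hae : a = e
      · subst hae
        tauto
      · rw [htgt a hae]
        tauto
    have hcard1 : D₁.outd E₁ {v} = j := by
      rw [← card_outA, hO₁, Finset.card_erase_of_mem hf, card_outA, h1]; rfl
    have hcard2 : D₁.ind E₁ {v} = j := by
      rw [← card_inA, hI₁, Finset.card_erase_of_mem heI, card_inA, h2]; rfl
    have hcut : D₁.CutC E₁ v k := by
      intro X hvX hXne hXu
      obtain ⟨g1, g2⟩ := hC X hvX hXne hXu
      have k1 : D.outd E X = D₁.outd E₁ X + if D.src e ∈ X ∧ D.tgt f ∈ X then 1 else 0 := by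
        simp only [outd, Finset.card_filter]
        rw [← Finset.add_sum_erase E _ hfE, hE₁,
          ← Finset.add_sum_erase (E.erase f) _ (Finset.mem_erase.2 ⟨hef, heE⟩),
          ← Finset.add_sum_erase (E.erase f) (fun e => if D₁.src e ∈ X ∧ D₁.tgt e ∉ X then 1 else 0)
            (Finset.mem_erase.2 ⟨hef, heE⟩)]
        have k3 : ∑ x ∈ (E.erase f).erase e, (if D₁.src x ∈ X ∧ D₁.tgt x ∉ X then 1 else 0) =
            ∑ x ∈ (E.erase f).erase e, (if D.src x ∈ X ∧ D.tgt x ∉ X then 1 else 0) := by
          refine Finset.sum_congr rfl fun x hx => ?_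
          rw [htgt x (Finset.mem_erase.1 hx).1]
        rw [k3, htgte]
        have k4 : D₁.src e = D.src e := rfl
        rw [k4]
        simp only [hfs, het, hvX, false_and, if_false, not_false_eq_true, and_true, zero_add]
        by_cases q1 : D.src e ∈ X <;> by_cases q2 : D.tgt f ∈ X <;> simp [q1, q2]
        omega
      have k2 : D.ind E X = D₁.ind E₁ X + if D.src e ∈ X ∧ D.tgt f ∈ X then 1 else 0 := by
        simp only [ind, Finset.card_filter]
        rw [← Finset.add_sum_erase E _ hfE, hE₁,
          ← Finset.add_sum_erase (E.erase f) _ (Finset.mem_erase.2 ⟨hef, heE⟩),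
          ← Finset.add_sum_erase (E.erase f) (fun e => if D₁.src e ∉ X ∧ D₁.tgt e ∈ X then 1 else 0)
            (Finset.mem_erase.2 ⟨hef, heE⟩)]
        have k3 : ∑ x ∈ (E.erase f).erase e, (if D₁.src x ∉ X ∧ D₁.tgt x ∈ X then 1 else 0) =
            ∑ x ∈ (E.erase f).erase e, (if D.src x ∉ X ∧ D.tgt x ∈ X then 1 else 0) := by
          refine Finset.sum_congr rfl fun x hx => ?_
          rw [htgt x (Finset.mem_erase.1 hx).1]
        rw [k3, htgte]
        have k4 : D₁.src e = D.src e := rfl
        rw [k4]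
        simp only [hfs, het, hvX, and_false, if_false, not_false_eq_true, true_and, zero_add]
        by_cases q1 : D.src e ∈ X <;> by_cases q2 : D.tgt f ∈ X <;> simp [q1, q2]
        omega
      have k3 := hsplit X hvX hXu
      by_cases q : D.src e ∈ X ∧ D.tgt f ∈ X
      · rw [if_pos q] at k1 k2
        have := k3 q.1 q.2
        omega
      · rw [if_neg q] at k1 k2
        omega
    obtain ⟨π, hπ1, hπ2, hπ3⟩ := ih D₁ E₁ hcard1 hcard2 hcut
    rw [hI₁, hO₁] at hπ1 hπ3
    rw [hI₁] at hπ2
    refine ⟨Function.update π e f, ?_, ?_, ?_⟩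
    · intro a ha
      by_cases hae : a = e
      · subst hae
        simpa using hf
      · rw [Function.update_of_ne hae]
        exact (Finset.mem_erase.1 (hπ1 a (Finset.mem_erase.2 ⟨hae, ha⟩))).2
    · intro a ha b hb hab
      simp only [Finset.mem_coe] at ha hb
      by_cases hae : a = e
      · by_cases hbe : b = e
        · rw [hae, hbe]
        · exfalso
          subst hae
          rw [Function.update_self, Function.update_of_ne hbe] at hab
          have := Finset.mem_erase.1 (hπ1 b (Finset.mem_erase.2 ⟨hbe, hb⟩))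
          exact this.1 hab.symm
      · by_cases hbe : b = e
        · exfalso
          subst hbe
          rw [Function.update_self, Function.update_of_ne hae] at hab
          have := Finset.mem_erase.1 (hπ1 a (Finset.mem_erase.2 ⟨hae, ha⟩))
          exact this.1 hab
        · rw [Function.update_of_ne hae, Function.update_of_ne hbe] at hab
          apply hπ2 _ _ hab
          · simp only [Finset.coe_erase, Set.mem_sdiff, Finset.mem_coe, Set.mem_singleton_iff]
            exact ⟨ha, hae⟩
          · simp only [Finset.coe_erase, Set.mem_sdiff, Finset.mem_coe, Set.mem_singleton_iff]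
            exact ⟨hb, hbe⟩
    · have hEE : E₁ \ (D.outA E v).erase f = E \ D.outA E v := by
        ext a
        rw [Finset.mem_sdiff, Finset.mem_sdiff, hE₁, Finset.mem_erase, Finset.mem_erase]
        constructor
        · rintro ⟨⟨g1, g2⟩, g3⟩
          exact ⟨g2, fun h => g3 ⟨g1, h⟩⟩
        · rintro ⟨g1, g2⟩
          refine ⟨⟨?_, g1⟩, fun h => g2 h.2⟩
          rintro rfl
          exact g2 hf
      rw [hEE] at hπ3
      have hfun : (fun a => if a ∈ (D.inA E v).erase e then D₁.tgt (π a) else D₁.tgt a) =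
          fun a => if a ∈ D.inA E v then D.tgt (Function.update π e f a) else D.tgt a := by
        funext a
        by_cases hae : a = e
        · subst hae
          simp only [Finset.mem_erase, ne_eq, not_true_eq_false, false_and, if_false, heI, if_true,
            Function.update_self]
          exact htgte
        · rw [Function.update_of_ne hae]
          by_cases ha : a ∈ D.inA E v
          · have h3 : a ∈ (D.inA E v).erase e := Finset.mem_erase.2 ⟨hae, ha⟩
            rw [if_pos h3, if_pos ha]
            apply htgt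
            have h4 := (mem_outA.1 (Finset.mem_erase.1 (hπ1 a h3)).2)
            intro h5
            rw [h5] at h4
            exact hes h4.2.1
          · have h3 : a ∉ (D.inA E v).erase e := fun h => ha (Finset.mem_erase.1 h).2
            rw [if_neg h3, if_neg ha]
            exact htgt a hae
      have h5 : D₁.src = D.src := rfl
      rw [hfun, h5] at hπ3
      exact hπ3

end MD

end Pool.Agent.Work.MP_38b5f0_co
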