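import Pool.Agent.Work.MP_38b5f0_co.Mader
import Pool.Agent.Work.MP_38b5f0_co.Split
import Pool.Agent.Work.MP_38b5f0_co.Basic

set_option autoImplicit false
set_option linter.unusedSectionVars false

namespace Pool.Agent.Work.MP_38b5f0_co

namespace MD

universe u w

section

variable {V : Type u} {A : Type w} [Fintype V] [DecidableEq V] [Fintype A] [DecidableEq A]

/-- a minimal `k`-arc-strong arc set exists -/
lemma exists_minimal (D : MD V A) (k : ℕ) (h : D.KS Finset.univ k) :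
    ∃ E : Finset A, D.KS E k ∧ D.Crit E k := by
  classical
  obtain ⟨E, hE, hmin⟩ := Finset.exists_min_image
    (Finset.univ.filter fun E : Finset A => D.KS E k) Finset.card ⟨Finset.univ, by simp [h]⟩
  simp only [Finset.mem_filter, Finset.mem_univ, true_and] at hE hmin
  refine ⟨E, hE, ?_⟩
  intro e he hne
  by_contra hcon
  push Not at hcon
  have h1 : D.KS (E.erase e) k := by
    intro X hX hXu
    have h2 := hE X hX hXu
    by_cases h3 : D.src e ∈ X ∧ D.tgt e ∉ X
    · have h4 := hcon X h3.1 h3.2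
      have h5 : D.outd (E.erase e) X + 1 = D.outd E X := by
        simp only [outd]
        rw [Finset.filter_erase, Finset.card_erase_add_one]
        rw [Finset.mem_filter]
        exact ⟨he, h3⟩
      omega
    · have h5 : D.outd (E.erase e) X = D.outd E X := by
        simp only [outd]
        rw [Finset.filter_erase, Finset.erase_eq_of_notMem]
        rw [Finset.mem_filter]
        exact fun h => h3 h.2
      omega
  have h2 := hmin _ h1
  have h3 := Finset.card_erase_lt_of_mem he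
  omega

/-- The digraph on `V - v` obtained by complete splitting. -/
def spl (D : MD V A) (v : V) (I : Finset A) (π : A → A)
    (hI : ∀ e ∈ I, D.src e ≠ v ∧ D.tgt (π e) ≠ v) :
    MD {x : V // x ≠ v} ({a : A // D.src a ≠ v ∧ D.tgt a ≠ v} ⊕ {e : A // e ∈ I}) where
  src := Sum.elim (fun a => ⟨D.src a.1, a.2.1⟩) (fun e => ⟨D.src e.1, (hI e.1 e.2).1⟩)
  tgt := Sum.elim (fun a => ⟨D.tgt a.1, a.2.2⟩) (fun e => ⟨D.tgt (π e.1), (hI e.1 e.2).2⟩)

/-- lift of an arc set -/
def liftS (D : MD V A) (v : V) (I : Finset A) (π : A → A)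
    (F : Set ({a : A // D.src a ≠ v ∧ D.tgt a ≠ v} ⊕ {e : A // e ∈ I})) : Set A :=
  {a | (∃ h, Sum.inl ⟨a, h⟩ ∈ F) ∨ (∃ e : {e : A // e ∈ I}, Sum.inr e ∈ F ∧ (a = e.1 ∨ a = π e.1))}

lemma lift_reach (D : MD V A) (v : V) (I : Finset A) (π : A → A)
    (hI : ∀ e ∈ I, D.src e ≠ v ∧ D.tgt (π e) ≠ v) (hI' : ∀ e ∈ I, D.tgt e = v ∧ D.src (π e) = v)
    (F : Set ({a : A // D.src a ≠ v ∧ D.tgt a ≠ v} ⊕ {e : A // e ∈ I})) {x y : {x : V // x ≠ v}}
    (h : (D.spl v I π hI).Reach F x y) : D.Reach (D.liftS v I π F) x.1 y.1 := by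
  induction h with
  | refl => exact Reach.refl _
  | tail _ h2 ih =>
    obtain ⟨a, ha, h3, h4⟩ := h2
    refine ih.trans ?_
    rw [← h3, ← h4]
    cases a with
    | inl a =>
      have h5 : a.1 ∈ D.liftS v I π F := Or.inl ⟨a.2, ha⟩
      exact Reach.single h5
    | inr e =>
      have h5 : e.1 ∈ D.liftS v I π F := Or.inr ⟨e, ha, Or.inl rfl⟩
      have h6 : π e.1 ∈ D.liftS v I π F := Or.inr ⟨e, ha, Or.inr rfl⟩
      have h7 := Reach.single (D := D) h5
      have h8 := Reach.single (D := D) h6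
      rw [(hI' e.1 e.2).1] at h7
      rw [(hI' e.1 e.2).2] at h8
      exact h7.trans h8

lemma lift_disj (D : MD V A) (v : V) (I : Finset A) (π : A → A)
    (hI : ∀ e ∈ I, D.src e ≠ v ∧ D.tgt (π e) ≠ v) (hI' : ∀ e ∈ I, D.tgt e = v ∧ D.src (π e) = v)
    (hπ : Set.InjOn π I)
    (F G : Set ({a : A // D.src a ≠ v ∧ D.tgt a ≠ v} ⊕ {e : A // e ∈ I})) (hFG : Disjoint F G) :
    Disjoint (D.liftS v I π F) (D.liftS v I π G) := by
  rw [Set.disjoint_left] at hFG ⊢
  rintro a (⟨h, ha⟩ | ⟨e, he, ha⟩) (⟨h', ha'⟩ | ⟨e', he', ha'⟩)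
  · exact hFG ha ha'
  · rcases ha' with rfl | rfl
    · exact h.2 (hI' _ e'.2).1
    · exact h.1 (hI' _ e'.2).2
  · rcases ha with rfl | rfl
    · exact h'.2 (hI' _ e.2).1
    · exact h'.1 (hI' _ e.2).2
  · rcases ha with h1 | h1 <;> rcases ha' with h2 | h2
    · have : e = e' := Subtype.ext (h1.symm.trans h2)
      rw [this] at he
      exact hFG he he'
    · have h3 : e.1 = π e'.1 := h1.symm.trans h2
      apply (hI e'.1 e'.2).2
      rw [← h3]
      exact (hI' e.1 e.2).1
    · have h3 : e'.1 = π e.1 := h2.symm.trans h1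
      apply (hI e.1 e.2).2
      rw [← h3]
      exact (hI' e'.1 e'.2).1
    · have h3 : π e.1 = π e'.1 := h1.symm.trans h2
      have : e = e' := Subtype.ext (hπ e.2 e'.2 h3)
      rw [this] at he
      exact hFG he he'

/-- the split digraph is `k`-arc-strong -/
lemma KS_spl (D : MD V A) (v : V) (E : Finset A) (k : ℕ) (π : A → A)
    (hI : ∀ e ∈ D.inA E v, D.src e ≠ v ∧ D.tgt (π e) ≠ v)
    (hC : (MD.mk D.src fun a => if a ∈ D.inA E v then D.tgt (π a) else D.tgt a).CutC
        (E \ D.outA E v) v k) : (D.spl v (D.inA E v) π hI).KS Finset.univ k := by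
  classical
  intro X hX hXu
  set Y : Finset V := X.map (Function.Embedding.subtype _) with hY
  have hmem : ∀ x : {x : V // x ≠ v}, x.1 ∈ Y ↔ x ∈ X := by
    intro x
    rw [hY, Finset.mem_map]
    constructor
    · rintro ⟨y, hy, hxy⟩
      have : y = x := Subtype.ext hxy
      rwa [← this]
    · intro hx
      exact ⟨x, hx, rfl⟩
  have hvY : v ∉ Y := by
    rw [hY, Finset.mem_map]
    rintro ⟨y, -, hy⟩
    exact y.2 hy
  have hYne : Y.Nonempty := by
    obtain ⟨x, hx⟩ := hX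
    exact ⟨x.1, (hmem x).2 hx⟩
  have hYu : Y ≠ Finset.univ.erase v := by
    intro h
    apply hXu
    rw [Finset.eq_univ_iff_forall]
    intro x
    rw [← hmem x, h, Finset.mem_erase]
    exact ⟨x.2, Finset.mem_univ _⟩
  refine le_trans (hC Y hvY hYne hYu).1 ?_
  unfold outd
  let ψ : ({a : A // D.src a ≠ v ∧ D.tgt a ≠ v} ⊕ {e : A // e ∈ D.inA E v}) → A :=
    Sum.elim Subtype.val Subtype.val
  refine le_trans (Finset.card_le_card (?_ : _ ⊆ Finset.image ψ _)) Finset.card_image_le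
  intro a ha
  rw [Finset.mem_filter, Finset.mem_sdiff] at ha
  obtain ⟨⟨haE, haO⟩, has, hat⟩ := ha
  simp only at has hat
  have hsv : D.src a ≠ v := fun h => hvY (h ▸ has)
  rw [Finset.mem_image]
  by_cases haI : a ∈ D.inA E v
  · rw [if_pos haI] at hat
    refine ⟨Sum.inr ⟨a, haI⟩, ?_, rfl⟩
    rw [Finset.mem_filter]
    exact ⟨Finset.mem_univ _, (hmem _).1 has, fun h => hat ((hmem _).2 h)⟩
  · rw [if_neg haI] at hat
    have htv : D.tgt a ≠ v := fun h => haI (mem_inA.2 ⟨haE, hsv, h⟩)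
    refine ⟨Sum.inl ⟨a, hsv, htv⟩, ?_, rfl⟩
    rw [Finset.mem_filter]
    exact ⟨Finset.mem_univ _, (hmem _).1 has, fun h => hat ((hmem _).2 h)⟩

end

/-- **Main theorem, rooted version.** -/
theorem main_aux (a k : ℕ) (hk : 2 * a + 1 ≤ k) : ∀ (n : ℕ) (V : Type u) (A : Type w)
    [Fintype V] [DecidableEq V] [Fintype A] [DecidableEq A] (D : MD V A) (r : V),
    Fintype.card V = n → D.KS Finset.univ k →
    (∀ S : Finset V, r ∉ S → D.Indep S → S.card ≤ a) → D.Good r := by
  intro n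
  induction n with
  | zero =>
    intro V A _ _ _ _ D r hn _ _
    rw [Fintype.card_eq_zero_iff] at hn
    exact (hn.false r).elim
  | succ n ih =>
    intro V A _ _ _ _ D r hn hKS hα
    classical
    by_cases hn1 : n = 0
    · subst hn1
      have hsub : ∀ x : V, x = r := by
        rw [Fintype.card_eq_one_iff] at hn
        obtain ⟨y, hy⟩ := hn
        intro x
        rw [hy x, hy r]
      refine ⟨∅, ∅, by simp, fun x => ?_, fun x => ?_⟩ <;> · rw [hsub x]; exact Reach.refl r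
    obtain ⟨E, hE, hcr⟩ := D.exists_minimal k hKS
    obtain ⟨v, hvr, hv1, hv2⟩ := mader (k := k) (by omega) (n + 1) V A D E r hn (by omega) hE hcr
    have hcut : D.CutC E v k := by
      intro X hvX hX _
      have hXu := ne_univ_of_notMem hvX
      exact ⟨hE X hX hXu, hE.ind hX hXu⟩
    obtain ⟨π, hπ1, hπ2, hπ3⟩ := split_all v k k D E hv1 hv2 hcut
    have hI : ∀ e ∈ D.inA E v, D.src e ≠ v ∧ D.tgt (π e) ≠ v := fun e he =>
      ⟨(mem_inA.1 he).2.1, (mem_outA.1 (hπ1 e he)).2.2⟩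
    have hI' : ∀ e ∈ D.inA E v, D.tgt e = v ∧ D.src (π e) = v := fun e he =>
      ⟨(mem_inA.1 he).2.2, (mem_outA.1 (hπ1 e he)).2.1⟩
    have hKS' := D.KS_spl v E k π hI hπ3
    have hcard : Fintype.card {x : V // x ≠ v} = n := by
      rw [Fintype.card_subtype_compl, hn]
      simp
    have hα' : ∀ S : Finset {x : V // x ≠ v}, (⟨r, Ne.symm hvr⟩ : {x : V // x ≠ v}) ∉ S →
        (D.spl v (D.inA E v) π hI).Indep S → S.card ≤ a := by
      intro S hrS hS
      rw [← Finset.card_map (Function.Embedding.subtype _)]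
      have hmem : ∀ x : V, x ∈ S.map (Function.Embedding.subtype _) ↔ ∃ h, (⟨x, h⟩ : {x : V // x ≠ v}) ∈ S := by
        intro x
        simp
      apply hα
      · rw [hmem]
        rintro ⟨h, h'⟩
        exact hrS h'
      · intro g h1 h2
        rw [hmem] at h1 h2
        obtain ⟨h1, h1'⟩ := h1
        obtain ⟨h2, h2'⟩ := h2
        have := hS (Sum.inl ⟨g, h1, h2⟩) h1' h2'
        exact congrArg Subtype.val this
    obtain ⟨F', G', hFG, hF', hG'⟩ := ih {x : V // x ≠ v} _ (D.spl v (D.inA E v) π hI)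
      ⟨r, Ne.symm hvr⟩ hcard hKS' hα'
    have hG'' : ∀ x, (D.spl v (D.inA E v) π hI).Reach F'ᶜ x ⟨r, Ne.symm hvr⟩ := fun x =>
      (hG' x).mono fun e he h => Set.disjoint_left.1 hFG h he
    set F := D.liftS v (D.inA E v) π F' with hFdef
    set G := D.liftS v (D.inA E v) π F'ᶜ with hGdef
    have hdisj : Disjoint F G := D.lift_disj v _ π hI hI' hπ2 _ _ disjoint_compl_right
    have hFx : ∀ x, x ≠ v → D.Reach F r x := fun x hx =>
      D.lift_reach v _ π hI hI' F' (hF' ⟨x, hx⟩)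
    have hGx : ∀ x, x ≠ v → D.Reach G x r := fun x hx =>
      D.lift_reach v _ π hI hI' _ (hG'' ⟨x, hx⟩)
    have hFv : (∃ e : {e : A // e ∈ D.inA E v}, Sum.inr e ∈ F') → ∀ x, D.Reach F r x := by
      rintro ⟨e, he⟩ x
      by_cases hx : x = v
      · have h1 : e.1 ∈ F := Or.inr ⟨e, he, Or.inl rfl⟩
        have h2 := Reach.single (D := D) h1
        rw [(hI' e.1 e.2).1] at h2
        rw [hx]
        exact (hFx _ (hI e.1 e.2).1).trans h2
      · exact hFx x hx
    have hGv : (∃ e : {e : A // e ∈ D.inA E v}, Sum.inr e ∉ F') → ∀ x, D.Reach G x r := by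
      rintro ⟨e, he⟩ x
      by_cases hx : x = v
      · have h1 : π e.1 ∈ G := Or.inr ⟨e, he, Or.inr rfl⟩
        have h2 := Reach.single (D := D) h1
        rw [(hI' e.1 e.2).2] at h2
        rw [hx]
        exact h2.trans (hGx _ (hI e.1 e.2).2)
      · exact hGx x hx
    have hIcard : 2 * a + 1 ≤ (D.inA E v).card := by rw [card_inA, hv2]; exact hk
    have hOcard : 2 * a + 1 ≤ (D.outA E v).card := by rw [card_outA, hv1]; exact hk
    have hIne : (D.inA E v).Nonempty := Finset.card_pos.1 (by omega)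
    obtain ⟨e0, he0⟩ := hIne
    by_cases hA : ∃ e : {e : A // e ∈ D.inA E v}, Sum.inr e ∈ F'
    · by_cases hB : ∃ e : {e : A // e ∈ D.inA E v}, Sum.inr e ∉ F'
      · exact ⟨F, G, hdisj, hFv hA, hGv hB⟩
      · -- all split arcs in F'
        rw [← good_rev]
        apply obstruction D.rev r v a (fun S hS hS' => hα S hS (indep_rev.1 hS'))
          (D.outA E v) ?_ hOcard G F hdisj.symm ?_ ?_
        · intro e he
          exact ⟨(mem_outA.1 he).2.1, (mem_outA.1 he).2.2⟩
        · intro x hx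
          exact reach_rev.2 (hGx x hx)
        · intro x
          exact reach_rev.2 (hFv hA x)
    · -- no split arc in F'
      have hB : ∃ e : {e : A // e ∈ D.inA E v}, Sum.inr e ∉ F' :=
        ⟨⟨e0, he0⟩, fun h => hA ⟨_, h⟩⟩
      apply obstruction D r v a hα (D.inA E v) ?_ hIcard F G hdisj hFx (hGv hB)
      intro e he
      exact ⟨(mem_inA.1 he).2.2, (mem_inA.1 he).2.1⟩

end MD

end Pool.Agent.Work.MP_38b5f0_co
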