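import Pool.Agent.Work.MP_38b5f0_co.Obst2

set_option autoImplicit false

namespace Pool.Agent.Work.MP_38b5f0_co

namespace MD

variable {V A : Type*}

/-- the child relation of the out-tree `(W, P)` -/
def Child (D : MD V A) (r : V) (W : Finset V) (P : V → A) (x y : V) : Prop :=
  y ∈ W ∧ y ≠ r ∧ D.src (P y) = x

/-- `T` is closed under taking children -/
def DC (D : MD V A) (r : V) (W : Finset V) (P : V → A) (T : Finset V) : Prop :=
  T ⊆ W ∧ r ∉ T ∧ ∀ x ∈ W, x ≠ r → D.src (P x) ∈ T → x ∈ T

open Classical in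
/-- the descendants of `y` -/
noncomputable def desc (D : MD V A) (r : V) (W : Finset V) (P : V → A) (y : V) : Finset V :=
  W.filter fun x => Relation.ReflTransGen (D.Child r W P) y x

lemma mem_desc {D : MD V A} {r : V} {W : Finset V} {P : V → A} {y x : V} :
    x ∈ D.desc r W P y ↔ x ∈ W ∧ Relation.ReflTransGen (D.Child r W P) y x := by
  classical
  unfold desc
  rw [Finset.mem_filter]

lemma self_mem_desc {D : MD V A} {r : V} {W : Finset V} {P : V → A} {y : V} (hy : y ∈ W) :
    y ∈ D.desc r W P y := mem_desc.2 ⟨hy, Relation.ReflTransGen.refl⟩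

lemma desc_depth {D : MD V A} {r : V} {W : Finset V} {P : V → A} {d : V → ℕ}
    (hst : D.IsSt r W P d) {y x : V} (hx : x ∈ D.desc r W P y) : x = y ∨ d y < d x := by
  have h := (mem_desc.1 hx).2
  clear hx
  induction h with
  | refl => exact Or.inl rfl
  | tail _ h2 ih =>
    obtain ⟨h3, h4, h5⟩ := h2
    have h6 := (hst.2 _ h3 h4).2.2
    rw [h5] at h6
    right
    rcases ih with ih | ih
    · rw [← ih]; omega
    · omega

lemma desc_DC {D : MD V A} {r : V} {W : Finset V} {P : V → A} {y : V} (hy : y ≠ r) :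
    D.DC r W P (D.desc r W P y) := by
  refine ⟨fun x hx => (mem_desc.1 hx).1, ?_, ?_⟩
  · intro h
    have h1 := (mem_desc.1 h).2
    rcases Relation.ReflTransGen.cases_tail h1 with h2 | ⟨z, -, h2⟩
    · exact hy h2.symm
    · exact h2.2.1 rfl
  · intro x hx hxr h
    exact mem_desc.2 ⟨hx, (mem_desc.1 h).2.tail ⟨hx, hxr, rfl⟩⟩

lemma desc_subset {D : MD V A} {r : V} {W : Finset V} {P : V → A} {y : V} {T : Finset V}
    (hT : D.DC r W P T) (hy : y ∈ T) : D.desc r W P y ⊆ T := by
  intro x hx
  have h := (mem_desc.1 hx).2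
  clear hx
  induction h with
  | refl => exact hy
  | tail _ h2 ih =>
    obtain ⟨h3, h4, h5⟩ := h2
    exact hT.2.2 _ h3 h4 (h5 ▸ ih)

end MD

open MD

/-- The second obstruction theorem: `2 a` in-arcs suffice if `a ≥ 2` and the digraph is
`k`-arc-strong with `k ≥ 3`. -/
theorem obstruction2 {V A : Type*} [Fintype V] [DecidableEq V] [Fintype A] [DecidableEq A]
    (D : MD V A) (r v : V) (a k : ℕ) (hk : 3 ≤ k)
    (hα : ∀ S : Finset V, r ∉ S → D.Indep S → S.card ≤ a) (hKS : D.KS Finset.univ k)
    (I : Finset A) (hI : ∀ e ∈ I, D.tgt e = v ∧ D.src e ≠ v) (hIc : 2 * a ≤ I.card)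
    (F G : Set A) (hFG : Disjoint F G) (hF : ∀ x, x ≠ v → D.Reach F r x)
    (hG : ∀ x, D.Reach G x r) : D.Good r := by
  classical
  by_cases hFv : D.Reach F r v
  · refine ⟨F, G, hFG, fun x => ?_, hG⟩
    by_cases hx : x = v
    · rw [hx]; exact hFv
    · exact hF x hx
  have hrv : r ≠ v := by
    rintro rfl
    exact hFv (Reach.refl _)
  obtain ⟨d, B, hBF, hB, hBr⟩ := D.bfs F r v hF hFv
  have hpar : ∀ x, x ≠ v → x ≠ r → ∃ e, e ∈ B ∧ D.tgt e = x ∧ D.src e ≠ v := by
    intro x hxv hxr
    rcases Relation.ReflTransGen.cases_tail (hBr x hxv) with h | ⟨y, hy, e, he, h1, h2⟩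
    · exact absurd h hxr
    · refine ⟨e, he, h2, ?_⟩
      rintro h3
      rw [← h1, h3] at hy
      exact hFv (Reach.mono hBF hy)
  obtain ⟨e00⟩ : Nonempty A := by
    have h1 : ({v} : Finset V) ≠ Finset.univ := by
      intro h
      apply hrv
      have := Finset.mem_univ r
      rw [← h, Finset.mem_singleton] at this
      exact this
    have h2 : k ≤ D.ind Finset.univ {v} := hKS.ind (Finset.singleton_nonempty v) h1
    unfold ind at h2
    obtain ⟨e, -⟩ := Finset.card_pos.1 (lt_of_lt_of_le (by omega : 0 < k) h2)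
    exact ⟨e⟩
  -- the parent map
  let P : V → A := fun x => if h : x ≠ v ∧ x ≠ r then (hpar x h.1 h.2).choose else e00
  have hP : ∀ x, x ≠ v → x ≠ r → P x ∈ B ∧ D.tgt (P x) = x ∧ D.src (P x) ≠ v := by
    intro x h1 h2
    have h3 : P x = (hpar x h1 h2).choose := by
      simp only [P]
      rw [dif_pos ⟨h1, h2⟩]
    rw [h3]
    exact (hpar x h1 h2).choose_spec
  set W : Finset V := Finset.univ.erase v with hWdef
  have hmW : ∀ x, x ∈ W ↔ x ≠ v := by
    intro x
    rw [hWdef, Finset.mem_erase]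
    simp
  have hst : D.IsSt r W P d := by
    refine ⟨(hmW r).2 hrv, ?_⟩
    intro x hx hxr
    obtain ⟨h1, h2, h3⟩ := hP x ((hmW x).1 hx) hxr
    refine ⟨h2, (hmW _).2 h3, ?_⟩
    rw [(hB _ h1).2, h2]
  have hBSF : BS r W P ⊆ F := by
    rintro e ⟨x, hx, hxr, rfl⟩
    exact hBF (hP x ((hmW x).1 hx) hxr).1
  have hG1 : ∀ x, D.Reach (BS r W P)ᶜ x r := fun x => (hG x).mono fun e he h =>
    Set.disjoint_left.1 hFG (hBSF h) he
  by_contra hcon
  -- `G_T`
  let GT : Finset V → Set A := fun T => (BS r (W \ T) P)ᶜ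
  have hGTmono : ∀ T, (BS r W P)ᶜ ⊆ GT T := fun T =>
    Set.compl_subset_compl.2 (BS_mono Finset.sdiff_subset)
  have hGTr : ∀ T x, D.Reach (GT T) x r := fun T x => (hG1 x).mono (hGTmono T)
  have hBtgt : ∀ e ∈ BS r W P, D.tgt e ≠ v := by
    rintro e ⟨x, hx, hxr, rfl⟩
    rw [(hst.2 x hx hxr).1]
    exact (hmW x).1 hx
  have hIG : ∀ T, ∀ e ∈ I, e ∈ GT T := by
    intro T e he
    apply hGTmono
    intro h
    exact hBtgt e h (hI e he).1
  set In : Set A := {g | D.tgt g = v} with hIn
  have hv : ∀ T, D.Reach (GT T \ In) v r := by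
    intro T
    refine (reach_avoid (hGTr T v)).mono ?_
    rintro g ⟨h3, h4⟩
    exact ⟨h3, h4⟩
  have hInI : ∀ T, ∀ e ∈ I, GT T \ In ⊆ GT T \ {e} := by
    rintro T e he g ⟨h1, h2⟩
    refine ⟨h1, ?_⟩
    rintro rfl
    exact h2 (hI _ he).1
  -- critical in-arcs
  have hstar : ∀ e ∈ I, ¬ D.Reach ((BS r W P)ᶜ \ {e}) (D.src e) r := by
    intro e he h
    apply hcon
    refine ⟨BS r W P ∪ {e}, (BS r W P)ᶜ \ {e}, ?_, ?_, fun x => reach_del (hG1 x) h⟩
    · rw [Set.disjoint_left]
      rintro x (hx | hx) ⟨h1, h2⟩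
      · exact h1 hx
      · exact h2 hx
    · intro x
      by_cases hx : x = v
      · have h1 : D.Reach (BS r W P ∪ {e}) r (D.src e) :=
          (reach_St hst _ ((hmW _).2 (hI e he).2)).mono Set.subset_union_left
        have h2 : D.Reach (BS r W P ∪ {e}) (D.src e) (D.tgt e) := Reach.single (Or.inr rfl)
        rw [(hI e he).1] at h2
        rw [hx]
        exact h1.trans h2
      · exact (reach_St hst x ((hmW x).2 hx)).mono Set.subset_union_left
  have hsr : ∀ e ∈ I, D.src e ≠ r := by
    intro e he h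
    apply hstar e he
    rw [h]
    exact Reach.refl r
  have hGT0 : GT ∅ = (BS r W P)ᶜ := by
    simp only [GT]
    rw [Finset.sdiff_empty]
  have hvia : ∀ e ∈ I, ∀ e' ∈ I, e ≠ e' → ∀ T, D.Reach (GT T \ {e}) (D.src e') r := by
    intro e he e' he' hne T
    have h1 : D.Reach (GT T \ {e}) (D.src e') (D.tgt e') :=
      Reach.single ⟨hIG T e' he', Ne.symm hne⟩
    rw [(hI e' he').1] at h1
    exact h1.trans ((hv T).mono (hInI T e he))
  have hinj : Set.InjOn D.src I := by
    intro e he e' he' h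
    by_contra hne
    apply hstar e he
    rw [h, ← hGT0]
    exact hvia e he e' he' hne ∅
  have harc : ∀ g, ∀ e ∈ I, ∀ e' ∈ I, D.src g = D.src e → D.tgt g = D.src e' →
      D.src g ≠ D.tgt g → g ∈ BS r W P := by
    intro g e he e' he' h1 h2 h3
    by_contra hg
    apply hstar e he
    have hne : e ≠ e' := by
      rintro rfl
      exact h3 (h1.trans h2.symm)
    have hge : g ≠ e := by
      rintro rfl
      rw [(hI g he).1] at h2
      exact (hI e' he').2 h2.symm
    have h4 : D.Reach ((BS r W P)ᶜ \ {e}) (D.src g) (D.tgt g) := Reach.single ⟨hg, hge⟩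
    rw [h1, h2] at h4
    rw [← hGT0] at h4 ⊢
    exact h4.trans (hvia e he e' he' hne ∅)
  -- no isolated vertex
  have hnbr : ∀ e ∈ I, ∃ e' ∈ I, D.src (P (D.src e')) = D.src e ∨
      D.src (P (D.src e)) = D.src e' := by
    intro e he
    by_contra hno
    push Not at hno
    have hcls : ∀ c : ℕ, (((I.erase e).image D.src).filter fun x => d x % 2 = c).card + 1 ≤ a := by
      intro c
      have hnot : D.src e ∉ ((I.erase e).image D.src).filter fun x => d x % 2 = c := by
        rw [Finset.mem_filter, Finset.mem_image]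
        rintro ⟨⟨e', he', h⟩, -⟩
        have h1 := Finset.mem_erase.1 he'
        exact h1.1 (hinj h1.2 he h)
      rw [← Finset.card_insert_of_notMem hnot]
      apply hα
      · intro h
        rcases Finset.mem_insert.1 h with h | h
        · exact hsr e he h.symm
        · rw [Finset.mem_filter, Finset.mem_image] at h
          obtain ⟨⟨e', he', h1⟩, -⟩ := h
          exact hsr e' (Finset.mem_of_mem_erase he') h1
      · intro g h1 h2
        by_contra hne
        have hgen : ∀ x ∈ insert (D.src e) (((I.erase e).image D.src).filter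
            fun x => d x % 2 = c), ∃ e' ∈ I, D.src e' = x ∧ (e' ≠ e → d x % 2 = c) := by
          intro x hx
          rcases Finset.mem_insert.1 hx with rfl | hx
          · exact ⟨e, he, rfl, fun h => absurd rfl h⟩
          · rw [Finset.mem_filter, Finset.mem_image] at hx
            obtain ⟨⟨e', he', h1⟩, h2⟩ := hx
            exact ⟨e', Finset.mem_of_mem_erase he', h1, fun _ => h2⟩
        obtain ⟨e1, he1, h3, h4⟩ := hgen _ h1
        obtain ⟨e2, he2, h5, h6⟩ := hgen _ h2
        obtain ⟨x, hx, hxr, rfl⟩ := harc g e1 he1 e2 he2 h3.symm h5.symm hne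
        obtain ⟨h7, h8, h9⟩ := hst.2 x hx hxr
        rw [h7] at h5 h6
        by_cases he1e : e1 = e
        · apply (hno e2 he2).1
          rw [h5, ← h3, he1e]
        · by_cases he2e : e2 = e
          · apply (hno e1 he1).2
            rw [← he2e, h5, h3]
          · have h10 := h4 he1e
            have h11 := h6 he2e
            omega
    have h0 := hcls 0
    have h1 := hcls 1
    have hcard : ((I.erase e).image D.src).card = I.card - 1 := by
      rw [Finset.card_image_of_injOn, Finset.card_erase_of_mem he]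
      intro x hx y hy h
      exact hinj (Finset.mem_of_mem_erase hx) (Finset.mem_of_mem_erase hy) h
    have hsplit : ((I.erase e).image D.src).card =
        (((I.erase e).image D.src).filter fun x => d x % 2 = 0).card +
        (((I.erase e).image D.src).filter fun x => d x % 2 = 1).card := by
      rw [← Finset.card_filter_add_card_filter_not (s := (I.erase e).image D.src)
        (fun x => d x % 2 = 0)]
      congr 2
      ext x
      simp only [Finset.mem_filter]
      constructor
      · rintro ⟨h, h'⟩; exact ⟨h, by omega⟩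
      · rintro ⟨h, h'⟩; exact ⟨h, by omega⟩
    omega
  -- pairs
  let Pr : Finset V → A → Prop := fun T e => D.DC r W P T ∧ e ∈ I ∧ D.src e ∉ T ∧
    D.Reach (GT T \ {e}) (D.src e) r
  have hsW : ∀ e ∈ I, D.src e ∈ W := fun e he => (hmW _).2 (hI e he).2
  have hpair : ∀ e ∈ I, ∀ e' ∈ I, D.src (P (D.src e')) = D.src e →
      Pr (D.desc r W P (D.src e')) e := by
    intro e he e' he' h
    have h1 := hst.2 _ (hsW e' he') (hsr e' he')
    have hmem : D.src e' ∈ D.desc r W P (D.src e') := self_mem_desc (hsW e' he')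
    refine ⟨desc_DC (hsr e' he'), he, ?_, ?_⟩
    · intro h2
      have h3 := h1.2.2
      rw [h] at h3
      rcases desc_depth hst h2 with h4 | h4
      · rw [h4] at h3; omega
      · omega
    · set T := D.desc r W P (D.src e')
      have hPG : P (D.src e') ∈ GT T := by
        rintro ⟨x, hx, hxr, hxe⟩
        have h2 := (hst.2 x (Finset.mem_sdiff.1 hx).1 hxr).1
        rw [hxe, h1.1] at h2
        rw [← h2] at hx
        exact (Finset.mem_sdiff.1 hx).2 hmem
      have hne : P (D.src e') ≠ e := by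
        intro h2
        have h3 := h1.1
        rw [h2, (hI e he).1] at h3
        exact (hI e' he').2 h3.symm
      have h4 : D.Reach (GT T \ {e}) (D.src (P (D.src e'))) (D.tgt (P (D.src e'))) :=
        Reach.single ⟨hPG, hne⟩
      rw [h, h1.1] at h4
      have hne' : e ≠ e' := by
        rintro rfl
        have h5 := h1.2.2
        rw [h] at h5
        omega
      exact h4.trans (hvia e he e' he' hne' T)
  have hIne : I.Nonempty := by
    rcases Finset.eq_empty_or_nonempty I with h | h
    · exfalso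
      rw [h, Finset.card_empty] at hIc
      have ha : a = 0 := by omega
      -- `v` itself is independent
      have h1 := hα {v} (by rw [Finset.mem_singleton]; exact hrv) (by
        intro g h1 h2
        rw [Finset.mem_singleton] at h1 h2
        rw [h1, h2])
      rw [Finset.card_singleton] at h1
      omega
    · exact h
  obtain ⟨n0, hn0⟩ : ∃ n, ∃ T e, Pr T e ∧ T.card = n := by
    obtain ⟨e, he⟩ := hIne
    obtain ⟨e', he', h | h⟩ := hnbr e he
    · exact ⟨_, _, e, hpair e he e' he' h, rfl⟩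
    · exact ⟨_, _, e', hpair e' he' e he h, rfl⟩
  have hex : ∃ n, ∃ T e, Pr T e ∧ T.card = n := ⟨n0, hn0⟩
  obtain ⟨T, e0, hPr, hTn⟩ := Nat.find_spec hex
  have hmin : ∀ T' e', Pr T' e' → T.card ≤ T'.card := by
    intro T' e' h
    rw [hTn]
    exact Nat.find_min' hex ⟨T', e', h, rfl⟩
  obtain ⟨hDC, he0, he0T, he0r⟩ := hPr
  have hclaim1 : ∀ e ∈ I, D.src e ∈ T → T = D.desc r W P (D.src e) := by
    intro e he hT
    obtain ⟨e', he', h | h⟩ := hnbr e he
    · exfalso
      have h1 := hpair e he e' he' h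
      have h2 : D.src e' ∈ T := hDC.2.2 _ (hsW e' he') (hsr e' he') (by rw [h]; exact hT)
      have h3 : D.desc r W P (D.src e') ⊂ T := by
        rw [Finset.ssubset_iff_of_subset (desc_subset hDC h2)]
        exact ⟨_, hT, h1.2.2.1⟩
      have h4 := Finset.card_lt_card h3
      have h5 := hmin _ _ h1
      omega
    · have h1 := hpair e' he' e he h
      have h2 := hmin _ _ h1
      exact (Finset.eq_of_subset_of_card_le (desc_subset hDC hT) h2).symm
  have hTne : T.Nonempty := by
    rw [Finset.nonempty_iff_ne_empty]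
    intro h
    apply hstar e0 he0
    rw [← hGT0, ← h]
    exact he0r
  obtain ⟨w, hwT, hwmin⟩ := Finset.exists_min_image T d hTne
  have hwr : w ≠ r := fun h => hDC.2.1 (h ▸ hwT)
  have hwW : w ∈ W := hDC.1 hwT
  have hw := hst.2 w hwW hwr
  have hpw : D.src (P w) ∉ T := by
    intro h
    have := hwmin _ h
    omega
  have hDC' : D.DC r W P (T.erase w) := by
    refine ⟨(Finset.erase_subset _ _).trans hDC.1, fun h => hDC.2.1 (Finset.mem_of_mem_erase h), ?_⟩
    intro x hx hxr h
    rw [Finset.mem_erase]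
    refine ⟨?_, hDC.2.2 x hx hxr (Finset.mem_of_mem_erase h)⟩
    rintro rfl
    exact hpw (Finset.mem_of_mem_erase h)
  have hGTw : GT T \ {P w} ⊆ GT (T.erase w) := by
    rintro g ⟨h1, h2⟩ ⟨x, hx, hxr, hxg⟩
    obtain ⟨hx1, hx2⟩ := Finset.mem_sdiff.1 hx
    by_cases hxw : x = w
    · rw [hxw] at hxg
      exact h2 hxg.symm
    · apply h1
      refine ⟨x, Finset.mem_sdiff.2 ⟨hx1, fun h => hx2 (Finset.mem_erase.2 ⟨hxw, h⟩)⟩, hxr, hxg⟩
  have hTcard : (T.erase w).card < T.card := Finset.card_erase_lt_of_mem hwT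
  have hcr' : ∀ e ∈ I, ¬ D.Reach (GT (T.erase w) \ {e}) (D.src e) r := by
    intro e he h
    have h1 : D.src e ∉ T.erase w := by
      intro h2
      have h3 := Finset.mem_of_mem_erase h2
      have h4 := hclaim1 e he h3
      rw [h4] at hwT
      rcases desc_depth hst hwT with h5 | h5
      · exact (Finset.mem_erase.1 h2).1 h5.symm
      · have := hwmin _ h3
        omega
    have h2 := hmin _ _ (⟨hDC', he, h1, h⟩ : Pr (T.erase w) e)
    omega
  have hthru : ∀ e ∈ I, D.Reach (GT T \ {e}) (D.src e) r →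
      D.Reach (GT (T.erase w) \ {e}) (D.src e) (D.src (P w)) := by
    intro e he h
    have hsub : (GT T \ {e}) \ {P w} ⊆ GT (T.erase w) \ {e} := by
      rintro g ⟨⟨h1, h2⟩, h3⟩
      exact ⟨hGTw ⟨h1, h3⟩, h2⟩
    rcases reach_first ({P w} : Set A) h with h1 | ⟨g, hg, -, h1, -⟩
    · exact absurd (h1.mono hsub) (hcr' e he)
    · rw [Set.mem_singleton_iff] at hg
      rw [hg] at h1
      exact h1.mono hsub
  have hcl : ∀ e ∈ I, e ≠ e0 → ¬ D.Reach (GT T \ {e}) (D.src e) r := by
    intro e he hne h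
    have h1 := hthru e he h
    have h2 := hthru e0 he0 he0r
    rcases reach_first In (hGTr (T.erase w) (D.src (P w))) with h3 | ⟨g, hg, hgG, h3, -⟩
    · exact hcr' e he (h1.trans (h3.mono (hInI _ e he)))
    · have key : ∀ e ∈ I, D.Reach (GT (T.erase w) \ {e}) (D.src e) (D.src (P w)) → e = g := by
        intro e he h1
        by_contra hne
        have h4 : D.Reach (GT (T.erase w) \ {e}) (D.src g) (D.tgt g) :=
          Reach.single ⟨hgG, fun h => hne h.symm⟩
        have h5 : D.tgt g = v := hg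
        rw [h5] at h4
        exact hcr' e he (((h1.trans (h3.mono (hInI _ e he))).trans h4).trans
          ((hv _).mono (hInI _ e he)))
      exact hne ((key e he h1).trans (key e0 he0 h2).symm)
  -- prune `T` and attach `v`
  have hvW : v ∉ W := fun h => (hmW v).1 h rfl
  set W1 : Finset V := insert v (W \ T) with hW1
  have hPW : ∀ x ∈ W, Function.update P v e0 x = P x := by
    intro x hx
    rw [Function.update_of_ne]
    exact (hmW x).1 hx
  have he0W : D.src e0 ∈ W \ T := Finset.mem_sdiff.2 ⟨hsW e0 he0, he0T⟩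
  have hst1 : D.IsSt r W1 (Function.update P v e0) (Function.update d v (d (D.src e0) + 1)) := by
    refine ⟨Finset.mem_insert_of_mem (Finset.mem_sdiff.2 ⟨hst.1, hDC.2.1⟩), ?_⟩
    intro x hx hxr
    rcases Finset.mem_insert.1 hx with rfl | hx
    · rw [Function.update_self, Function.update_self, Function.update_of_ne (hI e0 he0).2]
      exact ⟨(hI e0 he0).1, Finset.mem_insert_of_mem he0W, rfl⟩
    · have hx' := Finset.mem_sdiff.1 hx
      obtain ⟨h1, h2, h3⟩ := hst.2 x hx'.1 hxr
      rw [hPW x hx'.1, Function.update_of_ne ((hmW x).1 hx'.1),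
        Function.update_of_ne ((hmW _).1 h2)]
      refine ⟨h1, Finset.mem_insert_of_mem (Finset.mem_sdiff.2 ⟨h2, ?_⟩), h3⟩
      intro h4
      exact hx'.2 (hDC.2.2 x hx'.1 hxr h4)
  have hBS1 : BS r W1 (Function.update P v e0) = BS r (W \ T) P ∪ {e0} := by
    ext g
    constructor
    · rintro ⟨x, hx, hxr, rfl⟩
      rcases Finset.mem_insert.1 hx with rfl | hx
      · right; rw [Function.update_self]; rfl
      · left; exact ⟨x, hx, hxr, (hPW x (Finset.mem_sdiff.1 hx).1).symm⟩
    · rintro (⟨x, hx, hxr, rfl⟩ | rfl)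
      · exact ⟨x, Finset.mem_insert_of_mem hx, hxr, hPW x (Finset.mem_sdiff.1 hx).1⟩
      · exact ⟨v, Finset.mem_insert_self _ _, hrv.symm, Function.update_self _ _ _⟩
  have hBS1c : (BS r W1 (Function.update P v e0))ᶜ = GT T \ {e0} := by
    rw [hBS1]
    ext g
    simp only [GT, Set.mem_compl_iff, Set.mem_union, not_or, Set.mem_sdiff]
  have hG1' : ∀ x, D.Reach (BS r W1 (Function.update P v e0))ᶜ x r := by
    intro x
    rw [hBS1c]
    exact reach_del (hGTr T x) he0r
  rcases D.grow r _ W1 _ _ rfl hst1 hG1' with h | ⟨W', P', d', hst', hWW, hPP, hWu, hG', hcrit'⟩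
  · exact hcon h
  have hvW1 : v ∈ W1 := Finset.mem_insert_self _ _
  have hvW' : v ∈ W' := hWW hvW1
  have hP'v : P' v = e0 := by
    rw [hPP v hvW1, Function.update_self]
  have hsub : (BS r W' P')ᶜ ⊆ GT T \ {e0} := by
    rw [← hBS1c]
    apply Set.compl_subset_compl.2
    rintro g ⟨x, hx, hxr, rfl⟩
    exact ⟨x, hWW hx, hxr, hPP x hx⟩
  have hfin := D.final_count r v a k hα hKS W' P' d' hst' hvW' hWu hG' hcrit' (I.erase e0)
    (fun e he => hI e (Finset.mem_of_mem_erase he)) (by
      rintro e he ⟨x, hx, hxr, hxe⟩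
      have h1 := Finset.mem_erase.1 he
      have h2 := (hst'.2 x hx hxr).1
      rw [hxe, (hI e h1.2).1] at h2
      rw [← h2, hP'v] at hxe
      exact h1.1 hxe.symm) (by
      intro e he h
      have h1 := Finset.mem_erase.1 he
      apply hcl e h1.2 h1.1
      refine h.mono ?_
      rintro g ⟨h2, h3⟩
      exact ⟨(hsub h2).1, h3⟩)
  rw [Finset.card_erase_of_mem he0] at hfin
  have hIpos := Finset.card_pos.2 hIne
  omega

end Pool.Agent.Work.MP_38b5f0_co
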