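import Pool.Agent.Work.MP_38b5f0_co.Main
import Pool.Agent.Work.MP_38b5f0_co.Final
import Pool.Agent.Work.MP_38b5f0_co.Obst3

set_option autoImplicit false
set_option linter.unusedSectionVars false

namespace Pool.Agent.Work.MP_38b5f0_co

namespace MD

universe u w

/-- **Main theorem, rooted version.** -/
theorem main_aux2 (a k : ℕ) (hk : 2 * a ≤ k) (hk3 : 3 ≤ k) : ∀ (n : ℕ) (V : Type u) (A : Type w)
    [Fintype V] [DecidableEq V] [Fintype A] [DecidableEq A] (D : MD V A) (r : V),
    Fintype.card V = n → D.KS Finset.univ k →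
    (∀ S : Finset V, r ∉ S → D.Indep S → S.card ≤ a) → D.Good r := by
  intro n
  induction n with
  | zero =>
    intro V A _ _ _ _ D r hn _ _
    rw [Fintype.card_eq_zero_iff] at hn
    exact (hn.false r).elim
  | succ n ih =>
    intro V A _ _ _ _ D r hn hKS hα
    classical
    by_cases hn1 : n = 0
    · subst hn1
      have hsub : ∀ x : V, x = r := by
        rw [Fintype.card_eq_one_iff] at hn
        obtain ⟨y, hy⟩ := hn
        intro x
        rw [hy x, hy r]
      refine ⟨∅, ∅, by simp, fun x => ?_, fun x => ?_⟩ <;> · rw [hsub x]; exact Reach.refl r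
    obtain ⟨E, hE, hcr⟩ := D.exists_minimal k hKS
    obtain ⟨v, hvr, hv1, hv2⟩ := mader (k := k) (by omega) (n + 1) V A D E r hn (by omega) hE hcr
    have hcut : D.CutC E v k := by
      intro X hvX hX _
      have hXu := ne_univ_of_notMem hvX
      exact ⟨hE X hX hXu, hE.ind hX hXu⟩
    obtain ⟨π, hπ1, hπ2, hπ3⟩ := split_all v k k D E hv1 hv2 hcut
    have hI : ∀ e ∈ D.inA E v, D.src e ≠ v ∧ D.tgt (π e) ≠ v := fun e he =>
      ⟨(mem_inA.1 he).2.1, (mem_outA.1 (hπ1 e he)).2.2⟩
    have hI' : ∀ e ∈ D.inA E v, D.tgt e = v ∧ D.src (π e) = v := fun e he =>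
      ⟨(mem_inA.1 he).2.2, (mem_outA.1 (hπ1 e he)).2.1⟩
    have hKS' := D.KS_spl v E k π hI hπ3
    have hcard : Fintype.card {x : V // x ≠ v} = n := by
      rw [Fintype.card_subtype_compl, hn]
      simp
    have hα' : ∀ S : Finset {x : V // x ≠ v}, (⟨r, Ne.symm hvr⟩ : {x : V // x ≠ v}) ∉ S →
        (D.spl v (D.inA E v) π hI).Indep S → S.card ≤ a := by
      intro S hrS hS
      rw [← Finset.card_map (Function.Embedding.subtype _)]
      have hmem : ∀ x : V, x ∈ S.map (Function.Embedding.subtype _) ↔ ∃ h, (⟨x, h⟩ : {x : V // x ≠ v}) ∈ S := by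
        intro x
        simp
      apply hα
      · rw [hmem]
        rintro ⟨h, h'⟩
        exact hrS h'
      · intro g h1 h2
        rw [hmem] at h1 h2
        obtain ⟨h1, h1'⟩ := h1
        obtain ⟨h2, h2'⟩ := h2
        have := hS (Sum.inl ⟨g, h1, h2⟩) h1' h2'
        exact congrArg Subtype.val this
    obtain ⟨F', G', hFG, hF', hG'⟩ := ih {x : V // x ≠ v} _ (D.spl v (D.inA E v) π hI)
      ⟨r, Ne.symm hvr⟩ hcard hKS' hα'
    have hG'' : ∀ x, (D.spl v (D.inA E v) π hI).Reach F'ᶜ x ⟨r, Ne.symm hvr⟩ := fun x =>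
      (hG' x).mono fun e he h => Set.disjoint_left.1 hFG h he
    set F := D.liftS v (D.inA E v) π F' with hFdef
    set G := D.liftS v (D.inA E v) π F'ᶜ with hGdef
    have hdisj : Disjoint F G := D.lift_disj v _ π hI hI' hπ2 _ _ disjoint_compl_right
    have hFx : ∀ x, x ≠ v → D.Reach F r x := fun x hx =>
      D.lift_reach v _ π hI hI' F' (hF' ⟨x, hx⟩)
    have hGx : ∀ x, x ≠ v → D.Reach G x r := fun x hx =>
      D.lift_reach v _ π hI hI' _ (hG'' ⟨x, hx⟩)
    have hFv : (∃ e : {e : A // e ∈ D.inA E v}, Sum.inr e ∈ F') → ∀ x, D.Reach F r x := by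
      rintro ⟨e, he⟩ x
      by_cases hx : x = v
      · have h1 : e.1 ∈ F := Or.inr ⟨e, he, Or.inl rfl⟩
        have h2 := Reach.single (D := D) h1
        rw [(hI' e.1 e.2).1] at h2
        rw [hx]
        exact (hFx _ (hI e.1 e.2).1).trans h2
      · exact hFx x hx
    have hGv : (∃ e : {e : A // e ∈ D.inA E v}, Sum.inr e ∉ F') → ∀ x, D.Reach G x r := by
      rintro ⟨e, he⟩ x
      by_cases hx : x = v
      · have h1 : π e.1 ∈ G := Or.inr ⟨e, he, Or.inr rfl⟩
        have h2 := Reach.single (D := D) h1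
        rw [(hI' e.1 e.2).2] at h2
        rw [hx]
        exact h2.trans (hGx _ (hI e.1 e.2).2)
      · exact hGx x hx
    have hIcard : 2 * a ≤ (D.inA E v).card := by rw [card_inA, hv2]; exact hk
    have hOcard : 2 * a ≤ (D.outA E v).card := by rw [card_outA, hv1]; exact hk
    have hIne : (D.inA E v).Nonempty := Finset.card_pos.1 (by rw [card_inA, hv2]; omega)
    obtain ⟨e0, he0⟩ := hIne
    by_cases hA : ∃ e : {e : A // e ∈ D.inA E v}, Sum.inr e ∈ F'
    · by_cases hB : ∃ e : {e : A // e ∈ D.inA E v}, Sum.inr e ∉ F'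
      · exact ⟨F, G, hdisj, hFv hA, hGv hB⟩
      · -- all split arcs in F'
        rw [← good_rev]
        apply obstruction2 D.rev r v a k hk3 (fun S hS hS' => hα S hS (indep_rev.1 hS'))
          hKS.rev (D.outA E v) ?_ hOcard G F hdisj.symm ?_ ?_
        · intro e he
          exact ⟨(mem_outA.1 he).2.1, (mem_outA.1 he).2.2⟩
        · intro x hx
          exact reach_rev.2 (hGx x hx)
        · intro x
          exact reach_rev.2 (hFv hA x)
    · -- no split arc in F'
      have hB : ∃ e : {e : A // e ∈ D.inA E v}, Sum.inr e ∉ F' :=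
        ⟨⟨e0, he0⟩, fun h => hA ⟨_, h⟩⟩
      apply obstruction2 D r v a k hk3 hα hKS (D.inA E v) ?_ hIcard F G hdisj hFx (hGv hB)
      intro e he
      exact ⟨(mem_inA.1 he).2.2, (mem_inA.1 he).2.1⟩


theorem main_two2 {V : Type u} {A : Type w} [Finite V] [Finite A] (D : MD V A) (a k : ℕ)
    (hk : 2 * a ≤ k) (hk3 : 3 ≤ k)
    (hD : D.ArcStrong k) (hα : ∀ S : Finset V, D.Indep S → S.card ≤ a) (s t : V) :
    ∃ B C : Set A, D.IsOutBranching s B ∧ D.IsInBranching t C ∧ Disjoint B C :=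
  two_roots D a k (fun V A _ _ _ _ D r h1 h2 =>
    main_aux2 a k hk hk3 (Fintype.card V) V A D r rfl h1 h2) hD hα s t

end MD

end Pool.Agent.Work.MP_38b5f0_co
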