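import Pool.Agent.Work.MP_38b5f0_co.CountN
import Pool.Agent.Work.MP_38b5f0_co.Obst3

set_option autoImplicit false

namespace Pool.Agent.Work.MP_38b5f0_co

namespace MD

variable {V A : Type*}

lemma desc_depthN {D : MD V A} {r : V} {W : Finset V} {P : V → A} {d : V → ℕ}
    (hst : D.IsStN r W P d) {y x : V} (hx : x ∈ D.desc r W P y) : x = y ∨ d y < d x := by
  have h := (mem_desc.1 hx).2
  clear hx
  induction h with
  | refl => exact Or.inl rfl
  | tail _ h2 ih =>
    obtain ⟨h3, h4, h5⟩ := h2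
    have h6 := (hst.2 _ h3 h4).2.2.1
    rw [h5] at h6
    right
    rcases ih with ih | ih
    · rw [← ih]; omega
    · omega

lemma bfs_root {D : MD V A} {B : Set A} {r : V} {d : V → ℕ}
    (hB : ∀ e ∈ B, d (D.src e) + 1 = d (D.tgt e)) {x : V} (h : D.Reach B r x) :
    x = r ∨ d r < d x := by
  induction h with
  | refl => exact Or.inl rfl
  | tail _ h2 ih =>
    obtain ⟨e, he, h3, h4⟩ := h2
    have h5 := hB e he
    rw [h3, h4] at h5
    right
    rcases ih with ih | ih
    · rw [← ih]; omega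
    · omega

end MD

open MD

/-- The third obstruction theorem. `a` bounds the size of the independent sets that do not contain
the root, `b` the size of all of them. -/
theorem obstructionN {V A : Type*} [Fintype V] [DecidableEq V] [Fintype A] [DecidableEq A]
    (D : MD V A) (r v : V) (a b k : ℕ) (hab : a ≤ b) (hba : b ≤ a + 1)
    (hk : 2 * (a + b) + 1 ≤ 3 * k)
    (hα : ∀ S : Finset V, r ∉ S → D.Indep S → S.card ≤ a)
    (hβ : ∀ S : Finset V, D.Indep S → S.card ≤ b) (hKS : D.KS Finset.univ k)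
    (I : Finset A) (hI : ∀ e ∈ I, D.tgt e = v ∧ D.src e ≠ v) (hIc : k ≤ I.card)
    (F G : Set A) (hFG : Disjoint F G) (hF : ∀ x, x ≠ v → D.Reach F r x)
    (hG : ∀ x, D.Reach G x r) : D.Good r := by
  classical
  by_cases hFv : D.Reach F r v
  · refine ⟨F, G, hFG, fun x => ?_, hG⟩
    by_cases hx : x = v
    · rw [hx]; exact hFv
    · exact hF x hx
  have hrv : r ≠ v := by
    rintro rfl
    exact hFv (Reach.refl _)
  by_cases hnrv : ∃ e, D.src e = r ∧ D.tgt e = v
  · obtain ⟨e, he1, he2⟩ := hnrv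
    refine ⟨F ∪ {e}, G \ {e}, ?_, ?_, ?_⟩
    · rw [Set.disjoint_left]
      rintro x (hx | hx) ⟨h1, h2⟩
      · exact Set.disjoint_left.1 hFG hx h1
      · exact h2 hx
    · intro x
      by_cases hx : x = v
      · have h2 : D.Reach (F ∪ {e}) (D.src e) (D.tgt e) := Reach.single (Or.inr rfl)
        rw [he1, he2] at h2
        rw [hx]
        exact h2
      · exact (hF x hx).mono Set.subset_union_left
    · intro x
      apply reach_del (hG x)
      rw [he1]
      exact Reach.refl r
  obtain ⟨d, B, hBF, hB, hBr⟩ := D.bfs F r v hF hFv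
  have hpar : ∀ x, x ≠ v → x ≠ r → ∃ e, D.tgt e = x ∧ D.src e ≠ v ∧ d (D.src e) < d x ∧
      (e ∈ B ∨ D.src e = r) ∧ ((∃ g, D.src g = r ∧ D.tgt g = x) → D.src e = r) := by
    intro x hxv hxr
    by_cases hrx : ∃ g, D.src g = r ∧ D.tgt g = x
    · obtain ⟨g, hg1, hg2⟩ := hrx
      refine ⟨g, hg2, ?_, ?_, Or.inr hg1, fun _ => hg1⟩
      · rw [hg1]; exact hrv
      · rw [hg1]
        rcases bfs_root (fun e he => (hB e he).2) (hBr x hxv) with h | h
        · exact absurd h hxr
        · exact h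
    · rcases Relation.ReflTransGen.cases_tail (hBr x hxv) with h | ⟨y, hy, e, he, h1, h2⟩
      · exact absurd h hxr
      · refine ⟨e, h2, ?_, ?_, Or.inl he, fun h => absurd h hrx⟩
        · rintro h3
          rw [← h1, h3] at hy
          exact hFv (Reach.mono hBF hy)
        · have h3 := (hB e he).2
          rw [h2] at h3
          omega
  obtain ⟨e00⟩ : Nonempty A := by
    have h1 : ({v} : Finset V) ≠ Finset.univ := by
      intro h
      apply hrv
      have := Finset.mem_univ r
      rw [← h, Finset.mem_singleton] at this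
      exact this
    have h2 : k ≤ D.ind Finset.univ {v} := hKS.ind (Finset.singleton_nonempty v) h1
    unfold ind at h2
    obtain ⟨e, -⟩ := Finset.card_pos.1 (lt_of_lt_of_le (by omega : 0 < k) h2)
    exact ⟨e⟩
  -- the parent map
  let P : V → A := fun x => if h : x ≠ v ∧ x ≠ r then (hpar x h.1 h.2).choose else e00
  have hP : ∀ x, x ≠ v → x ≠ r → D.tgt (P x) = x ∧ D.src (P x) ≠ v ∧ d (D.src (P x)) < d x ∧
      (P x ∈ B ∨ D.src (P x) = r) ∧
      ((∃ g, D.src g = r ∧ D.tgt g = x) → D.src (P x) = r) := by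
    intro x h1 h2
    have h3 : P x = (hpar x h1 h2).choose := by
      simp only [P]
      rw [dif_pos ⟨h1, h2⟩]
    rw [h3]
    exact (hpar x h1 h2).choose_spec
  set W : Finset V := Finset.univ.erase v with hWdef
  have hmW : ∀ x, x ∈ W ↔ x ≠ v := by
    intro x
    rw [hWdef, Finset.mem_erase]
    simp
  have hst : D.IsStN r W P d := by
    refine ⟨(hmW r).2 hrv, ?_⟩
    intro x hx hxr
    obtain ⟨h1, h2, h3, -, h5⟩ := hP x ((hmW x).1 hx) hxr
    exact ⟨h1, (hmW _).2 h2, h3, h5⟩
  have hG1 : ∀ x, D.Reach (BS r W P)ᶜ x r := by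
    intro x
    refine (reach_noout (hG x)).mono ?_
    rintro g ⟨hg1, hg2⟩ ⟨y, hy, hyr, hyg⟩
    rcases (hP y ((hmW y).1 hy) hyr).2.2.2.1 with h | h
    · rw [hyg] at h
      exact Set.disjoint_left.1 hFG (hBF h) hg1
    · rw [hyg] at h
      exact hg2 h
  by_contra hcon
  -- `G_T`
  let GT : Finset V → Set A := fun T => (BS r (W \ T) P)ᶜ
  have hGTmono : ∀ T, (BS r W P)ᶜ ⊆ GT T := fun T =>
    Set.compl_subset_compl.2 (BS_mono Finset.sdiff_subset)
  have hGTr : ∀ T x, D.Reach (GT T) x r := fun T x => (hG1 x).mono (hGTmono T)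
  have hBtgt : ∀ e ∈ BS r W P, D.tgt e ≠ v := by
    rintro e ⟨x, hx, hxr, rfl⟩
    rw [(hst.2 x hx hxr).1]
    exact (hmW x).1 hx
  have hIG : ∀ T, ∀ e ∈ I, e ∈ GT T := by
    intro T e he
    apply hGTmono
    intro h
    exact hBtgt e h (hI e he).1
  set In : Set A := {g | D.tgt g = v} with hIn
  have hv : ∀ T, D.Reach (GT T \ In) v r := by
    intro T
    refine (reach_avoid (hGTr T v)).mono ?_
    rintro g ⟨h3, h4⟩
    exact ⟨h3, h4⟩
  have hInI : ∀ T, ∀ e ∈ I, GT T \ In ⊆ GT T \ {e} := by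
    rintro T e he g ⟨h1, h2⟩
    refine ⟨h1, ?_⟩
    rintro rfl
    exact h2 (hI _ he).1
  -- critical in-arcs
  have hstar : ∀ e ∈ I, ¬ D.Reach ((BS r W P)ᶜ \ {e}) (D.src e) r := by
    intro e he h
    apply hcon
    refine ⟨BS r W P ∪ {e}, (BS r W P)ᶜ \ {e}, ?_, ?_, fun x => reach_del (hG1 x) h⟩
    · rw [Set.disjoint_left]
      rintro x (hx | hx) ⟨h1, h2⟩
      · exact h1 hx
      · exact h2 hx
    · intro x
      by_cases hx : x = v
      · have h1 : D.Reach (BS r W P ∪ {e}) r (D.src e) :=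
          (reach_StN hst _ ((hmW _).2 (hI e he).2)).mono Set.subset_union_left
        have h2 : D.Reach (BS r W P ∪ {e}) (D.src e) (D.tgt e) := Reach.single (Or.inr rfl)
        rw [(hI e he).1] at h2
        rw [hx]
        exact h1.trans h2
      · exact (reach_StN hst x ((hmW x).2 hx)).mono Set.subset_union_left
  have hsr : ∀ e ∈ I, D.src e ≠ r := by
    intro e he h
    apply hstar e he
    rw [h]
    exact Reach.refl r
  have hGT0 : GT ∅ = (BS r W P)ᶜ := by
    simp only [GT]
    rw [Finset.sdiff_empty]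
  have hvia : ∀ e ∈ I, ∀ e' ∈ I, e ≠ e' → ∀ T, D.Reach (GT T \ {e}) (D.src e') r := by
    intro e he e' he' hne T
    have h1 : D.Reach (GT T \ {e}) (D.src e') (D.tgt e') :=
      Reach.single ⟨hIG T e' he', Ne.symm hne⟩
    rw [(hI e' he').1] at h1
    exact h1.trans ((hv T).mono (hInI T e he))
  have hinj : Set.InjOn D.src I := by
    intro e he e' he' h
    by_contra hne
    apply hstar e he
    rw [h, ← hGT0]
    exact hvia e he e' he' hne ∅
  have harc : ∀ g, ∀ e ∈ I, ∀ e' ∈ I, D.src g = D.src e → D.tgt g = D.src e' →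
      D.src g ≠ D.tgt g → g ∈ BS r W P := by
    intro g e he e' he' h1 h2 h3
    by_contra hg
    apply hstar e he
    have hne : e ≠ e' := by
      rintro rfl
      exact h3 (h1.trans h2.symm)
    have hge : g ≠ e := by
      rintro rfl
      rw [(hI g he).1] at h2
      exact (hI e' he').2 h2.symm
    have h4 : D.Reach ((BS r W P)ᶜ \ {e}) (D.src g) (D.tgt g) := Reach.single ⟨hg, hge⟩
    rw [h1, h2] at h4
    rw [← hGT0] at h4 ⊢
    exact h4.trans (hvia e he e' he' hne ∅)
  have hsW : ∀ e ∈ I, D.src e ∈ W := fun e he => (hmW _).2 (hI e he).2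
  -- no arc from a tail to `r`
  have hUr : ∀ e ∈ I, ∀ g, D.src g = D.src e → D.tgt g ≠ r := by
    intro e he g h1 h2
    apply hstar e he
    have hg : g ∈ (BS r W P)ᶜ := by
      rintro ⟨x, hx, hxr, hxg⟩
      have h3 := (hst.2 x hx hxr).1
      rw [hxg, h2] at h3
      exact hxr h3.symm
    have hge : g ≠ e := by
      rintro rfl
      rw [(hI g he).1] at h2
      exact hrv h2.symm
    have h4 : D.Reach ((BS r W P)ᶜ \ {e}) (D.src g) (D.tgt g) := Reach.single ⟨hg, hge⟩
    rw [h1, h2] at h4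
    exact h4
  -- arcs between tails are parent arcs
  have hpar' : ∀ g, ∀ e ∈ I, ∀ e' ∈ I, D.src g = D.src e → D.tgt g = D.src e' →
      D.src g ≠ D.tgt g → D.src (P (D.src e')) = D.src e := by
    intro g e he e' he' h1 h2 h3
    obtain ⟨x, hx, hxr, hxg⟩ := harc g e he e' he' h1 h2 h3
    have h4 := (hst.2 x hx hxr).1
    rw [hxg, h2] at h4
    rw [h4, hxg, h1]
  -- pairs
  let Pr : Finset V → A → Prop := fun T e => D.DC r W P T ∧ e ∈ I ∧ D.src e ∉ T ∧
    D.Reach (GT T \ {e}) (D.src e) r
  have hpair : ∀ e ∈ I, ∀ e' ∈ I, D.src (P (D.src e')) = D.src e →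
      Pr (D.desc r W P (D.src e')) e := by
    intro e he e' he' h
    have h1 := hst.2 _ (hsW e' he') (hsr e' he')
    have hmem : D.src e' ∈ D.desc r W P (D.src e') := self_mem_desc (hsW e' he')
    refine ⟨desc_DC (hsr e' he'), he, ?_, ?_⟩
    · intro h2
      have h3 := h1.2.2.1
      rw [h] at h3
      rcases desc_depthN hst h2 with h4 | h4
      · rw [h4] at h3; omega
      · omega
    · set T := D.desc r W P (D.src e')
      have hPG : P (D.src e') ∈ GT T := by
        rintro ⟨x, hx, hxr, hxe⟩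
        have h2 := (hst.2 x (Finset.mem_sdiff.1 hx).1 hxr).1
        rw [hxe, h1.1] at h2
        rw [← h2] at hx
        exact (Finset.mem_sdiff.1 hx).2 hmem
      have hne : P (D.src e') ≠ e := by
        intro h2
        have h3 := h1.1
        rw [h2, (hI e he).1] at h3
        exact (hI e' he').2 h3.symm
      have h4 : D.Reach (GT T \ {e}) (D.src (P (D.src e'))) (D.tgt (P (D.src e'))) :=
        Reach.single ⟨hPG, hne⟩
      rw [h, h1.1] at h4
      have hne' : e ≠ e' := by
        rintro rfl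
        have h5 := h1.2.2.1
        rw [h] at h5
        omega
      exact h4.trans (hvia e he e' he' hne' T)
  let p : V → V := fun x => D.src (P x)
  have hpd : ∀ x, x ∈ W → x ≠ r → d (p x) < d x := fun x hx hxr => (hst.2 x hx hxr).2.2.1
  -- two tails are adjacent
  have hadj : ∃ e ∈ I, ∃ e' ∈ I, D.src (P (D.src e')) = D.src e := by
    by_contra hno
    push Not at hno
    have h1 : (I.image D.src).card ≤ a := by
      apply hα
      · intro h
        obtain ⟨e, he, h1⟩ := Finset.mem_image.1 h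
        exact hsr e he h1
      · intro g h1 h2
        by_contra hne
        obtain ⟨e, he, h3⟩ := Finset.mem_image.1 h1
        obtain ⟨e', he', h4⟩ := Finset.mem_image.1 h2
        exact hno e he e' he' (hpar' g e he e' he' h3.symm h4.symm hne)
    rw [Finset.card_image_of_injOn hinj] at h1
    omega
  obtain ⟨n0, hn0⟩ : ∃ n, ∃ T e, Pr T e ∧ T.card = n := by
    obtain ⟨e, he, e', he', h⟩ := hadj
    exact ⟨_, _, e, hpair e he e' he' h, rfl⟩
  have hex : ∃ n, ∃ T e, Pr T e ∧ T.card = n := ⟨n0, hn0⟩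
  obtain ⟨T, e0, hPr, hTn⟩ := Nat.find_spec hex
  have hmin : ∀ T' e', Pr T' e' → T.card ≤ T'.card := by
    intro T' e' h
    rw [hTn]
    exact Nat.find_min' hex ⟨T', e', h, rfl⟩
  obtain ⟨hDC, he0, he0T, he0r⟩ := hPr
  have hTne : T.Nonempty := by
    rw [Finset.nonempty_iff_ne_empty]
    intro h
    apply hstar e0 he0
    rw [← hGT0, ← h]
    exact he0r
  -- removing a top vertex
  have hDCe : ∀ w ∈ T, D.src (P w) ∉ T → D.DC r W P (T.erase w) := by
    intro w hwT hpw
    refine ⟨(Finset.erase_subset _ _).trans hDC.1, fun h => hDC.2.1 (Finset.mem_of_mem_erase h), ?_⟩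
    intro x hx hxr h
    rw [Finset.mem_erase]
    refine ⟨?_, hDC.2.2 x hx hxr (Finset.mem_of_mem_erase h)⟩
    rintro rfl
    exact hpw (Finset.mem_of_mem_erase h)
  have hGTe : ∀ w, GT T \ {P w} ⊆ GT (T.erase w) := by
    rintro w g ⟨h1, h2⟩ ⟨x, hx, hxr, hxg⟩
    obtain ⟨hx1, hx2⟩ := Finset.mem_sdiff.1 hx
    by_cases hxw : x = w
    · rw [hxw] at hxg
      exact h2 hxg.symm
    · apply h1
      refine ⟨x, Finset.mem_sdiff.2 ⟨hx1, fun h => hx2 (Finset.mem_erase.2 ⟨hxw, h⟩)⟩, hxr, hxg⟩
  have hTop : ∀ w ∈ T, D.src (P w) ≠ r := by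
    intro w hwT hwr
    have hpw : D.src (P w) ∉ T := by rw [hwr]; exact hDC.2.1
    have hlt := Finset.card_erase_lt_of_mem hwT
    have h1 : Pr (T.erase w) e0 := by
      refine ⟨hDCe w hwT hpw, he0, fun h => he0T (Finset.mem_of_mem_erase h), ?_⟩
      refine (reach_noout he0r).mono ?_
      rintro g ⟨⟨hg1, hg2⟩, hg3⟩
      refine ⟨hGTe w ⟨hg1, ?_⟩, hg2⟩
      intro h
      rw [Set.mem_singleton_iff] at h
      rw [h] at hg3
      exact hg3 hwr
    have h2 := hmin _ _ h1
    omega
  obtain ⟨w, hwT, hwmin⟩ := Finset.exists_min_image T d hTne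
  have hwr : w ≠ r := fun h => hDC.2.1 (h ▸ hwT)
  have hwW : w ∈ W := hDC.1 hwT
  have hw := hst.2 w hwW hwr
  have hpw : D.src (P w) ∉ T := by
    intro h
    have := hwmin _ h
    have := hw.2.2.1
    omega
  have hDC' := hDCe w hwT hpw
  have hGTw := hGTe w
  have hTcard : (T.erase w).card < T.card := Finset.card_erase_lt_of_mem hwT
  have hcr' : ∀ e ∈ I, D.src e ∉ T.erase w →
      ¬ D.Reach (GT (T.erase w) \ {e}) (D.src e) r := by
    intro e he h1 h
    have h2 := hmin _ _ (⟨hDC', he, h1, h⟩ : Pr (T.erase w) e)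
    omega
  have hthru : ∀ e ∈ I, D.src e ∉ T.erase w → D.Reach (GT T \ {e}) (D.src e) r →
      D.Reach (GT (T.erase w) \ {e}) (D.src e) (D.src (P w)) := by
    intro e he heT h
    have hsub : (GT T \ {e}) \ {P w} ⊆ GT (T.erase w) \ {e} := by
      rintro g ⟨⟨h1, h2⟩, h3⟩
      exact ⟨hGTw ⟨h1, h3⟩, h2⟩
    rcases reach_first ({P w} : Set A) h with h1 | ⟨g, hg, -, h1, -⟩
    · exact absurd (h1.mono hsub) (hcr' e he heT)
    · rw [Set.mem_singleton_iff] at hg
      rw [hg] at h1
      exact h1.mono hsub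
  have he0T' : D.src e0 ∉ T.erase w := fun h => he0T (Finset.mem_of_mem_erase h)
  have hcl : ∀ e ∈ I, D.src e ∉ T.erase w → e ≠ e0 → ¬ D.Reach (GT T \ {e}) (D.src e) r := by
    intro e he heT hne h
    have h1 := hthru e he heT h
    have h2 := hthru e0 he0 he0T' he0r
    rcases reach_first In (hGTr (T.erase w) (D.src (P w))) with h3 | ⟨g, hg, hgG, h3, -⟩
    · exact hcr' e he heT (h1.trans (h3.mono (hInI _ e he)))
    · have key : ∀ e ∈ I, D.src e ∉ T.erase w →
          D.Reach (GT (T.erase w) \ {e}) (D.src e) (D.src (P w)) → e = g := by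
        intro e he heT h1
        by_contra hne
        have h4 : D.Reach (GT (T.erase w) \ {e}) (D.src g) (D.tgt g) :=
          Reach.single ⟨hgG, fun h => hne h.symm⟩
        have h5 : D.tgt g = v := hg
        rw [h5] at h4
        exact hcr' e he heT (((h1.trans (h3.mono (hInI _ e he))).trans h4).trans
          ((hv _).mono (hInI _ e he)))
      exact hne ((key e he heT h1).trans (key e0 he0 he0T' h2).symm)
  -- the tails inside `T`
  set Z : Finset A := I.filter fun e => D.src e ∈ T.erase w with hZ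
  have hmZ : ∀ e, e ∈ Z ↔ e ∈ I ∧ D.src e ∈ T.erase w := fun e => by
    rw [hZ, Finset.mem_filter]
  have hZiso1 : ∀ e ∈ Z, ∀ e' ∈ I, D.src (P (D.src e')) ≠ D.src e := by
    intro e he e' he' h
    obtain ⟨he1, he2⟩ := (hmZ e).1 he
    have heT := Finset.mem_of_mem_erase he2
    have h1 := hpair e he1 e' he' h
    have h2 : D.src e' ∈ T := hDC.2.2 _ (hsW e' he') (hsr e' he') (by rw [h]; exact heT)
    have h3 : D.desc r W P (D.src e') ⊂ T := by
      rw [Finset.ssubset_iff_of_subset (desc_subset hDC h2)]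
      exact ⟨_, heT, h1.2.2.1⟩
    have h4 := Finset.card_lt_card h3
    have h5 := hmin _ _ h1
    omega
  have hZiso2 : ∀ e ∈ Z, ∀ e' ∈ I, D.src (P (D.src e)) ≠ D.src e' := by
    intro e he e' he' h
    obtain ⟨he1, he2⟩ := (hmZ e).1 he
    have heT := Finset.mem_of_mem_erase he2
    have h1 := hpair e' he' e he1 h
    have h3 : D.desc r W P (D.src e) ⊂ T := by
      rw [Finset.ssubset_iff_of_subset (desc_subset hDC heT)]
      refine ⟨w, hwT, ?_⟩
      intro h2
      rcases desc_depthN hst h2 with h4 | h4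
      · exact (Finset.mem_erase.1 he2).1 h4.symm
      · have := hwmin _ heT
        omega
    have h4 := Finset.card_lt_card h3
    have h5 := hmin _ _ h1
    omega
  have hZc : I.card + Z.card + 1 ≤ a + b := by
    set U : Finset V := (I \ Z).image D.src with hU
    have hmU : ∀ x, x ∈ U ↔ ∃ e, e ∈ I ∧ e ∉ Z ∧ D.src e = x := by
      intro x
      rw [hU, Finset.mem_image]
      constructor
      · rintro ⟨e, he, h⟩
        have h1 := Finset.mem_sdiff.1 he
        exact ⟨e, h1.1, h1.2, h⟩
      · rintro ⟨e, he, he', h⟩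
        exact ⟨e, Finset.mem_sdiff.2 ⟨he, he'⟩, h⟩
    have hZI : Z ⊆ I := Finset.filter_subset _ _
    have hUc : U.card + Z.card = I.card := by
      rw [hU, Finset.card_image_of_injOn, Finset.card_sdiff_add_card_eq_card hZI]
      exact hinj.mono (by
        intro e he
        exact (Finset.mem_sdiff.1 he).1)
    obtain ⟨S, hS1, hS2, hS3⟩ := forest_indep p d U.card U rfl (by
      intro x hx hpx
      obtain ⟨e, he, -, rfl⟩ := (hmU x).1 hx
      exact hpd _ (hsW e he) (hsr e he))
    set S' : Finset V := S ∪ Z.image D.src with hS'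
    have hS'I : ∀ x ∈ S', ∃ e ∈ I, D.src e = x := by
      intro x hx
      rcases Finset.mem_union.1 hx with hx | hx
      · obtain ⟨e, he, -, h⟩ := (hmU x).1 (hS1 hx)
        exact ⟨e, he, h⟩
      · obtain ⟨e, he, h⟩ := Finset.mem_image.1 hx
        exact ⟨e, hZI he, h⟩
    have hdisj : Disjoint S (Z.image D.src) := by
      rw [Finset.disjoint_left]
      intro x hx hx'
      obtain ⟨e, he, he', h⟩ := (hmU x).1 (hS1 hx)
      obtain ⟨e', hee, h'⟩ := Finset.mem_image.1 hx'
      have h1 := hinj he (hZI hee) (h.trans h'.symm)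
      exact he' (h1 ▸ hee)
    have hS'c : S'.card = S.card + Z.card := by
      rw [hS', Finset.card_union_of_disjoint hdisj, Finset.card_image_of_injOn]
      exact hinj.mono hZI
    have hrS' : r ∉ S' := by
      intro h
      obtain ⟨e, he, h1⟩ := hS'I r h
      exact hsr e he h1
    have hS'ind : D.Indep S' := by
      intro g h1 h2
      by_contra hne
      obtain ⟨e, he, h3⟩ := hS'I _ h1
      obtain ⟨e', he', h4⟩ := hS'I _ h2
      have h5 := hpar' g e he e' he' h3.symm h4.symm hne
      rcases Finset.mem_union.1 h1 with h1 | h1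
      · rcases Finset.mem_union.1 h2 with h2 | h2
        · apply hS2 _ h2
          simp only [p]
          rw [← h4, h5, h3]
          exact h1
        · obtain ⟨e'', he'', h6⟩ := Finset.mem_image.1 h2
          have h7 := hinj (hZI he'') he' (h6.trans h4.symm)
          rw [h7] at he''
          exact hZiso2 e' he'' e he h5
      · obtain ⟨e'', he'', h6⟩ := Finset.mem_image.1 h1
        have h7 := hinj (hZI he'') he (h6.trans h3.symm)
        rw [h7] at he''
        exact hZiso1 e he'' e' he' h5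
    have hSa := hα S' hrS' hS'ind
    rcases hS3 with h | ⟨h, h'⟩
    · omega
    · have h1 : (insert r S').card ≤ b := by
        apply hβ
        intro g h2 h3
        by_contra hne
        rcases Finset.mem_insert.1 h2 with h2 | h2
        · rcases Finset.mem_insert.1 h3 with h3 | h3
          · exact hne (h2.trans h3.symm)
          · obtain ⟨e, he, h4⟩ := hS'I _ h3
            have h5 := (hst.2 _ (hsW e he) (hsr e he)).2.2.2 ⟨g, h2, h4.symm⟩
            rcases Finset.mem_union.1 h3 with h3 | h3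
            · have h6 := h' _ h3
              simp only [p] at h6
              rw [← h4, h5] at h6
              obtain ⟨e', he', -, h7⟩ := (hmU r).1 h6
              exact hsr e' he' h7
            · obtain ⟨e'', he'', h6⟩ := Finset.mem_image.1 h3
              have h7 := hinj (hZI he'') he (h6.trans h4.symm)
              rw [h7] at he''
              exact hTop _ (Finset.mem_of_mem_erase ((hmZ e).1 he'').2) h5
        · rcases Finset.mem_insert.1 h3 with h3 | h3
          · obtain ⟨e, he, h4⟩ := hS'I _ h2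
            exact hUr e he g h4.symm h3
          · exact hne (hS'ind g h2 h3)
      rw [Finset.card_insert_of_notMem hrS'] at h1
      omega
  -- prune `T` and attach `v`
  have hvW : v ∉ W := fun h => (hmW v).1 h rfl
  set W1 : Finset V := insert v (W \ T) with hW1
  have hPW : ∀ x ∈ W, Function.update P v e0 x = P x := by
    intro x hx
    rw [Function.update_of_ne]
    exact (hmW x).1 hx
  have he0W : D.src e0 ∈ W \ T := Finset.mem_sdiff.2 ⟨hsW e0 he0, he0T⟩
  have hst1 : D.IsStN r W1 (Function.update P v e0) (Function.update d v (d (D.src e0) + 1)) := by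
    refine ⟨Finset.mem_insert_of_mem (Finset.mem_sdiff.2 ⟨hst.1, hDC.2.1⟩), ?_⟩
    intro x hx hxr
    rcases Finset.mem_insert.1 hx with rfl | hx
    · rw [Function.update_self, Function.update_self, Function.update_of_ne (hI e0 he0).2]
      exact ⟨(hI e0 he0).1, Finset.mem_insert_of_mem he0W, Nat.lt_succ_self _,
        fun h => absurd h hnrv⟩
    · have hx' := Finset.mem_sdiff.1 hx
      obtain ⟨h1, h2, h3, h3'⟩ := hst.2 x hx'.1 hxr
      rw [hPW x hx'.1, Function.update_of_ne ((hmW x).1 hx'.1),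
        Function.update_of_ne ((hmW _).1 h2)]
      refine ⟨h1, Finset.mem_insert_of_mem (Finset.mem_sdiff.2 ⟨h2, ?_⟩), h3, h3'⟩
      intro h4
      exact hx'.2 (hDC.2.2 x hx'.1 hxr h4)
  have hBS1 : BS r W1 (Function.update P v e0) = BS r (W \ T) P ∪ {e0} := by
    ext g
    constructor
    · rintro ⟨x, hx, hxr, rfl⟩
      rcases Finset.mem_insert.1 hx with rfl | hx
      · right; rw [Function.update_self]; rfl
      · left; exact ⟨x, hx, hxr, (hPW x (Finset.mem_sdiff.1 hx).1).symm⟩
    · rintro (⟨x, hx, hxr, rfl⟩ | rfl)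
      · exact ⟨x, Finset.mem_insert_of_mem hx, hxr, hPW x (Finset.mem_sdiff.1 hx).1⟩
      · exact ⟨v, Finset.mem_insert_self _ _, hrv.symm, Function.update_self _ _ _⟩
  have hBS1c : (BS r W1 (Function.update P v e0))ᶜ = GT T \ {e0} := by
    rw [hBS1]
    ext g
    simp only [GT, Set.mem_compl_iff, Set.mem_union, not_or, Set.mem_sdiff]
  have hG1' : ∀ x, D.Reach (BS r W1 (Function.update P v e0))ᶜ x r := by
    intro x
    rw [hBS1c]
    exact reach_del (hGTr T x) he0r
  rcases D.growN r _ W1 _ _ rfl hst1 hG1' with h | ⟨W', P', d', hst', hWW, hPP, hWu, hG', hcrit'⟩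
  · exact hcon h
  have hvW1 : v ∈ W1 := Finset.mem_insert_self _ _
  have hvW' : v ∈ W' := hWW hvW1
  have hP'v : P' v = e0 := by
    rw [hPP v hvW1, Function.update_self]
  have hsub : (BS r W' P')ᶜ ⊆ GT T \ {e0} := by
    rw [← hBS1c]
    apply Set.compl_subset_compl.2
    rintro g ⟨x, hx, hxr, rfl⟩
    exact ⟨x, hWW hx, hxr, hPP x hx⟩
  have he0Z : e0 ∈ I \ Z := by
    rw [Finset.mem_sdiff]
    exact ⟨he0, fun h => he0T' ((hmZ e0).1 h).2⟩
  have hI' : ∀ e ∈ (I \ Z).erase e0, e ∈ I ∧ D.src e ∉ T.erase w ∧ e ≠ e0 := by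
    intro e he
    have h1 := Finset.mem_erase.1 he
    have h2 := Finset.mem_sdiff.1 h1.2
    exact ⟨h2.1, fun h => h2.2 ((hmZ e).2 ⟨h2.1, h⟩), h1.1⟩
  have hfin := D.final_countN r v a b k hab hba hα hβ hKS W' P' d' hst' hvW' hrv.symm hWu hG'
    hcrit' ((I \ Z).erase e0) (fun e he => hI e (hI' e he).1) (by
      rintro e he ⟨x, hx, hxr, hxe⟩
      have h1 := hI' e he
      have h2 := (hst'.2 x hx hxr).1
      rw [hxe, (hI e h1.1).1] at h2
      rw [← h2, hP'v] at hxe
      exact h1.2.2 hxe.symm) (by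
      intro e he h
      have h1 := hI' e he
      apply hcl e h1.1 h1.2.1 h1.2.2
      refine h.mono ?_
      rintro g ⟨h2, h3⟩
      exact ⟨(hsub h2).1, h3⟩)
  have hcc : ((I \ Z).erase e0).card + 1 + Z.card = I.card := by
    rw [Finset.card_erase_add_one he0Z, Finset.card_sdiff_add_card_eq_card (Finset.filter_subset _ _)]
  omega

end Pool.Agent.Work.MP_38b5f0_co
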