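import Pool.Agent.Work.MP_38b5f0_co.Main
import Pool.Agent.Work.MP_38b5f0_co.Final
import Pool.Agent.Work.MP_38b5f0_co.ObstN

set_option autoImplicit false
set_option linter.unusedSectionVars false

namespace Pool.Agent.Work.MP_38b5f0_co

namespace MD

universe u w

/-- **Main theorem, rooted version.** `a` bounds the size of the independent sets that do not
contain the root, `b` the size of all of them. -/
theorem main_auxN (a b k : ℕ) (hab : a ≤ b) (hba : b ≤ a + 1) (hk : 2 * (a + b) + 1 ≤ 3 * k) :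
    ∀ (n : ℕ) (V : Type u) (A : Type w)
    [Fintype V] [DecidableEq V] [Fintype A] [DecidableEq A] (D : MD V A) (r : V),
    Fintype.card V = n → D.KS Finset.univ k →
    (∀ S : Finset V, r ∉ S → D.Indep S → S.card ≤ a) →
    (∀ S : Finset V, D.Indep S → S.card ≤ b) → D.Good r := by
  intro n
  induction n with
  | zero =>
    intro V A _ _ _ _ D r hn _ _ _
    rw [Fintype.card_eq_zero_iff] at hn
    exact (hn.false r).elim
  | succ n ih =>
    intro V A _ _ _ _ D r hn hKS hα hβ
    classical
    by_cases hn1 : n = 0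
    · subst hn1
      have hsub : ∀ x : V, x = r := by
        rw [Fintype.card_eq_one_iff] at hn
        obtain ⟨y, hy⟩ := hn
        intro x
        rw [hy x, hy r]
      refine ⟨∅, ∅, by simp, fun x => ?_, fun x => ?_⟩ <;> · rw [hsub x]; exact Reach.refl r
    obtain ⟨E, hE, hcr⟩ := D.exists_minimal k hKS
    obtain ⟨v, hvr, hv1, hv2⟩ := mader (k := k) (by omega) (n + 1) V A D E r hn (by omega) hE hcr
    have hcut : D.CutC E v k := by
      intro X hvX hX _
      have hXu := ne_univ_of_notMem hvX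
      exact ⟨hE X hX hXu, hE.ind hX hXu⟩
    obtain ⟨π, hπ1, hπ2, hπ3⟩ := split_all v k k D E hv1 hv2 hcut
    have hI : ∀ e ∈ D.inA E v, D.src e ≠ v ∧ D.tgt (π e) ≠ v := fun e he =>
      ⟨(mem_inA.1 he).2.1, (mem_outA.1 (hπ1 e he)).2.2⟩
    have hI' : ∀ e ∈ D.inA E v, D.tgt e = v ∧ D.src (π e) = v := fun e he =>
      ⟨(mem_inA.1 he).2.2, (mem_outA.1 (hπ1 e he)).2.1⟩
    have hKS' := D.KS_spl v E k π hI hπ3
    have hcard : Fintype.card {x : V // x ≠ v} = n := by
      rw [Fintype.card_subtype_compl, hn]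
      simp
    have hmem : ∀ (S : Finset {x : V // x ≠ v}) (x : V),
        x ∈ S.map (Function.Embedding.subtype _) ↔ ∃ h, (⟨x, h⟩ : {x : V // x ≠ v}) ∈ S := by
      intro S x
      simp
    have hind : ∀ S : Finset {x : V // x ≠ v}, (D.spl v (D.inA E v) π hI).Indep S →
        D.Indep (S.map (Function.Embedding.subtype _)) := by
      intro S hS g h1 h2
      rw [hmem] at h1 h2
      obtain ⟨h1, h1'⟩ := h1
      obtain ⟨h2, h2'⟩ := h2
      have := hS (Sum.inl ⟨g, h1, h2⟩) h1' h2'
      exact congrArg Subtype.val this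
    have hα' : ∀ S : Finset {x : V // x ≠ v}, (⟨r, Ne.symm hvr⟩ : {x : V // x ≠ v}) ∉ S →
        (D.spl v (D.inA E v) π hI).Indep S → S.card ≤ a := by
      intro S hrS hS
      rw [← Finset.card_map (Function.Embedding.subtype _)]
      apply hα _ _ (hind S hS)
      rw [hmem]
      rintro ⟨h, h'⟩
      exact hrS h'
    have hβ' : ∀ S : Finset {x : V // x ≠ v},
        (D.spl v (D.inA E v) π hI).Indep S → S.card ≤ b := by
      intro S hS
      rw [← Finset.card_map (Function.Embedding.subtype _)]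
      exact hβ _ (hind S hS)
    obtain ⟨F', G', hFG, hF', hG'⟩ := ih {x : V // x ≠ v} _ (D.spl v (D.inA E v) π hI)
      ⟨r, Ne.symm hvr⟩ hcard hKS' hα' hβ'
    have hG'' : ∀ x, (D.spl v (D.inA E v) π hI).Reach F'ᶜ x ⟨r, Ne.symm hvr⟩ := fun x =>
      (hG' x).mono fun e he h => Set.disjoint_left.1 hFG h he
    set F := D.liftS v (D.inA E v) π F' with hFdef
    set G := D.liftS v (D.inA E v) π F'ᶜ with hGdef
    have hdisj : Disjoint F G := D.lift_disj v _ π hI hI' hπ2 _ _ disjoint_compl_right
    have hFx : ∀ x, x ≠ v → D.Reach F r x := fun x hx =>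
      D.lift_reach v _ π hI hI' F' (hF' ⟨x, hx⟩)
    have hGx : ∀ x, x ≠ v → D.Reach G x r := fun x hx =>
      D.lift_reach v _ π hI hI' _ (hG'' ⟨x, hx⟩)
    have hFv : (∃ e : {e : A // e ∈ D.inA E v}, Sum.inr e ∈ F') → ∀ x, D.Reach F r x := by
      rintro ⟨e, he⟩ x
      by_cases hx : x = v
      · have h1 : e.1 ∈ F := Or.inr ⟨e, he, Or.inl rfl⟩
        have h2 := Reach.single (D := D) h1
        rw [(hI' e.1 e.2).1] at h2
        rw [hx]
        exact (hFx _ (hI e.1 e.2).1).trans h2
      · exact hFx x hx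
    have hGv : (∃ e : {e : A // e ∈ D.inA E v}, Sum.inr e ∉ F') → ∀ x, D.Reach G x r := by
      rintro ⟨e, he⟩ x
      by_cases hx : x = v
      · have h1 : π e.1 ∈ G := Or.inr ⟨e, he, Or.inr rfl⟩
        have h2 := Reach.single (D := D) h1
        rw [(hI' e.1 e.2).2] at h2
        rw [hx]
        exact h2.trans (hGx _ (hI e.1 e.2).2)
      · exact hGx x hx
    have hIcard : k ≤ (D.inA E v).card := by rw [card_inA, hv2]
    have hOcard : k ≤ (D.outA E v).card := by rw [card_outA, hv1]
    have hIne : (D.inA E v).Nonempty := Finset.card_pos.1 (by rw [card_inA, hv2]; omega)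
    obtain ⟨e0, he0⟩ := hIne
    by_cases hA : ∃ e : {e : A // e ∈ D.inA E v}, Sum.inr e ∈ F'
    · by_cases hB : ∃ e : {e : A // e ∈ D.inA E v}, Sum.inr e ∉ F'
      · exact ⟨F, G, hdisj, hFv hA, hGv hB⟩
      · -- all split arcs in F'
        rw [← good_rev]
        apply obstructionN D.rev r v a b k hab hba hk (fun S hS hS' => hα S hS (indep_rev.1 hS'))
          (fun S hS' => hβ S (indep_rev.1 hS'))
          hKS.rev (D.outA E v) ?_ hOcard G F hdisj.symm ?_ ?_
        · intro e he
          exact ⟨(mem_outA.1 he).2.1, (mem_outA.1 he).2.2⟩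
        · intro x hx
          exact reach_rev.2 (hGx x hx)
        · intro x
          exact reach_rev.2 (hFv hA x)
    · -- no split arc in F'
      have hB : ∃ e : {e : A // e ∈ D.inA E v}, Sum.inr e ∉ F' :=
        ⟨⟨e0, he0⟩, fun h => hA ⟨_, h⟩⟩
      apply obstructionN D r v a b k hab hba hk hα hβ hKS (D.inA E v) ?_ hIcard F G hdisj hFx
        (hGv hB)
      intro e he
      exact ⟨(mem_inA.1 he).2.2, (mem_inA.1 he).2.1⟩

/-- two roots: arc-strength `(4 a + 3) / 3` suffices -/
theorem main_twoN {V : Type u} {A : Type w} [Finite V] [Finite A] (D : MD V A) (a k : ℕ)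
    (hk : 4 * a + 3 ≤ 3 * k)
    (hD : D.ArcStrong k) (hα : ∀ S : Finset V, D.Indep S → S.card ≤ a) (s t : V) :
    ∃ B C : Set A, D.IsOutBranching s B ∧ D.IsInBranching t C ∧ Disjoint B C := by
  classical
  refine two_roots D a k (fun V A _ _ _ _ D r h1 h2 =>
    main_auxN a (a + 1) k (by omega) le_rfl (by omega) (Fintype.card V) V A D r rfl h1 h2 ?_)
    hD hα s t
  intro S hS
  by_cases hrS : r ∈ S
  · have h3 := h2 (S.erase r) (by simp) (fun g hg1 hg2 => hS g (Finset.mem_of_mem_erase hg1)
      (Finset.mem_of_mem_erase hg2))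
    rw [Finset.card_erase_of_mem hrS] at h3
    omega
  · have := h2 S hrS hS
    omega

/-- one root: arc-strength `(4 a + 1) / 3` suffices -/
theorem main_oneN {V : Type u} {A : Type w} [Finite V] [Finite A] (D : MD V A) (a k : ℕ)
    (hk : 4 * a + 1 ≤ 3 * k)
    (hD : D.ArcStrong k) (hα : ∀ S : Finset V, D.Indep S → S.card ≤ a) (s : V) :
    ∃ B C : Set A, D.IsOutBranching s B ∧ D.IsInBranching s C ∧ Disjoint B C := by
  classical
  have := Fintype.ofFinite V
  have := Fintype.ofFinite A
  have hKS : D.KS Finset.univ k := by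
    intro X hX hXu
    have h1 := hD (X : Set V) (by simpa using hX) (by
      intro h
      apply hXu
      rw [Finset.eq_univ_iff_forall]
      intro x
      have : x ∈ (X : Set V) := by rw [h]; exact Set.mem_univ x
      simpa using this)
    have h2 : {e : A | D.src e ∈ (X : Set V) ∧ D.tgt e ∉ (X : Set V)}.ncard =
        D.outd Finset.univ X := by
      rw [outd, ← Set.ncard_coe_finset]
      congr 1
      ext e
      simp
    rw [← h2]
    exact h1
  obtain ⟨F, G, hFG, hF, hG⟩ := main_auxN a a k le_rfl (by omega) (by omega) (Fintype.card V)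
    V A D s rfl hKS (fun S _ hS => hα S hS) hα
  obtain ⟨B, hB, hB'⟩ := D.exists_outBranching F s hF
  obtain ⟨C, hC, hC'⟩ := D.exists_inBranching G s hG
  exact ⟨B, C, hB', hC', Set.disjoint_of_subset hB hC hFG⟩

end MD

end Pool.Agent.Work.MP_38b5f0_co
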