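import Pool.Agent.Work.MP_38b5f0_co.MaderST
import Pool.Agent.Work.MP_38b5f0_co.Main
import Pool.Agent.Work.MP_38b5f0_co.Final

set_option autoImplicit false
set_option linter.unusedSectionVars false

namespace Pool.Agent.Work.MP_38b5f0_co

namespace MD

universe u w

/-- `r` is a root whose out-arcs all go to `s` and whose in-arcs all come from `t` -/
structure RST {V : Type u} {A : Type w} (D : MD V A) (r s t : V) : Prop where
  rs : r ≠ s
  rt : r ≠ t
  st : s ≠ t
  out : ∀ e, D.src e = r → D.tgt e = s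
  inn : ∀ e, D.tgt e = r → D.src e = t

lemma RST.rev {V : Type u} {A : Type w} {D : MD V A} {r s t : V} (h : D.RST r s t) :
    D.rev.RST r t s := ⟨h.rt, h.rs, h.st.symm, h.inn, h.out⟩

/-- the theorem for the class `R_st` and `n` vertices (including `r`) -/
def ThmST (a k n : ℕ) : Prop :=
  ∀ (V : Type u) (A : Type w) [Fintype V] [DecidableEq V] [Fintype A] [DecidableEq A]
    (D : MD V A) (r s t : V), Fintype.card V = n → D.RST r s t → D.KS Finset.univ k →
    (∀ S : Finset V, r ∉ S → D.Indep S → S.card ≤ a) → D.Good r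

/-- the obstruction statement for the class `R_st`: `v` is a vertex different from `r, s, t`, the
arc set `F` reaches all vertices except perhaps `v` from `r`, the disjoint arc set `G` reaches `r`
from everywhere. -/
def ObstST (a k n : ℕ) : Prop :=
  ∀ (V : Type u) (A : Type w) [Fintype V] [DecidableEq V] [Fintype A] [DecidableEq A]
    (D : MD V A) (r s t v : V), Fintype.card V = n → D.RST r s t → v ≠ r → v ≠ s → v ≠ t →
    D.KS Finset.univ k → (∀ S : Finset V, r ∉ S → D.Indep S → S.card ≤ a) →
    ∀ (I : Finset A), (∀ e ∈ I, D.tgt e = v ∧ D.src e ≠ v) → k ≤ I.card →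
    ∀ (F G : Set A), Disjoint F G → (∀ x, x ≠ v → D.Reach F r x) → (∀ x, D.Reach G x r) → D.Good r

/-- three vertices -/
lemma good_three {V : Type u} {A : Type w} [Fintype V] [DecidableEq V] [Fintype A]
    [DecidableEq A] (D : MD V A) (r s t : V) (k : ℕ) (hk : 2 ≤ k) (h : D.RST r s t)
    (hKS : D.KS Finset.univ k) (hV : ∀ x, x = r ∨ x = s ∨ x = t) : D.Good r := by
  classical
  -- arcs from `r` to `s`
  have hne1 : ({r} : Finset V) ≠ Finset.univ := by
    intro h'
    have := Finset.mem_univ s
    rw [← h', Finset.mem_singleton] at this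
    exact h.rs this.symm
  have hne2 : ({s} : Finset V) ≠ Finset.univ := by
    intro h'
    have := Finset.mem_univ r
    rw [← h', Finset.mem_singleton] at this
    exact h.rs this
  have h1 := hKS {r} (Finset.singleton_nonempty r) hne1
  have h2 := hKS {s} (Finset.singleton_nonempty s) hne2
  have h3 := hKS.ind (Finset.singleton_nonempty r) hne1
  unfold outd at h1 h2
  unfold ind at h3
  obtain ⟨e1, he1⟩ := Finset.card_pos.1 (lt_of_lt_of_le (by omega : 0 < k) h1)
  obtain ⟨e3, he3⟩ := Finset.card_pos.1 (lt_of_lt_of_le (by omega : 0 < k) h3)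
  obtain ⟨e2, he2, e2', he2', hne⟩ := Finset.one_lt_card.1 (lt_of_lt_of_le (by omega : 1 < k) h2)
  simp only [Finset.mem_filter, Finset.mem_univ, true_and, Finset.mem_singleton] at he1 he2 he2' he3
  have hst : ∀ e, D.src e = s → D.tgt e ≠ s → D.tgt e = t := by
    intro e h4 h5
    rcases hV (D.tgt e) with h6 | h6 | h6
    · exact absurd ((h.inn e h6).symm.trans h4).symm h.st
    · exact absurd h6 h5
    · exact h6
  have h7 : D.Step {e1, e2} r s := ⟨e1, by simp, he1.1, h.out e1 he1.1⟩
  have h8 : D.Step {e1, e2} s t := ⟨e2, by simp, he2.1, hst e2 he2.1 he2.2⟩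
  have h9 : D.Step {e2', e3} s t := ⟨e2', by simp, he2'.1, hst e2' he2'.1 he2'.2⟩
  have h10 : D.Step {e2', e3} t r := ⟨e3, by simp, h.inn e3 he3.2, he3.2⟩
  refine ⟨{e1, e2}, {e2', e3}, ?_, ?_, ?_⟩
  · rw [Set.disjoint_left]
    rintro x hx hx'
    simp only [Set.mem_insert_iff, Set.mem_singleton_iff] at hx hx'
    rcases hx with rfl | rfl
    · rcases hx' with rfl | rfl
      · exact h.rs (he1.1.symm.trans he2'.1)
      · exact he1.2 he3.2
    · rcases hx' with rfl | rfl
      · exact hne rfl
      · exact h.st ((he2.1.symm.trans (h.inn _ he3.2)))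
  · intro x
    rcases hV x with rfl | rfl | rfl
    · exact Relation.ReflTransGen.refl
    · exact Relation.ReflTransGen.single h7
    · exact (Relation.ReflTransGen.single h7).tail h8
  · intro x
    rcases hV x with rfl | rfl | rfl
    · exact Relation.ReflTransGen.refl
    · exact (Relation.ReflTransGen.single h9).tail h10
    · exact Relation.ReflTransGen.single h10

/-- **Induction for the class `R_st`.** -/
theorem main_st (a k : ℕ) (hk : 2 ≤ k)
    (hObst : ∀ n, (∀ m < n, ThmST.{u, w} a k m) → ObstST.{u, w} a k n) :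
    ∀ n, ThmST.{u, w} a k n := by
  intro n
  induction n using Nat.strong_induction_on with
  | _ n ih =>
    intro V A _ _ _ _ D r s t hn hst hKS hα
    classical
    by_cases hV : ∀ x, x = r ∨ x = s ∨ x = t
    · exact good_three D r s t k hk hst hKS hV
    push Not at hV
    obtain ⟨x0, hx1, hx2, hx3⟩ := hV
    have hcard4 : 4 ≤ Fintype.card V := by
      have h1 : ({r, s, t, x0} : Finset V).card = 4 := by
        rw [Finset.card_insert_of_notMem, Finset.card_insert_of_notMem,
          Finset.card_insert_of_notMem, Finset.card_singleton]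
        · simpa using Ne.symm hx3
        · simp only [Finset.mem_insert, Finset.mem_singleton, not_or]
          exact ⟨hst.st, Ne.symm hx2⟩
        · simp only [Finset.mem_insert, Finset.mem_singleton, not_or]
          exact ⟨hst.rs, hst.rt, Ne.symm hx1⟩
      rw [← h1]
      exact Finset.card_le_univ _
    obtain ⟨E, hE, hcr⟩ := D.exists_minimal k hKS
    obtain ⟨v, hvr, hvs, hvt, hv1, hv2⟩ := mader_st (k := k) (by omega) D E r s t hst.rs hst.rt
      hst.st hcard4 hE hcr (fun e _ h _ => hst.out e h) (fun e _ h _ => hst.inn e h)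
    have hcut : D.CutC E v k := by
      intro X hvX hX _
      have hXu := ne_univ_of_notMem hvX
      exact ⟨hE X hX hXu, hE.ind hX hXu⟩
    obtain ⟨π, hπ1, hπ2, hπ3⟩ := split_all v k k D E hv1 hv2 hcut
    have hI : ∀ e ∈ D.inA E v, D.src e ≠ v ∧ D.tgt (π e) ≠ v := fun e he =>
      ⟨(mem_inA.1 he).2.1, (mem_outA.1 (hπ1 e he)).2.2⟩
    have hI' : ∀ e ∈ D.inA E v, D.tgt e = v ∧ D.src (π e) = v := fun e he =>
      ⟨(mem_inA.1 he).2.2, (mem_outA.1 (hπ1 e he)).2.1⟩
    have hKS' := D.KS_spl v E k π hI hπ3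
    have hcard : Fintype.card {x : V // x ≠ v} = n - 1 := by
      rw [Fintype.card_subtype_compl, hn]
      simp
    have hα' : ∀ S : Finset {x : V // x ≠ v}, (⟨r, Ne.symm hvr⟩ : {x : V // x ≠ v}) ∉ S →
        (D.spl v (D.inA E v) π hI).Indep S → S.card ≤ a := by
      intro S hrS hS
      rw [← Finset.card_map (Function.Embedding.subtype _)]
      have hmem : ∀ x : V, x ∈ S.map (Function.Embedding.subtype _) ↔
          ∃ h, (⟨x, h⟩ : {x : V // x ≠ v}) ∈ S := by
        intro x
        simp
      apply hα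
      · rw [hmem]
        rintro ⟨h, h'⟩
        exact hrS h'
      · intro g h1 h2
        rw [hmem] at h1 h2
        obtain ⟨h1, h1'⟩ := h1
        obtain ⟨h2, h2'⟩ := h2
        have := hS (Sum.inl ⟨g, h1, h2⟩) h1' h2'
        exact congrArg Subtype.val this
    -- the class is preserved
    have hRST' : (D.spl v (D.inA E v) π hI).RST ⟨r, Ne.symm hvr⟩ ⟨s, Ne.symm hvs⟩
        ⟨t, Ne.symm hvt⟩ := by
      refine ⟨fun h => hst.rs (congrArg Subtype.val h), fun h => hst.rt (congrArg Subtype.val h),
        fun h => hst.st (congrArg Subtype.val h), ?_, ?_⟩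
      · rintro (e | e) he
        · exact Subtype.ext (hst.out e.1 (congrArg Subtype.val he))
        · exfalso
          have h1 : D.src e.1 = r := congrArg Subtype.val he
          have h2 := hst.out e.1 h1
          rw [(hI' e.1 e.2).1] at h2
          exact hvs h2
      · rintro (e | e) he
        · exact Subtype.ext (hst.inn e.1 (congrArg Subtype.val he))
        · exfalso
          have h1 : D.tgt (π e.1) = r := congrArg Subtype.val he
          have h2 := hst.inn _ h1
          rw [(hI' e.1 e.2).2] at h2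
          exact hvt h2
    obtain ⟨F', G', hFG, hF', hG'⟩ := ih (n - 1) (by omega) {x : V // x ≠ v} _
      (D.spl v (D.inA E v) π hI) ⟨r, Ne.symm hvr⟩ ⟨s, Ne.symm hvs⟩ ⟨t, Ne.symm hvt⟩ hcard hRST'
      hKS' hα'
    have hG'' : ∀ x, (D.spl v (D.inA E v) π hI).Reach F'ᶜ x ⟨r, Ne.symm hvr⟩ := fun x =>
      (hG' x).mono fun e he h => Set.disjoint_left.1 hFG h he
    set F := D.liftS v (D.inA E v) π F' with hFdef
    set G := D.liftS v (D.inA E v) π F'ᶜ with hGdef
    have hdisj : Disjoint F G := D.lift_disj v _ π hI hI' hπ2 _ _ disjoint_compl_right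
    have hFx : ∀ x, x ≠ v → D.Reach F r x := fun x hx =>
      D.lift_reach v _ π hI hI' F' (hF' ⟨x, hx⟩)
    have hGx : ∀ x, x ≠ v → D.Reach G x r := fun x hx =>
      D.lift_reach v _ π hI hI' _ (hG'' ⟨x, hx⟩)
    have hFv : (∃ e : {e : A // e ∈ D.inA E v}, Sum.inr e ∈ F') → ∀ x, D.Reach F r x := by
      rintro ⟨e, he⟩ x
      by_cases hx : x = v
      · have h1 : e.1 ∈ F := Or.inr ⟨e, he, Or.inl rfl⟩
        have h2 := Reach.single (D := D) h1
        rw [(hI' e.1 e.2).1] at h2
        rw [hx]
        exact (hFx _ (hI e.1 e.2).1).trans h2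
      · exact hFx x hx
    have hGv : (∃ e : {e : A // e ∈ D.inA E v}, Sum.inr e ∉ F') → ∀ x, D.Reach G x r := by
      rintro ⟨e, he⟩ x
      by_cases hx : x = v
      · have h1 : π e.1 ∈ G := Or.inr ⟨e, he, Or.inr rfl⟩
        have h2 := Reach.single (D := D) h1
        rw [(hI' e.1 e.2).2] at h2
        rw [hx]
        exact h2.trans (hGx _ (hI e.1 e.2).2)
      · exact hGx x hx
    have hIcard : k ≤ (D.inA E v).card := by rw [card_inA, hv2]
    have hOcard : k ≤ (D.outA E v).card := by rw [card_outA, hv1]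
    have hIne : (D.inA E v).Nonempty := Finset.card_pos.1 (by omega)
    obtain ⟨e0, he0⟩ := hIne
    by_cases hA : ∃ e : {e : A // e ∈ D.inA E v}, Sum.inr e ∈ F'
    · by_cases hB : ∃ e : {e : A // e ∈ D.inA E v}, Sum.inr e ∉ F'
      · exact ⟨F, G, hdisj, hFv hA, hGv hB⟩
      · -- all split arcs in F'
        rw [← good_rev]
        apply hObst n (fun m hm => ih m hm) V A D.rev r t s v hn hst.rev hvr hvt hvs hKS.rev
          (fun S hS hS' => hα S hS (indep_rev.1 hS')) (D.outA E v) ?_ hOcard G F hdisj.symm ?_ ?_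
        · intro e he
          exact ⟨(mem_outA.1 he).2.1, (mem_outA.1 he).2.2⟩
        · intro x hx
          exact reach_rev.2 (hGx x hx)
        · intro x
          exact reach_rev.2 (hFv hA x)
    · -- no split arc in F'
      have hB : ∃ e : {e : A // e ∈ D.inA E v}, Sum.inr e ∉ F' :=
        ⟨⟨e0, he0⟩, fun h => hA ⟨_, h⟩⟩
      apply hObst n (fun m hm => ih m hm) V A D r s t v hn hst hvr hvs hvt hKS hα (D.inA E v) ?_
        hIcard F G hdisj hFx (hGv hB)
      intro e he
      exact ⟨(mem_inA.1 he).2.2, (mem_inA.1 he).2.1⟩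

end MD

end Pool.Agent.Work.MP_38b5f0_co
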