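import Pool.Agent.Work.MP_38b5f0_co.Grow

set_option autoImplicit false

namespace Pool.Agent.Work.MP_38b5f0_co

namespace MD

variable {V A : Type*}

/-- Final counting step. `G = (BS r W P)ᶜ` reaches `r` from everywhere, all arcs leaving `W` are
critical, and the arcs `e ∈ I` into `v` are critical. -/
lemma final_count [Fintype V] [DecidableEq V] [Fintype A] [DecidableEq A] (D : MD V A) (r v : V)
    (a k : ℕ) (hα : ∀ S : Finset V, r ∉ S → D.Indep S → S.card ≤ a)
    (hKS : D.KS Finset.univ k) (W : Finset V) (P : V → A) (d : V → ℕ) (hst : D.IsSt r W P d)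
    (hvW : v ∈ W) (hW : W ≠ Finset.univ) (hG : ∀ x, D.Reach (BS r W P)ᶜ x r)
    (hcrit : ∀ e, D.src e ∈ W → D.tgt e ∉ W → ¬ D.Reach ((BS r W P)ᶜ \ {e}) (D.src e) r)
    (I : Finset A) (hI : ∀ e ∈ I, D.tgt e = v ∧ D.src e ≠ v) (hIG : ∀ e ∈ I, e ∉ BS r W P)
    (hIc : ∀ e ∈ I, ¬ D.Reach ((BS r W P)ᶜ \ {e}) (D.src e) r) :
    I.card + k ≤ 2 * a + 1 := by
  classical
  set G : Set A := (BS r W P)ᶜ with hGdef
  have hHne : (Wᶜ).Nonempty := by
    rw [Finset.nonempty_iff_ne_empty]
    intro h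
    apply hW
    rwa [Finset.compl_eq_empty_iff] at h
  obtain ⟨H0, hH0ne, hH0H, hH0c, hH0s⟩ := D.exists_initial Wᶜ hHne
  obtain ⟨z0, hz0⟩ := hH0ne
  have hH0W : ∀ z ∈ H0, z ∉ W := fun z hz => Finset.mem_compl.1 (hH0H hz)
  set J : Finset A := Finset.univ.filter fun e => D.src e ∉ H0 ∧ D.tgt e ∈ H0 with hJdef
  have hmJ : ∀ e, e ∈ J ↔ D.src e ∉ H0 ∧ D.tgt e ∈ H0 := by
    intro e
    rw [hJdef, Finset.mem_filter]
    simp
  have hJk : k ≤ J.card := by
    have h1 : H0 ≠ Finset.univ := by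
      intro h
      exact hH0W r (h ▸ Finset.mem_univ r) hst.1
    exact hKS.ind ⟨z0, hz0⟩ h1
  -- basic facts on `BS`
  have hBtgt : ∀ e ∈ BS r W P, D.tgt e ∈ W := by
    rintro e ⟨x, hx, hxr, rfl⟩
    rw [(hst.2 x hx hxr).1]
    exact hx
  have hGtgt : ∀ e, D.tgt e ∉ W → e ∈ G := fun e he h => he (hBtgt e h)
  have hJW : ∀ e ∈ J, D.src e ∈ W := by
    intro e he
    rw [hmJ] at he
    by_contra h
    exact he.1 (hH0c e (Finset.mem_compl.2 h) he.2)
  have hJG : ∀ e ∈ J, e ∈ G := fun e he => hGtgt e (hH0W _ ((hmJ e).1 he).2)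
  have hJcrit : ∀ e ∈ J, ¬ D.Reach (G \ {e}) (D.src e) r := fun e he =>
    hcrit e (hJW e he) (hH0W _ ((hmJ e).1 he).2)
  set In : Set A := {g | D.tgt g = v} with hIn
  have hmIn : ∀ g, g ∈ In ↔ D.tgt g = v := fun g => Iff.rfl
  have hIG' : ∀ e ∈ I, e ∈ G := fun e he => hIG e he
  have hInt : {e | D.src e ∈ H0 ∧ D.tgt e ∈ H0} ⊆ G \ In := by
    rintro e ⟨-, h2⟩
    refine ⟨hGtgt e (hH0W _ h2), ?_⟩
    intro h
    rw [hmIn] at h
    exact hH0W _ h2 (h ▸ hvW)
  have hIntJ : ∀ e ∈ J, {e | D.src e ∈ H0 ∧ D.tgt e ∈ H0} ⊆ G \ {e} := by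
    rintro e he g ⟨h1, h2⟩
    refine ⟨hGtgt g (hH0W _ h2), ?_⟩
    rintro rfl
    exact ((hmJ _).1 he).1 h1
  have hInI : ∀ e ∈ I, G \ In ⊆ G \ {e} := by
    rintro e he g ⟨h1, h2⟩
    refine ⟨h1, ?_⟩
    rintro rfl
    exact h2 (hI _ he).1
  have hIntI : ∀ e ∈ I, {e | D.src e ∈ H0 ∧ D.tgt e ∈ H0} ⊆ G \ {e} := fun e he =>
    hInt.trans (hInI e he)
  -- (a)
  have hA : ∀ e ∈ J, ∀ z ∈ H0, ¬ D.Reach (G \ {e}) (D.src e) z := by
    intro e he z hz h
    apply hJcrit e he
    have h1 : D.Reach (G \ {e}) z (D.tgt e) :=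
      (hH0s z hz _ ((hmJ e).1 he).2).mono (hIntJ e he)
    have h2 : D.Reach (G \ {e}) (D.tgt e) r := by
      refine (reach_avoid (hG (D.tgt e))).mono ?_
      rintro g ⟨h3, h4⟩
      refine ⟨h3, ?_⟩
      rintro rfl
      exact h4 rfl
    exact (h.trans h1).trans h2
  -- `v` reaches `r` avoiding arcs into `v`
  have hv : D.Reach (G \ In) v r := by
    refine (reach_avoid (hG v)).mono ?_
    rintro g ⟨h3, h4⟩
    exact ⟨h3, h4⟩
  have hsdJ : ∀ e ∈ J, ∀ X : Set A, X ⊆ G → X \ (J : Set A) ⊆ G \ {e} := by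
    rintro e he X hX g ⟨h1, h2⟩
    refine ⟨hX h1, ?_⟩
    rintro rfl
    exact h2 he
  -- (h)
  have hH : ∀ e ∈ J, ∀ e' ∈ J, D.Reach (G \ {e}) (D.src e) v → D.Reach (G \ {e'}) (D.src e') v →
      e = e' := by
    intro e he e' he' h1 h1'
    rcases reach_first (J : Set A) (hG v) with h | ⟨g, hgJ, hgG, hg1, -⟩
    · exact absurd (h1.trans (h.mono (hsdJ e he G subset_rfl))) (hJcrit e he)
    · have key : ∀ e ∈ J, D.Reach (G \ {e}) (D.src e) v → e = g := by
        intro e he h1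
        by_contra hne
        have h2 : D.Reach (G \ {e}) v (D.src g) := hg1.mono (hsdJ e he G subset_rfl)
        have h3 : D.Reach (G \ {e}) (D.src g) (D.tgt g) :=
          Reach.single ⟨hgG, fun h => hne h.symm⟩
        exact hA e he _ ((hmJ g).1 hgJ).2 ((h1.trans h2).trans h3)
      rw [key e he h1, key e' he' h1']
  -- (i)
  have hz0I : ∀ e ∈ I, (∃ z ∈ H0, D.Reach (G \ {e}) (D.src e) z) →
      D.Reach (G \ {e}) (D.src e) z0 := by
    rintro e he ⟨z, hz, h⟩
    exact h.trans ((hH0s z hz z0 hz0).mono (hIntI e he))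
  have hi : ∀ e ∈ I, ∀ e' ∈ I, (∃ z ∈ H0, D.Reach (G \ {e}) (D.src e) z) →
      (∃ z ∈ H0, D.Reach (G \ {e'}) (D.src e') z) → e = e' := by
    intro e he e' he' h1 h1'
    rcases reach_first In (hG z0) with h | ⟨g, hgJ, hgG, hg1, -⟩
    · exact absurd ((hz0I e he h1).trans (h.mono (hInI e he))) (hIc e he)
    · have key : ∀ e ∈ I, (∃ z ∈ H0, D.Reach (G \ {e}) (D.src e) z) → e = g := by
        intro e he h1
        by_contra hne
        have h2 : D.Reach (G \ {e}) z0 (D.src g) := hg1.mono (hInI e he)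
        have h3 : D.Reach (G \ {e}) (D.src g) (D.tgt g) :=
          Reach.single ⟨hgG, fun h => hne h.symm⟩
        rw [(hmIn g).1 hgJ] at h3
        exact hIc e he ((((hz0I e he h1).trans h2).trans h3).trans (hv.mono (hInI e he)))
      rw [key e he h1, key e' he' h1']
  -- (j)
  have hj : ∀ e ∈ I, (∃ z ∈ H0, D.Reach (G \ {e}) (D.src e) z) → ∀ e' ∈ J,
      ¬ D.Reach (G \ {e'}) (D.src e') v := by
    intro e he h1 e' he' h2
    rcases reach_first (J : Set A) hv with h | ⟨g, hgJ, hgG, hg1, hg2⟩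
    · exact hJcrit e' he' (h2.trans (h.mono (hsdJ e' he' _ Set.sdiff_subset)))
    · have h3 := hz0I e he h1
      have h4 : D.Reach (G \ {e}) z0 (D.tgt g) :=
        (hH0s z0 hz0 _ ((hmJ g).1 hgJ).2).mono (hIntI e he)
      exact hIc e he ((h3.trans h4).trans (hg2.mono (hInI e he)))
  -- the two families
  set I2 : Finset A := I.filter fun e => ¬ ∃ z ∈ H0, D.Reach (G \ {e}) (D.src e) z with hI2
  set J2 : Finset A := J.filter fun e => ¬ D.Reach (G \ {e}) (D.src e) v with hJ2
  have hmI2 : ∀ e, e ∈ I2 ↔ e ∈ I ∧ ¬ ∃ z ∈ H0, D.Reach (G \ {e}) (D.src e) z := fun e => by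
    rw [hI2, Finset.mem_filter]
  have hmJ2 : ∀ e, e ∈ J2 ↔ e ∈ J ∧ ¬ D.Reach (G \ {e}) (D.src e) v := fun e => by
    rw [hJ2, Finset.mem_filter]
  have hcardI : I.card = I2.card +
      (I.filter fun e => ∃ z ∈ H0, D.Reach (G \ {e}) (D.src e) z).card := by
    rw [hI2, add_comm, Finset.card_filter_add_card_filter_not]
  have hcardJ : J.card = J2.card + (J.filter fun e => D.Reach (G \ {e}) (D.src e) v).card := by
    rw [hJ2, add_comm, Finset.card_filter_add_card_filter_not]
  have hbad : (I.filter fun e => ∃ z ∈ H0, D.Reach (G \ {e}) (D.src e) z).card +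
      (J.filter fun e => D.Reach (G \ {e}) (D.src e) v).card ≤ 1 := by
    by_cases hne : (I.filter fun e => ∃ z ∈ H0, D.Reach (G \ {e}) (D.src e) z).Nonempty
    · obtain ⟨e, he⟩ := hne
      rw [Finset.mem_filter] at he
      have h1 : (J.filter fun e => D.Reach (G \ {e}) (D.src e) v) = ∅ := by
        rw [Finset.filter_eq_empty_iff]
        exact fun e' he' => hj e he.1 he.2 e' he'
      rw [h1, Finset.card_empty, add_zero, Finset.card_le_one]
      intro x hx y hy
      rw [Finset.mem_filter] at hx hy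
      exact hi x hx.1 y hy.1 hx.2 hy.2
    · rw [Finset.not_nonempty_iff_eq_empty] at hne
      rw [hne, Finset.card_empty, zero_add, Finset.card_le_one]
      intro x hx y hy
      rw [Finset.mem_filter] at hx hy
      exact hH x hx.1 y hy.1 hx.2 hy.2
  -- injectivity
  have hinjI : Set.InjOn D.src I2 := by
    intro e he e' he' h
    by_contra hne
    have he1 := (hmI2 e).1 he
    have he1' := (hmI2 e').1 he'
    apply hIc e he1.1
    rw [h]
    have h3 : D.Reach (G \ {e}) (D.src e') (D.tgt e') :=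
      Reach.single ⟨hIG' e' he1'.1, fun h => hne h.symm⟩
    rw [(hI e' he1'.1).1] at h3
    exact h3.trans (hv.mono (hInI e he1.1))
  have hinjJ : Set.InjOn D.src J2 := by
    intro e he e' he' h
    by_contra hne
    have he1 := (hmJ2 e).1 he
    have he1' := (hmJ2 e').1 he'
    have h3 : D.Reach (G \ {e}) (D.src e') (D.tgt e') :=
      Reach.single ⟨hJG e' he1'.1, fun h => hne h.symm⟩
    rw [← h] at h3
    exact hA e he1.1 _ ((hmJ _).1 he1'.1).2 h3
  have htI : ∀ e ∈ I, ∀ e' ∈ J, e ≠ e' := by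
    rintro e he e' he' rfl
    have h1 := ((hmJ _).1 he').2
    rw [(hI e he).1] at h1
    exact hH0W _ h1 hvW
  have hdisj : Disjoint (I2.image D.src) (J2.image D.src) := by
    rw [Finset.disjoint_left]
    intro x hx hx'
    rw [Finset.mem_image] at hx hx'
    obtain ⟨e, he, rfl⟩ := hx
    obtain ⟨e', he', h⟩ := hx'
    have he1 := (hmI2 e).1 he
    have he1' := (hmJ2 e').1 he'
    apply he1.2
    refine ⟨_, ((hmJ _).1 he1'.1).2, ?_⟩
    rw [← h]
    exact Reach.single ⟨hJG e' he1'.1, fun h => htI e he1.1 e' he1'.1 h.symm⟩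
  set R : Finset V := I2.image D.src ∪ J2.image D.src with hR
  have hRcard : R.card = I2.card + J2.card := by
    rw [hR, Finset.card_union_of_disjoint hdisj, Finset.card_image_of_injOn hinjI,
      Finset.card_image_of_injOn hinjJ]
  have hmR : ∀ x, x ∈ R ↔ (∃ e ∈ I2, D.src e = x) ∨ ∃ e ∈ J2, D.src e = x := by
    intro x
    rw [hR, Finset.mem_union, Finset.mem_image, Finset.mem_image]
  have hrR : r ∉ R := by
    rw [hmR]
    rintro (⟨e, he, h⟩ | ⟨e, he, h⟩)
    · apply hIc e ((hmI2 e).1 he).1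
      rw [h]
      exact Reach.refl r
    · apply hJcrit e ((hmJ2 e).1 he).1
      rw [h]
      exact Reach.refl r
  have harc : ∀ g, D.src g ∈ R → D.tgt g ∈ R → D.src g ≠ D.tgt g → g ∈ BS r W P := by
    intro g hg1 hg2 hne
    by_contra hgB
    have hgG : g ∈ G := hgB
    rw [hmR] at hg1 hg2
    rcases hg1 with ⟨e, he, h1⟩ | ⟨e, he, h1⟩
    · have he1 := (hmI2 e).1 he
      rcases hg2 with ⟨e', he', h2⟩ | ⟨e', he', h2⟩
      · have he1' := (hmI2 e').1 he'
        have hge : g ≠ e := by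
          rintro rfl
          rw [(hI _ he1.1).1] at h2
          exact (hI e' he1'.1).2 h2
        have hee : e' ≠ e := by
          rintro rfl
          exact hne (h1.symm.trans h2)
        have h3 : D.Reach (G \ {e}) (D.src g) (D.tgt g) := Reach.single ⟨hgG, hge⟩
        rw [← h1, ← h2] at h3
        have h4 : D.Reach (G \ {e}) (D.src e') (D.tgt e') := Reach.single ⟨hIG' e' he1'.1, hee⟩
        rw [(hI e' he1'.1).1] at h4
        exact hIc e he1.1 ((h3.trans h4).trans (hv.mono (hInI e he1.1)))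
      · have he1' := (hmJ2 e').1 he'
        have hge : g ≠ e := by
          rintro rfl
          rw [(hI _ he1.1).1] at h2
          apply he1'.2
          rw [h2]
          exact Reach.refl v
        have h3 : D.Reach (G \ {e}) (D.src g) (D.tgt g) := Reach.single ⟨hgG, hge⟩
        rw [← h1, ← h2] at h3
        have h4 : D.Reach (G \ {e}) (D.src e') (D.tgt e') :=
          Reach.single ⟨hJG e' he1'.1, fun h => htI e he1.1 e' he1'.1 h.symm⟩
        exact he1.2 ⟨_, ((hmJ _).1 he1'.1).2, h3.trans h4⟩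
    · have he1 := (hmJ2 e).1 he
      rcases hg2 with ⟨e', he', h2⟩ | ⟨e', he', h2⟩
      · have he1' := (hmI2 e').1 he'
        have hge : g ≠ e := by
          rintro rfl
          apply he1'.2
          refine ⟨_, ((hmJ _).1 he1.1).2, ?_⟩
          rw [← h2]
          exact Reach.refl _
        have h3 : D.Reach (G \ {e}) (D.src g) (D.tgt g) := Reach.single ⟨hgG, hge⟩
        rw [← h1, ← h2] at h3
        have h4 : D.Reach (G \ {e}) (D.src e') (D.tgt e') :=
          Reach.single ⟨hIG' e' he1'.1, fun h => htI e' he1'.1 e he1.1 h⟩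
        rw [(hI e' he1'.1).1] at h4
        exact he1.2 (h3.trans h4)
      · have he1' := (hmJ2 e').1 he'
        have hge : g ≠ e := by
          rintro rfl
          have h5 := ((hmJ _).1 he1.1).2
          rw [← h2] at h5
          exact ((hmJ _).1 he1'.1).1 h5
        have hee : e' ≠ e := by
          rintro rfl
          exact hne (h1.symm.trans h2)
        have h3 : D.Reach (G \ {e}) (D.src g) (D.tgt g) := Reach.single ⟨hgG, hge⟩
        rw [← h1, ← h2] at h3
        have h4 : D.Reach (G \ {e}) (D.src e') (D.tgt e') := Reach.single ⟨hJG e' he1'.1, hee⟩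
        exact hA e he1.1 _ ((hmJ _).1 he1'.1).2 (h3.trans h4)
  -- parity classes
  have hindep : ∀ c : ℕ, (R.filter fun x => d x % 2 = c).card ≤ a := by
    intro c
    apply hα
    · intro h
      exact hrR (Finset.mem_filter.1 h).1
    · intro g h1 h2
      by_contra hne
      rw [Finset.mem_filter] at h1 h2
      obtain ⟨x, hx, hxr, rfl⟩ := harc g h1.1 h2.1 hne
      obtain ⟨h3, h4, h5⟩ := hst.2 x hx hxr
      rw [h3] at h2
      omega
  have h0 := hindep 0
  have h1 := hindep 1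
  have hsplit : R.card = (R.filter fun x => d x % 2 = 0).card +
      (R.filter fun x => d x % 2 = 1).card := by
    rw [← Finset.card_filter_add_card_filter_not (s := R) (fun x => d x % 2 = 0)]
    congr 2
    ext x
    simp only [Finset.mem_filter]
    constructor
    · rintro ⟨h, h'⟩; exact ⟨h, by omega⟩
    · rintro ⟨h, h'⟩; exact ⟨h, by omega⟩
  omega

end MD

end Pool.Agent.Work.MP_38b5f0_co
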